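import Mathlib

/-!
# Cohomology of varieties over finite fields and of their products: definitions
-/

set_option autoImplicit false

namespace Pool.Agent.H855.DP

open Module TensorProduct

/-- The `ℓ`-adic cohomology of a smooth projective geometrically connected variety `X` over a finite
field, with complex coefficients (we choose an isomorphism of the algebraic closure of `ℚ_ℓ` with
`ℂ`). -/
structure VarietyData where
  /-- the group `H^a(X)` -/
  H : ℕ → Type
  [group : ∀ a, AddCommGroup (H a)]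
  [module : ∀ a, Module ℂ (H a)]
  /-- the Frobenius endomorphism of `H^a(X)` -/
  frob : ∀ a, H a →ₗ[ℂ] H a
  /-- the space `A^i(X)` spanned by the classes of the cycles of codimension `i` -/
  cyc : ∀ i, Submodule ℂ (H (2 * i))
  /-- the class of `X` in `H^0(X)` -/
  one : H 0
  /-- the restriction of `H^0(X)` to a point -/
  res : H 0 →ₗ[ℂ] ℂ

attribute [instance] VarietyData.group VarietyData.module

section

variable (X Y : VarietyData) (Q : ℕ)

/-- The number `α` is an eigenvalue of Frobenius on `H^a(X)`. -/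
def IsEigenvalue (a : ℕ) (α : ℂ) : Prop := Module.End.HasEigenvalue (X.frob a) α

/-- `F - Q ^ i` on `H^(2 i)(X)`. -/
def dev (i : ℕ) : X.H (2 * i) →ₗ[ℂ] X.H (2 * i) := X.frob (2 * i) - (Q : ℂ) ^ i • LinearMap.id

/-- `E^i(X)`: the elements of `H^(2 i)(X)` which Frobenius multiplies by `Q ^ i`. -/
def invariants (i : ℕ) : Submodule ℂ (X.H (2 * i)) := LinearMap.ker (dev X Q i)

/-- The formal properties of the cohomology of a smooth projective variety over the field with `Q`
elements, and the theorem of Deligne on the absolute values of the eigenvalues of Frobenius. -/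
structure IsVariety : Prop where
  finite : ∀ a, Module.Finite ℂ (X.H a)
  weights : ∀ a α, IsEigenvalue X a α → ‖α‖ ^ 2 = (Q : ℝ) ^ a
  cyc_le : ∀ i, X.cyc i ≤ invariants X Q i
  one_mem : X.one ∈ X.cyc 0
  res_one : X.res X.one = 1

/-- `E^i(X) = A^i(X)`: the elements of `E^i(X)` are linear combinations of classes of cycles. -/
def Tate (i : ℕ) : Prop := invariants X Q i ≤ X.cyc i

/-- Frobenius is semisimple at the eigenvalue `Q ^ i` on `H^(2 i)(X)`. -/
def Semisimple (i : ℕ) : Prop := ∀ x, dev X Q i (dev X Q i x) = 0 → dev X Q i x = 0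

/-- The space `H^a(X) ⊗ H^b(Y)`. -/
def Tens (a b : ℕ) : Type := X.H a ⊗[ℂ] Y.H b

noncomputable instance (a b : ℕ) : AddCommGroup (Tens X Y a b) :=
  inferInstanceAs (AddCommGroup (X.H a ⊗[ℂ] Y.H b))

noncomputable instance (a b : ℕ) : Module ℂ (Tens X Y a b) :=
  inferInstanceAs (Module ℂ (X.H a ⊗[ℂ] Y.H b))

/-- The Frobenius endomorphism of `H^a(X) ⊗ H^b(Y)`. -/
noncomputable def frobT (a b : ℕ) : Tens X Y a b →ₗ[ℂ] Tens X Y a b :=
  TensorProduct.map (X.frob a) (Y.frob b)

/-- The cohomology of `X × Y`, by the Künneth formula: the families `w a b` of elements of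
`H^a(X) ⊗ H^b(Y)`. -/
def PairH : Type := ∀ a b : ℕ, Tens X Y a b

noncomputable instance : AddCommGroup (PairH X Y) :=
  inferInstanceAs (AddCommGroup (∀ a b : ℕ, Tens X Y a b))

noncomputable instance : Module ℂ (PairH X Y) :=
  inferInstanceAs (Module ℂ (∀ a b : ℕ, Tens X Y a b))

/-- `F - Q ^ n` on the cohomology of `X × Y`. -/
noncomputable def devP (n : ℕ) (w : PairH X Y) : PairH X Y :=
  fun a b => frobT X Y a b (w a b) - (Q : ℂ) ^ n • w a b

/-- The element `w` has the degree `m`. -/
def HasDegree (m : ℕ) (w : PairH X Y) : Prop := ∀ a b, a + b ≠ m → w a b = 0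

/-- `w` is in `E^n(X × Y)`: it has the degree `2 n`, and Frobenius multiplies it by `Q ^ n`. -/
def IsInvariant (n : ℕ) (w : PairH X Y) : Prop := HasDegree X Y (2 * n) w ∧ devP X Y Q n w = 0

variable {X Y}

/-- The element `x ⊗ y`. -/
noncomputable def cross {a b : ℕ} (x : X.H a) (y : Y.H b) : PairH X Y :=
  Pi.single a (Pi.single b (x ⊗ₜ[ℂ] y : Tens X Y a b))

/-- The restriction to `{x} × Y` of an element of the cohomology of `X × Y` of degree `b`, where `x` is
a point. -/
noncomputable def resLeft (b : ℕ) (w : PairH X Y) : Y.H b :=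
  TensorProduct.lid ℂ (Y.H b) (LinearMap.rTensor (Y.H b) X.res (w 0 b))

/-- The restriction to `X × {y}` of an element of the cohomology of `X × Y` of degree `a`, where `y` is
a point. -/
noncomputable def resRight (a : ℕ) (w : PairH X Y) : X.H a :=
  TensorProduct.rid ℂ (X.H a) (LinearMap.lTensor (X.H a) Y.res (w a 0))

variable (X Y)

/-- The spaces `A^n(X × Y)` spanned by the classes of the cycles of codimension `n` on `X × Y`. -/
structure ProductData where
  /-- the space `A^n(X × Y)` -/
  cyc : ℕ → Submodule ℂ (PairH X Y)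

variable {X Y}
variable (Z : ProductData X Y)

/-- The products of cycles on `X` and `Y` are cycles on `X × Y`. -/
def HasProducts : Prop :=
  ∀ i j, ∀ x ∈ X.cyc i, ∀ y ∈ Y.cyc j, cross x y ∈ Z.cyc (i + j)

/-- The restrictions of a cycle on `X × Y` to `{x} × Y` and `X × {y}`, where `x` and `y` are points, are
cycles. (If the degree of the point `x` is `m`, the restriction to `{x} × Y` is defined over the
field with `Q ^ m` elements; its push-forward to `Y` is `m` times the restriction in the cohomology, as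
`X` is geometrically connected.) -/
def HasRestrictions : Prop :=
  ∀ n, ∀ w ∈ Z.cyc n, resLeft (2 * n) w ∈ Y.cyc n ∧ resRight (2 * n) w ∈ X.cyc n

/-- The formal properties of the classes of cycles on `X × Y`. -/
structure IsProduct : Prop where
  invariant : ∀ n, ∀ w ∈ Z.cyc n, IsInvariant X Y Q n w
  products : HasProducts Z
  restrictions : HasRestrictions Z

/-- `E^n(X × Y) = A^n(X × Y)`. -/
def TateP (n : ℕ) : Prop := ∀ w, IsInvariant X Y Q n w → w ∈ Z.cyc n

variable (X Y)

/-- Frobenius is semisimple at the eigenvalue `Q ^ n` on `H^(2 n)(X × Y)`. -/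
def SemisimpleP (n : ℕ) : Prop :=
  ∀ w, HasDegree X Y (2 * n) w → devP X Y Q n (devP X Y Q n w) = 0 → devP X Y Q n w = 0

/-- The products `x ⊗ y` of elements of `E^i(X)` and `E^(n - i)(Y)`. -/
def crossClasses (n : ℕ) : Set (PairH X Y) :=
  {t | ∃ i j, i + j = n ∧ ∃ x ∈ invariants X Q i, ∃ y ∈ invariants Y Q j, t = cross x y}

/-- `E^n(X × Y) = ∑ E^i(X) ⊗ E^(n - i)(Y)`. -/
def TateKunneth (n : ℕ) : Prop :=
  ∀ w, IsInvariant X Y Q n w → w ∈ Submodule.span ℂ (crossClasses X Y Q n)

variable {X Y}

/-- The conclusion about `X` and `Y`, in the codimensions up to `m`: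

1. Frobenius is semisimple at `Q ^ n` for `X × Y` and `n ≤ m` if and only if this is true for `X` and
  for `Y`;
2. this and `E^n = A^n` hold for `X × Y` and `n ≤ m` if and only if they hold for `X` and for `Y`;
3. if Frobenius is semisimple at `Q ^ n`, `n ≤ m`, for one of `X` and `Y`, then
  `E^n(X × Y) = ∑ E^i(X) ⊗ E^(n - i)(Y)` for `n ≤ m`, and `E^n = A^n` for `X × Y` and `n ≤ m` if and
  only if this is true for `X` and for `Y`. -/
def Decoupled (m : ℕ) : Prop :=
  ((∀ n ≤ m, SemisimpleP X Y Q n) ↔ ∀ n ≤ m, Semisimple X Q n ∧ Semisimple Y Q n) ∧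
  ((∀ n ≤ m, TateP Q Z n ∧ SemisimpleP X Y Q n) ↔
    ∀ n ≤ m, (Tate X Q n ∧ Semisimple X Q n) ∧ (Tate Y Q n ∧ Semisimple Y Q n)) ∧
  (((∀ n ≤ m, Semisimple X Q n) ∨ ∀ n ≤ m, Semisimple Y Q n) →
    (∀ n ≤ m, TateKunneth X Y Q n) ∧
      ((∀ n ≤ m, TateP Q Z n) ↔ ∀ n ≤ m, Tate X Q n ∧ Tate Y Q n))

end

end Pool.Agent.H855.DP
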