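import Mathlib
import Pool.Agent.H855.DP.Defs
import Pool.Agent.H855.CM.LineDefs

/-!
# Varieties with Frobenius eigenvalues generated by Weil numbers: definitions
-/

set_option autoImplicit false

namespace Pool.Agent.H855.DP

open NumberField Module TensorProduct Pool.Agent.V1168.EV Pool.Agent.H855.CM

/-- The number `α` is supersingular: for all automorphisms `σ` of `ℂ` the `p`-adic absolute values of
`σ α` and of its complex conjugate are equal. For an eigenvalue of Frobenius on `H^a(X)` this means that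
all its slopes are `a / 2`, and also that a power of it is a power of `p`. -/
def IsSupersingular {p : ℕ} [Fact p.Prime] (ν : PadicAlgCl p ≃+* ℂ) (α : ℂ) : Prop :=
  ∀ σ : ℂ ≃+* ℂ, ‖ν.symm (σ α)‖ = ‖ν.symm (starRingEnd ℂ (σ α))‖

/-- All supersingular eigenvalues of Frobenius on the cohomology of `X` are powers of `Q`. -/
def IsTight {p : ℕ} [Fact p.Prime] (ν : PadicAlgCl p ≃+* ℂ) (X : VarietyData) (Q : ℕ) : Prop :=
  ∀ a α, IsEigenvalue X a α → IsSupersingular ν α → ∃ k : ℕ, α = (Q : ℂ) ^ k

/-- Up to powers, the eigenvalues of Frobenius on the cohomology of `X` are products of powers of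
conjugates of the numbers `π j` and of `p`. -/
def GeneratedBy (X : VarietyData) (p : ℕ) {J : Type} [Fintype J] {L : J → Type}
    [∀ j, Field (L j)] [∀ j, NumberField (L j)] (π : ∀ j, L j) : Prop :=
  ∀ a α, IsEigenvalue X a α →
    ∃ (N : ℕ) (m : (Σ j, (L j →+* ℂ)) → ℤ) (k : ℤ), 0 < N ∧
      α ^ N = (∏ y, (y.2 (π y.1)) ^ m y) * (p : ℂ) ^ k

/-- The eigenvalues of Frobenius on the cohomology of `Y` come from `Ω`. -/
def EigenvaluesFrom (Y : VarietyData) (p : ℕ) (Ω : Finset ℂ) : Prop :=
  ∀ b β, IsEigenvalue Y b β → From p Ω β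

/-- For all finite families of Weil numbers `π j` for `p ^ a` (any `a > 0`), each in one of the
fields `K i`, such that no vector in `E` is a combination of the slope vectors of the `π j`, for all
finite fields with `Q = p ^ r` elements and all smooth projective varieties `X` and `Y` over this
field, where the Frobenius eigenvalues of `X` are generated by the `π j`, those of `Y` come from `Ω`,
and one of `X` and `Y` is tight: `X` and `Y` are decoupled. -/
def DecoupledOutside {p : ℕ} [Fact p.Prime] (ν : PadicAlgCl p ≃+* ℂ) {I : Type}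
    (K : I → Type) [∀ i, Field (K i)] [∀ i, NumberField (K i)] [∀ i, IsCMField (K i)]
    (Ω : Finset ℂ) (E : Finset (Σ i, ((K i →+* ℂ) → ℝ))) : Prop :=
  ∀ (J : Type) [Fintype J] (b : J → I) (a : ℕ) (π : ∀ j, K (b j)), 0 < a →
    (∀ j, π j * IsCMField.complexConj (K (b j)) (π j) = (p : K (b j)) ^ a) →
    (∀ e ∈ E, ¬ IsCombination ν a π e.2) →
    ∀ (r : ℕ) (X Y : VarietyData) (Z : ProductData X Y), 0 < r → IsVariety X (p ^ r) →
      IsVariety Y (p ^ r) → IsProduct (p ^ r) Z → GeneratedBy X p π → EigenvaluesFrom Y p Ω →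
      (IsTight ν X (p ^ r) ∨ IsTight ν Y (p ^ r)) → ∀ m, Decoupled (p ^ r) Z m

end Pool.Agent.H855.DP
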