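import Mathlib

/-!
# Eigenvectors of tensor products of endomorphisms
-/

set_option autoImplicit false
set_option linter.unusedSectionVars false
set_option linter.unusedVariables false

namespace Pool.Agent.H855.DP

open Module TensorProduct Polynomial

variable {U V : Type} [AddCommGroup U] [Module ℂ U] [Module.Finite ℂ U]
  [AddCommGroup V] [Module ℂ V] [Module.Finite ℂ V]

/-- A common eigenvector of two commuting endomorphisms in a stable subspace. -/
theorem exists_common {W : Type} [AddCommGroup W] [Module ℂ W] [Module.Finite ℂ W]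
    (A B : Module.End ℂ W) (hAB : ∀ w, A (B w) = B (A w)) (S : Submodule ℂ W) (hS : S ≠ ⊥)
    (hA : ∀ w ∈ S, A w ∈ S) (hB : ∀ w ∈ S, B w ∈ S) :
    ∃ (w : W) (α β : ℂ), w ≠ 0 ∧ w ∈ S ∧ A w = α • w ∧ B w = β • w := by
  have : Nontrivial S := Submodule.nontrivial_iff_ne_bot.2 hS
  obtain ⟨α, hα⟩ := Module.End.exists_eigenvalue (A.restrict hA)
  let T : Submodule ℂ W := S ⊓ Module.End.eigenspace A α
  have hT : T ≠ ⊥ := by
    obtain ⟨v, hv⟩ := hα.exists_hasEigenvector
    intro h
    have h1 : (v : W) ∈ T := by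
      refine Submodule.mem_inf.2 ⟨v.2, Module.End.mem_eigenspace_iff.2 ?_⟩
      have h2 := Module.End.mem_eigenspace_iff.1 hv.1
      exact congrArg Subtype.val h2
    rw [h, Submodule.mem_bot] at h1
    exact hv.2 (Subtype.ext h1)
  have hBT : ∀ w ∈ T, B w ∈ T := by
    intro w hw
    have hw' := Submodule.mem_inf.1 hw
    refine Submodule.mem_inf.2 ⟨hB w hw'.1, Module.End.mem_eigenspace_iff.2 ?_⟩
    have h1 := Module.End.mem_eigenspace_iff.1 hw'.2
    rw [hAB, h1, map_smul]
  have : Nontrivial T := Submodule.nontrivial_iff_ne_bot.2 hT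
  obtain ⟨β, hβ⟩ := Module.End.exists_eigenvalue (B.restrict hBT)
  obtain ⟨v, hv⟩ := hβ.exists_hasEigenvector
  refine ⟨v, α, β, fun h => hv.2 (Subtype.ext h), (Submodule.mem_inf.1 v.2).1, ?_, ?_⟩
  · exact Module.End.mem_eigenspace_iff.1 (Submodule.mem_inf.1 v.2).2
  · have h2 := Module.End.mem_eigenspace_iff.1 hv.1
    exact congrArg Subtype.val h2

/-- An endomorphism with a nonzero eigenvector which commutes with ... : roots of the minimal
polynomial. -/
theorem eigenvalue_of_aeval {W : Type} [AddCommGroup W] [Module ℂ W]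
    (F : Module.End ℂ U) (A : Module.End ℂ W) (h0 : aeval A (minpoly ℂ F) = 0) {w : W}
    (hw : w ≠ 0) {α : ℂ} (h : A w = α • w) : Module.End.HasEigenvalue F α := by
  have h4 : aeval A (minpoly ℂ F) w = (minpoly ℂ F).eval α • w :=
    Module.End.aeval_apply_of_hasEigenvector ⟨Module.End.mem_eigenspace_iff.2 h, hw⟩
  rw [h0, LinearMap.zero_apply] at h4
  rcases smul_eq_zero.1 h4.symm with h5 | h5
  · exact Module.End.hasEigenvalue_of_isRoot h5
  · exact absurd h5 hw

/-- Polynomials in `F ⊗ 1`. -/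
theorem aeval_rTensor (F : Module.End ℂ U) (P : ℂ[X]) :
    aeval (LinearMap.rTensor V F : Module.End ℂ (U ⊗[ℂ] V)) P =
      (LinearMap.rTensor V (aeval F P : Module.End ℂ U) : Module.End ℂ (U ⊗[ℂ] V)) :=
  Polynomial.aeval_algHom_apply (Module.End.rTensorAlgHom ℂ U V) F P

/-- Polynomials in `1 ⊗ G`. -/
theorem aeval_lTensor (G : Module.End ℂ V) (P : ℂ[X]) :
    aeval (LinearMap.lTensor U G : Module.End ℂ (U ⊗[ℂ] V)) P =
      (LinearMap.lTensor U (aeval G P : Module.End ℂ V) : Module.End ℂ (U ⊗[ℂ] V)) :=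
  Polynomial.aeval_algHom_apply (Module.End.lTensorAlgHom ℂ V U) G P

/-- An eigenvalue of `F ⊗ 1` is an eigenvalue of `F`. -/
theorem eigenvalue_left (F : Module.End ℂ U) {w : U ⊗[ℂ] V} (hw : w ≠ 0) {α : ℂ}
    (h : LinearMap.rTensor V F w = α • w) : Module.End.HasEigenvalue F α := by
  refine eigenvalue_of_aeval F (LinearMap.rTensor V F) ?_ hw h
  rw [aeval_rTensor, minpoly.aeval, LinearMap.rTensor_zero]

/-- An eigenvalue of `1 ⊗ G` is an eigenvalue of `G`. -/
theorem eigenvalue_right (G : Module.End ℂ V) {w : U ⊗[ℂ] V} (hw : w ≠ 0) {β : ℂ}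
    (h : LinearMap.lTensor U G w = β • w) : Module.End.HasEigenvalue G β := by
  refine eigenvalue_of_aeval G (LinearMap.lTensor U G) ?_ hw h
  rw [aeval_lTensor, minpoly.aeval, LinearMap.lTensor_zero]

/-- `F ⊗ G = (F ⊗ 1) (1 ⊗ G)`. -/
theorem map_eq_rl (F : Module.End ℂ U) (G : Module.End ℂ V) (w : U ⊗[ℂ] V) :
    TensorProduct.map F G w = LinearMap.rTensor V F (LinearMap.lTensor U G w) := by
  have h1 := LinearMap.rTensor_comp_lTensor (M := U) (P := U) (N := V) (Q := V) F G
  rw [← h1]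
  rfl

/-- `F ⊗ G = (1 ⊗ G) (F ⊗ 1)`. -/
theorem map_eq_lr (F : Module.End ℂ U) (G : Module.End ℂ V) (w : U ⊗[ℂ] V) :
    TensorProduct.map F G w = LinearMap.lTensor U G (LinearMap.rTensor V F w) := by
  have h1 := LinearMap.lTensor_comp_rTensor (M := U) (P := U) (N := V) (Q := V) F G
  rw [← h1]
  rfl

/-- A stable subspace of generalized eigenvectors of `F ⊗ G` for `c` contains a common eigenvector. -/
theorem eq_zero_of_stable (F : Module.End ℂ U) (G : Module.End ℂ V)
    (S : Submodule ℂ (U ⊗[ℂ] V)) (hA : ∀ w ∈ S, LinearMap.rTensor V F w ∈ S)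
    (hB : ∀ w ∈ S, LinearMap.lTensor U G w ∈ S)
    (h2 : ∀ w ∈ S, ∀ α β : ℂ, LinearMap.rTensor V F w = α • w → LinearMap.lTensor U G w = β • w →
      w ≠ 0 → Module.End.HasEigenvalue F α → Module.End.HasEigenvalue G β → False) : S = ⊥ := by
  by_contra hS
  obtain ⟨w, α, β, hw0, hwS, h3, h4⟩ := exists_common (LinearMap.rTensor V F)
    (LinearMap.lTensor U G) (fun w => by rw [← map_eq_rl, ← map_eq_lr]) S hS hA hB
  exact h2 w hwS α β h3 h4 hw0 (eigenvalue_left F hw0 h3) (eigenvalue_right G hw0 h4)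

/-- The endomorphism `F ⊗ G - c`. -/
noncomputable def dif (F : Module.End ℂ U) (G : Module.End ℂ V) (c : ℂ) :
    (U ⊗[ℂ] V) →ₗ[ℂ] (U ⊗[ℂ] V) := TensorProduct.map F G - c • LinearMap.id

theorem dif_apply (F : Module.End ℂ U) (G : Module.End ℂ V) (c : ℂ) (w : U ⊗[ℂ] V) :
    dif F G c w = TensorProduct.map F G w - c • w := rfl

theorem dif_r (F E : Module.End ℂ U) (hE : ∀ u, F (E u) = E (F u)) (G : Module.End ℂ V) (c : ℂ)
    (w : U ⊗[ℂ] V) :
    dif F G c (LinearMap.rTensor V E w) = LinearMap.rTensor V E (dif F G c w) := by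
  have h1 : (F : U →ₗ[ℂ] U) ∘ₗ E = E ∘ₗ F := LinearMap.ext hE
  rw [dif_apply, dif_apply, map_sub, map_smul]
  congr 1
  rw [map_eq_lr, map_eq_lr]
  have h3 : ∀ z : U ⊗[ℂ] V, LinearMap.rTensor V E (LinearMap.lTensor U G z) =
      LinearMap.lTensor U G (LinearMap.rTensor V E z) := fun z => by
    rw [← map_eq_rl, ← map_eq_lr]
  rw [h3]
  congr 1
  rw [← LinearMap.comp_apply, ← LinearMap.rTensor_comp, h1, LinearMap.rTensor_comp,
    LinearMap.comp_apply]

theorem dif_l (F : Module.End ℂ U) (G : Module.End ℂ V) (c : ℂ) (w : U ⊗[ℂ] V) :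
    dif F G c (LinearMap.lTensor U G w) = LinearMap.lTensor U G (dif F G c w) := by
  rw [dif_apply, dif_apply, map_sub, map_smul, map_eq_lr, map_eq_lr, ← map_eq_rl, ← map_eq_lr]

/-- If the product of eigenvalues of `F` and `G` is never `c`, then `c` is not an eigenvalue. -/
theorem gen_none (F : Module.End ℂ U) (G : Module.End ℂ V) (c : ℂ)
    (h : ∀ α β, Module.End.HasEigenvalue F α → Module.End.HasEigenvalue G β → α * β ≠ c)
    {w : U ⊗[ℂ] V} (hw : dif F G c (dif F G c w) = 0) : w = 0 := by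
  have h1 : LinearMap.ker (dif F G c ∘ₗ dif F G c) = ⊥ := by
    refine eq_zero_of_stable F G _ (fun w hw => ?_) (fun w hw => ?_) ?_
    · rw [LinearMap.mem_ker, LinearMap.comp_apply] at hw ⊢
      rw [dif_r F F (fun _ => rfl), dif_r F F (fun _ => rfl), hw, map_zero]
    · rw [LinearMap.mem_ker, LinearMap.comp_apply] at hw ⊢
      rw [dif_l, dif_l, hw, map_zero]
    · intro w hw α β h3 h4 hw0 hα hβ
      rw [LinearMap.mem_ker, LinearMap.comp_apply] at hw
      have h5 : dif F G c w = (α * β - c) • w := by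
        rw [dif_apply, map_eq_rl, h4, map_smul, h3, smul_smul, sub_smul, mul_comm]
      rw [h5, map_smul, h5, smul_smul] at hw
      rcases smul_eq_zero.1 hw with h6 | h6
      · exact h α β hα hβ (sub_eq_zero.1 (mul_self_eq_zero.1 h6))
      · exact hw0 h6
  have h2 : w ∈ LinearMap.ker (dif F G c ∘ₗ dif F G c) := hw
  rwa [h1, Submodule.mem_bot] at h2

/-- `F` is semisimple at `α`. -/
def SemisimpleAt {W : Type} [AddCommGroup W] [Module ℂ W] (F : Module.End ℂ W) (α : ℂ) : Prop :=
  ∀ u, F (F u - α • u) = α • (F u - α • u) → F u = α • u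

/-- The projector to the eigenspace, if `F` is semisimple at `α`. -/
theorem exists_projector (F : Module.End ℂ U) (α : ℂ) (hss : SemisimpleAt F α) :
    ∃ P : ℂ[X], P.eval α = 1 ∧ ∀ u, F (aeval F P u) = α • aeval F P u := by
  have hm := minpoly.aeval ℂ F
  have hm0 : minpoly ℂ F ≠ 0 := minpoly.ne_zero (Algebra.IsIntegral.isIntegral F)
  by_cases hr : (minpoly ℂ F).eval α = 0
  · obtain ⟨m, hmm⟩ := dvd_iff_isRoot.2 hr
    have hFm : ∀ u, F (aeval F m u) = α • aeval F m u := by
      intro u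
      have h1 : aeval F (minpoly ℂ F) u = 0 := by rw [hm, LinearMap.zero_apply]
      rw [hmm, map_mul, Module.End.mul_apply, map_sub, aeval_X, aeval_C,
        LinearMap.sub_apply, Module.algebraMap_end_apply] at h1
      exact sub_eq_zero.1 h1
    have hm1 : m.eval α ≠ 0 := by
      intro h0
      obtain ⟨m', hm'⟩ := dvd_iff_isRoot.2 h0
      have h2 : aeval F m = 0 := by
        ext u
        rw [LinearMap.zero_apply]
        have h3 : ∀ u, aeval F m u = F (aeval F m' u) - α • aeval F m' u := fun u => by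
          rw [hm', map_mul, Module.End.mul_apply, map_sub, aeval_X, aeval_C,
            LinearMap.sub_apply, Module.algebraMap_end_apply]
        rw [h3, sub_eq_zero]
        refine hss _ ?_
        have h4 := hFm u
        rwa [h3] at h4
      have hm'0 : m ≠ 0 := by
        rintro rfl
        rw [mul_zero] at hmm
        exact hm0 hmm
      have h5 : (minpoly ℂ F).natDegree ≤ m.natDegree :=
        Polynomial.natDegree_le_of_dvd (minpoly.dvd ℂ F h2) hm'0
      rw [hmm, natDegree_mul (X_sub_C_ne_zero α) hm'0, natDegree_X_sub_C] at h5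
      omega
    refine ⟨C (m.eval α)⁻¹ * m, by rw [eval_mul, eval_C, inv_mul_cancel₀ hm1], fun u => ?_⟩
    rw [map_mul, aeval_C, Module.End.mul_apply, Module.algebraMap_end_apply, map_smul, hFm,
      smul_comm]
  · refine ⟨C ((minpoly ℂ F).eval α)⁻¹ * minpoly ℂ F, by
      rw [eval_mul, eval_C, inv_mul_cancel₀ hr], fun u => ?_⟩
    rw [map_mul, hm, mul_zero, LinearMap.zero_apply, map_zero, smul_zero]

/-- Polynomials in `F` commute with `F`. -/
theorem aeval_comm (F : Module.End ℂ U) (P : ℂ[X]) (u : U) :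
    F (aeval F P u) = aeval F P (F u) := by
  have h1 : aeval F (X * P) = aeval F (P * X) := by rw [mul_comm]
  rw [map_mul, map_mul, aeval_X] at h1
  exact congrArg (fun f : Module.End ℂ U => f u) h1

/-- A polynomial on an eigenspace. -/
theorem aeval_eigen {W : Type} [AddCommGroup W] [Module ℂ W] (F : Module.End ℂ W) (P : ℂ[X])
    {w : W} {α : ℂ} (h : F w = α • w) : aeval F P w = P.eval α • w := by
  by_cases hw : w = 0
  · rw [hw, map_zero, smul_zero]
  · exact Module.End.aeval_apply_of_hasEigenvector ⟨Module.End.mem_eigenspace_iff.2 h, hw⟩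

/-- If all pairs of eigenvalues of `F` and `G` with the product `c` are `(α₀, c / α₀)`, and `P (F)` is
the projector to the eigenspace for `α₀`, then the elements annihilated by `(F ⊗ G - c) ^ 2` are fixed
by the projector. -/
theorem gen_fixed (F : Module.End ℂ U) (G : Module.End ℂ V) (c α₀ : ℂ)
    (h : ∀ α β, Module.End.HasEigenvalue F α → Module.End.HasEigenvalue G β → α * β = c → α = α₀)
    (P : ℂ[X]) (hP : P.eval α₀ = 1) (hFP : ∀ u, F (aeval F P u) = α₀ • aeval F P u)
    {w : U ⊗[ℂ] V} (hw : dif F G c (dif F G c w) = 0) :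
    LinearMap.rTensor V (aeval F P) w = w := by
  set E : Module.End ℂ U := aeval F P with hE
  have hEE : ∀ u, E (E u) = E u := fun u => by
    have h1 := aeval_eigen F P (hFP u)
    rwa [hP, one_smul] at h1
  have hFE : ∀ u, F (E u) = E (F u) := fun u => aeval_comm F P u
  let e : (U ⊗[ℂ] V) →ₗ[ℂ] (U ⊗[ℂ] V) := LinearMap.rTensor V E
  have hee : ∀ w, e (e w) = e w := by
    intro w
    have h1 : (E : U →ₗ[ℂ] U) ∘ₗ E = E := LinearMap.ext hEE
    change LinearMap.rTensor V E (LinearMap.rTensor V E w) = LinearMap.rTensor V E w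
    rw [← LinearMap.comp_apply, ← LinearMap.rTensor_comp, h1]
  have heA : ∀ w, e (LinearMap.rTensor V F w) = LinearMap.rTensor V F (e w) := by
    intro w
    have h1 : (F : U →ₗ[ℂ] U) ∘ₗ E = E ∘ₗ F := LinearMap.ext hFE
    change LinearMap.rTensor V E (LinearMap.rTensor V F w) =
      LinearMap.rTensor V F (LinearMap.rTensor V E w)
    rw [← LinearMap.comp_apply, ← LinearMap.rTensor_comp, ← LinearMap.comp_apply,
      ← LinearMap.rTensor_comp, h1]
  have heB : ∀ w, e (LinearMap.lTensor U G w) = LinearMap.lTensor U G (e w) := by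
    intro w
    change LinearMap.rTensor V E _ = LinearMap.lTensor U G (LinearMap.rTensor V E w)
    rw [← map_eq_rl, ← map_eq_lr]
  have h1 : LinearMap.ker (dif F G c ∘ₗ dif F G c) ⊓ LinearMap.ker e = ⊥ := by
    refine eq_zero_of_stable F G _ (fun w hw => ?_) (fun w hw => ?_) ?_
    · obtain ⟨hw1, hw2⟩ := Submodule.mem_inf.1 hw
      rw [LinearMap.mem_ker] at hw1 hw2
      rw [LinearMap.comp_apply] at hw1
      refine Submodule.mem_inf.2 ⟨?_, ?_⟩
      · rw [LinearMap.mem_ker, LinearMap.comp_apply, dif_r F F (fun _ => rfl),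
          dif_r F F (fun _ => rfl), hw1, map_zero]
      · rw [LinearMap.mem_ker, heA, hw2, map_zero]
    · obtain ⟨hw1, hw2⟩ := Submodule.mem_inf.1 hw
      rw [LinearMap.mem_ker] at hw1 hw2
      rw [LinearMap.comp_apply] at hw1
      refine Submodule.mem_inf.2 ⟨?_, ?_⟩
      · rw [LinearMap.mem_ker, LinearMap.comp_apply, dif_l, dif_l, hw1, map_zero]
      · rw [LinearMap.mem_ker, heB, hw2, map_zero]
    · intro w hw α β h3 h4 hw0 hα hβ
      obtain ⟨hw1, hw2⟩ := Submodule.mem_inf.1 hw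
      rw [LinearMap.mem_ker] at hw1 hw2
      rw [LinearMap.comp_apply] at hw1
      have h5 : dif F G c w = (α * β - c) • w := by
        rw [dif_apply, map_eq_rl, h4, map_smul, h3, smul_smul, sub_smul, mul_comm]
      rw [h5, map_smul, h5, smul_smul] at hw1
      rcases smul_eq_zero.1 hw1 with h6 | h6
      · have h7 := h α β hα hβ (sub_eq_zero.1 (mul_self_eq_zero.1 h6))
        have h8 : e w = w := by
          have h9 := aeval_eigen (LinearMap.rTensor V F : Module.End ℂ (U ⊗[ℂ] V)) P h3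
          rw [aeval_rTensor, h7, hP, one_smul] at h9
          exact h9
        rw [h8] at hw2
        exact hw0 hw2
      · exact hw0 h6
  have h2 : w - e w ∈ LinearMap.ker (dif F G c ∘ₗ dif F G c) ⊓ LinearMap.ker e := by
    refine Submodule.mem_inf.2 ⟨?_, ?_⟩
    · rw [LinearMap.mem_ker, LinearMap.comp_apply, map_sub, map_sub, hw]
      change 0 - dif F G c (dif F G c (LinearMap.rTensor V E w)) = 0
      rw [dif_r F E hFE, dif_r F E hFE, hw, map_zero, sub_zero]
    · rw [LinearMap.mem_ker, map_sub, hee, sub_self]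
  rw [h1, Submodule.mem_bot, sub_eq_zero] at h2
  exact h2.symm

/-- Elements of `U ⊗ V` in the image of `P (F) ⊗ 1` as sums of products with a basis of eigenvectors. -/
theorem exists_basis_sum (F : Module.End ℂ U) (α₀ : ℂ)
    (P : ℂ[X]) (hFP : ∀ u, F (aeval F P u) = α₀ • aeval F P u)
    {w : U ⊗[ℂ] V} (hw : LinearMap.rTensor V (aeval F P) w = w) :
    ∃ (n : ℕ) (x : Fin n → U) (y : Fin n → V), LinearIndependent ℂ x ∧ (∀ i, F (x i) = α₀ • x i) ∧
      w = ∑ i, x i ⊗ₜ[ℂ] y i := by
  let U₀ : Submodule ℂ U := Module.End.eigenspace F α₀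
  let E : U →ₗ[ℂ] U₀ := (aeval F P : Module.End ℂ U).codRestrict U₀
    fun u => Module.End.mem_eigenspace_iff.2 (hFP u)
  let b := Module.finBasis ℂ U₀
  let w' : U₀ ⊗[ℂ] V := LinearMap.rTensor V E w
  obtain ⟨f, hf⟩ := TensorProduct.eq_repr_basis_left b w'
  refine ⟨_, fun i => (b i : U), fun i => f i, ?_, fun i =>
    Module.End.mem_eigenspace_iff.1 (b i).2, ?_⟩
  · exact b.linearIndependent.map' U₀.subtype (Submodule.ker_subtype U₀)
  · have h1 : LinearMap.rTensor V U₀.subtype w' = w := by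
      rw [← hw]
      change LinearMap.rTensor V U₀.subtype (LinearMap.rTensor V E w) = _
      rw [← LinearMap.comp_apply, ← LinearMap.rTensor_comp]
      rfl
    rw [← h1, ← hf, map_finsuppSum]
    rw [Finsupp.sum_fintype _ _ (by intro i; simp)]
    rfl

/-- Comparison of coefficients. -/
theorem coeff_eq {n : ℕ} {x : Fin n → U} (hx : LinearIndependent ℂ x) {y z : Fin n → V}
    (h : ∑ i, x i ⊗ₜ[ℂ] y i = ∑ i, x i ⊗ₜ[ℂ] z i) : y = z := by
  funext i
  obtain ⟨φ, hφ⟩ := (LinearMap.exists_leftInverse_of_injective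
    (Fintype.linearCombination ℂ x) (by
      rw [LinearMap.ker_eq_bot]
      exact linearIndependent_iff_injective_fintypeLinearCombination.1 hx))
  have h1 : ∀ j, φ (x j) = Pi.single j 1 := by
    intro j
    have h2 := congrArg (fun f : (Fin n → ℂ) →ₗ[ℂ] (Fin n → ℂ) => f (Pi.single j 1)) hφ
    simpa using h2
  have h3 := congrArg (fun t => TensorProduct.lid ℂ V
    (LinearMap.rTensor V (LinearMap.proj i ∘ₗ φ) t)) h
  simpa [h1, Pi.single_apply] using h3

end Pool.Agent.H855.DP
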