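import Mathlib
import Pool.Agent.H855.DP.Lin

/-!
# Invariants in tensor products
-/

set_option autoImplicit false

namespace Pool.Agent.H855.DP

open Module TensorProduct Polynomial

variable {U V : Type} [AddCommGroup U] [Module ℂ U] [Module.Finite ℂ U]
  [AddCommGroup V] [Module ℂ V] [Module.Finite ℂ V]

/-- The products of eigenvectors. -/
def products (F : Module.End ℂ U) (G : Module.End ℂ V) (α β : ℂ) : Set (U ⊗[ℂ] V) :=
  {t | ∃ x y, F x = α • x ∧ G y = β • y ∧ t = x ⊗ₜ[ℂ] y}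

/-- All pairs of eigenvalues of `F` and `G` with the product `c` are `(α, β)`. -/
def OnlyPair (F : Module.End ℂ U) (G : Module.End ℂ V) (c α β : ℂ) : Prop :=
  ∀ α' β', Module.End.HasEigenvalue F α' → Module.End.HasEigenvalue G β' → α' * β' = c →
    α' = α ∧ β' = β

/-- Eigenvectors of `F ⊗ G`, if `F` is semisimple. -/
theorem mem_span_left (F : Module.End ℂ U) (G : Module.End ℂ V) {c α β : ℂ} (hα : α ≠ 0)
    (hc : α * β = c) (h : OnlyPair F G c α β) (hss : SemisimpleAt F α) {w : U ⊗[ℂ] V}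
    (hw : TensorProduct.map F G w = c • w) : w ∈ Submodule.span ℂ (products F G α β) := by
  obtain ⟨P, hP, hFP⟩ := exists_projector F α hss
  have h1 : dif F G c (dif F G c w) = 0 := by
    rw [dif_apply F G c w, hw, sub_self, map_zero]
  have h2 := gen_fixed F G c α (fun α' β' h3 h4 h5 => (h α' β' h3 h4 h5).1) P hP hFP h1
  obtain ⟨n, x, y, hx, hxF, hxy⟩ := exists_basis_sum F α P hFP h2
  have h3 : ∑ i, x i ⊗ₜ[ℂ] (G (y i)) = ∑ i, x i ⊗ₜ[ℂ] (β • y i) := by
    have h4 : TensorProduct.map F G w = α • ∑ i, x i ⊗ₜ[ℂ] (G (y i)) := by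
      rw [hxy, map_sum, Finset.smul_sum]
      refine Finset.sum_congr rfl fun i _ => ?_
      rw [TensorProduct.map_tmul, hxF, TensorProduct.smul_tmul']
    have h5 : c • w = α • ∑ i, x i ⊗ₜ[ℂ] (β • y i) := by
      rw [hxy, Finset.smul_sum, Finset.smul_sum]
      refine Finset.sum_congr rfl fun i _ => ?_
      rw [TensorProduct.tmul_smul, smul_smul, hc]
    rw [h4, h5] at hw
    exact smul_right_injective _ hα hw
  have h6 := coeff_eq hx h3
  rw [hxy]
  refine Submodule.sum_mem _ fun i _ => Submodule.subset_span ⟨x i, y i, hxF i, ?_, rfl⟩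
  exact congrFun h6 i

/-- Eigenvectors of `F ⊗ G`, if `G` is semisimple. -/
theorem mem_span_right (F : Module.End ℂ U) (G : Module.End ℂ V) {c α β : ℂ} (hβ : β ≠ 0)
    (hc : α * β = c) (h : OnlyPair F G c α β) (hss : SemisimpleAt G β) {w : U ⊗[ℂ] V}
    (hw : TensorProduct.map F G w = c • w) : w ∈ Submodule.span ℂ (products F G α β) := by
  have hcomm : ∀ t : U ⊗[ℂ] V, TensorProduct.map G F (TensorProduct.comm ℂ U V t) =
      TensorProduct.comm ℂ U V (TensorProduct.map F G t) := by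
    intro t
    induction t with
    | zero => simp
    | tmul x y => simp
    | add a b ha hb => rw [map_add, map_add, map_add, map_add, ha, hb]
  have h1 : TensorProduct.map G F (TensorProduct.comm ℂ U V w) =
      c • TensorProduct.comm ℂ U V w := by
    rw [hcomm, hw, map_smul]
  have h2 := mem_span_left G F hβ (by rw [mul_comm, hc])
    (fun α' β' h3 h4 h5 => by
      obtain ⟨h6, h7⟩ := h β' α' h4 h3 (by rw [mul_comm, h5])
      exact ⟨h7, h6⟩) hss h1
  have h3 : w = (TensorProduct.comm ℂ U V).symm (TensorProduct.comm ℂ U V w) :=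
    ((TensorProduct.comm ℂ U V).symm_apply_apply w).symm
  rw [h3]
  have h4 : (Submodule.span ℂ (products G F β α)).map
      ((TensorProduct.comm ℂ U V).symm : V ⊗[ℂ] U →ₗ[ℂ] U ⊗[ℂ] V) ≤
        Submodule.span ℂ (products F G α β) := by
    rw [Submodule.map_span_le]
    rintro _ ⟨y, x, hy, hx, rfl⟩
    exact Submodule.subset_span ⟨x, y, hx, hy, rfl⟩
  exact h4 ⟨_, h2, rfl⟩

/-- Semisimplicity of `F ⊗ G`. -/
theorem semisimple_tensor (F : Module.End ℂ U) (G : Module.End ℂ V) {c α β : ℂ} (hα : α ≠ 0)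
    (hc : α * β = c) (h : OnlyPair F G c α β) (hss : SemisimpleAt F α) (hss' : SemisimpleAt G β)
    {w : U ⊗[ℂ] V} (hw : dif F G c (dif F G c w) = 0) : dif F G c w = 0 := by
  obtain ⟨P, hP, hFP⟩ := exists_projector F α hss
  have h2 := gen_fixed F G c α (fun α' β' h3 h4 h5 => (h α' β' h3 h4 h5).1) P hP hFP hw
  obtain ⟨n, x, y, hx, hxF, hxy⟩ := exists_basis_sum F α P hFP h2
  have h3 : ∀ z : Fin n → V, dif F G c (∑ i, x i ⊗ₜ[ℂ] z i) =
      ∑ i, x i ⊗ₜ[ℂ] (α • (G (z i) - β • z i)) := by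
    intro z
    rw [map_sum]
    refine Finset.sum_congr rfl fun i _ => ?_
    rw [dif_apply, TensorProduct.map_tmul, hxF, ← TensorProduct.smul_tmul', smul_sub, smul_smul, hc,
      TensorProduct.tmul_sub, TensorProduct.tmul_smul, TensorProduct.tmul_smul]
  rw [hxy, h3, h3] at hw
  rw [hxy, h3]
  have h4 : ∑ i, x i ⊗ₜ[ℂ] (α • (G (α • (G (y i) - β • y i)) - β • (α • (G (y i) - β • y i)))) =
      ∑ i, x i ⊗ₜ[ℂ] (0 : V) := by
    rw [hw]
    simp
  have h5 := coeff_eq hx h4
  refine Finset.sum_eq_zero fun i _ => ?_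
  have h6 := congrFun h5 i
  have h7 : G (G (y i) - β • y i) = β • (G (y i) - β • y i) := by
    have h8 := (smul_eq_zero.1 h6).resolve_left hα
    rw [map_smul, smul_comm β α, ← smul_sub] at h8
    exact sub_eq_zero.1 ((smul_eq_zero.1 h8).resolve_left hα)
  have h9 := hss' _ h7
  rw [h9, sub_self, smul_zero, TensorProduct.tmul_zero]

end Pool.Agent.H855.DP
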