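import Mathlib
import Pool.Agent.H855.DP.ArithDefs

/-!
# Smooth varieties, proper or not: definitions
-/

set_option autoImplicit false

namespace Pool.Agent.H855.DP

open NumberField Module Pool.Agent.V1168.EV Pool.Agent.H855.CM

/-- The formal properties of the cohomology of a smooth geometrically connected variety, proper or not,
over the field with `Q` elements, and the theorem of Deligne: the weights of `H^a(X)` are at least
`a`. -/
structure IsSmooth (X : VarietyData) (Q : ℕ) : Prop where
  finite : ∀ a, Module.Finite ℂ (X.H a)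
  weights : ∀ a α, IsEigenvalue X a α → (Q : ℝ) ^ a ≤ ‖α‖ ^ 2
  cyc_le : ∀ i, X.cyc i ≤ invariants X Q i
  one_mem : X.one ∈ X.cyc 0
  res_one : X.res X.one = 1

/-- The number `α` is an eigenvalue of weight `a` of Frobenius on `H^a(X)`. -/
def IsPure (X : VarietyData) (Q a : ℕ) (α : ℂ) : Prop := IsEigenvalue X a α ∧ ‖α‖ ^ 2 = (Q : ℝ) ^ a

/-- All supersingular eigenvalues of weight `a` on `H^a(X)`, for all `a`, are powers of `Q`. -/
def TightPure {p : ℕ} [Fact p.Prime] (ν : PadicAlgCl p ≃+* ℂ) (X : VarietyData) (Q : ℕ) : Prop :=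
  ∀ a α, IsPure X Q a α → IsSupersingular ν α → ∃ k : ℕ, α = (Q : ℂ) ^ k

/-- Up to powers, the eigenvalues of weight `a` on `H^a(X)`, for all `a`, are products of powers of
conjugates of the numbers `π j` and of `p`. -/
def PureGenerated (X : VarietyData) (Q p : ℕ) {J : Type} [Fintype J] {L : J → Type}
    [∀ j, Field (L j)] [∀ j, NumberField (L j)] (π : ∀ j, L j) : Prop :=
  ∀ a α, IsPure X Q a α → ∃ (N : ℕ) (m : (Σ j, (L j →+* ℂ)) → ℤ) (k : ℤ), 0 < N ∧
    α ^ N = (∏ y, (y.2 (π y.1)) ^ m y) * (p : ℂ) ^ k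

/-- The eigenvalues of weight `b` on `H^b(Y)`, for all `b`, come from `Ω`. -/
def PureFrom (Y : VarietyData) (Q p : ℕ) (Ω : Finset ℂ) : Prop :=
  ∀ b β, IsPure Y Q b β → From p Ω β

/-- For all finite families of Weil numbers `π j` for `p ^ a` (any `a > 0`), each in one of the
fields `K i`, such that no vector in `E` is a combination of the slope vectors of the `π j`, for all
finite fields with `Q = p ^ r` elements and all smooth varieties `X` and `Y` over this field, where the
eigenvalues of weight `a` on `H^a(X)` are generated by the `π j`, those of weight `b` on `H^b(Y)` come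
from `Ω`, and one of `X` and `Y` is tight: `X` and `Y` are decoupled. -/
def SmoothDecoupled {p : ℕ} [Fact p.Prime] (ν : PadicAlgCl p ≃+* ℂ) {I : Type}
    (K : I → Type) [∀ i, Field (K i)] [∀ i, NumberField (K i)] [∀ i, IsCMField (K i)]
    (Ω : Finset ℂ) (E : Finset (Σ i, ((K i →+* ℂ) → ℝ))) : Prop :=
  ∀ (J : Type) [Fintype J] (b : J → I) (a : ℕ) (π : ∀ j, K (b j)), 0 < a →
    (∀ j, π j * IsCMField.complexConj (K (b j)) (π j) = (p : K (b j)) ^ a) →
    (∀ e ∈ E, ¬ IsCombination ν a π e.2) →
    ∀ (r : ℕ) (X Y : VarietyData) (Z : ProductData X Y), 0 < r → IsSmooth X (p ^ r) →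
      IsSmooth Y (p ^ r) → IsProduct (p ^ r) Z → PureGenerated X (p ^ r) p π →
      PureFrom Y (p ^ r) p Ω → (TightPure ν X (p ^ r) ∨ TightPure ν Y (p ^ r)) →
      ∀ m, Decoupled (p ^ r) Z m

end Pool.Agent.H855.DP
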