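import Mathlib
import Pool.Agent.H855.DP.SmoothDefs
import Pool.Agent.H855.DP.Lin2

/-!
# Products of two varieties over a finite field without common Frobenius eigenvalues
-/

set_option autoImplicit false
set_option linter.unusedSectionVars false

namespace Pool.Agent.H855.DP

open Module TensorProduct

variable {X Y : VarietyData} {Q : ℕ}

section incl

theorem dev_apply (i : ℕ) (x : X.H (2 * i)) :
    dev X Q i x = X.frob (2 * i) x - (Q : ℂ) ^ i • x := rfl

theorem mem_invariants {i : ℕ} {x : X.H (2 * i)} :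
    x ∈ invariants X Q i ↔ X.frob (2 * i) x = (Q : ℂ) ^ i • x := by
  rw [invariants, LinearMap.mem_ker, dev_apply, sub_eq_zero]

theorem semisimpleAt {i : ℕ} (h : Semisimple X Q i) :
    SemisimpleAt (X.frob (2 * i) : Module.End ℂ (X.H (2 * i))) ((Q : ℂ) ^ i) := by
  intro x hx
  refine sub_eq_zero.1 (h x ?_)
  rw [dev_apply, dev_apply, sub_eq_zero]
  exact hx

variable (X Y) in
/-- The inclusion of `H^a(X) ⊗ H^b(Y)`. -/
noncomputable def incl (a b : ℕ) : Tens X Y a b →ₗ[ℂ] PairH X Y :=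
  LinearMap.single ℂ (fun a => ∀ b, Tens X Y a b) a ∘ₗ
    LinearMap.single ℂ (fun b => Tens X Y a b) b

theorem incl_apply (a b : ℕ) (t : Tens X Y a b) (a' : ℕ) :
    incl X Y a b t a' =
      (Pi.single a (Pi.single b t : ∀ b, Tens X Y a b) : ∀ a b, Tens X Y a b) a' := rfl

theorem incl_same (a b : ℕ) (t : Tens X Y a b) : incl X Y a b t a b = t := by
  rw [incl_apply, Pi.single_eq_same, Pi.single_eq_same]

theorem incl_ne {a b a' b' : ℕ} (h : ¬ (a' = a ∧ b' = b)) (t : Tens X Y a b) :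
    incl X Y a b t a' b' = 0 := by
  rw [incl_apply]
  by_cases h1 : a' = a
  · subst h1
    have h2 : b' ≠ b := fun h2 => h ⟨rfl, h2⟩
    rw [Pi.single_eq_same, Pi.single_eq_of_ne h2]
  · rw [Pi.single_eq_of_ne h1]
    rfl

/-- The element `x ⊗ y` of `H^a(X) ⊗ H^b(Y)`. -/
noncomputable def tm {a b : ℕ} (x : X.H a) (y : Y.H b) : Tens X Y a b := x ⊗ₜ[ℂ] y

theorem cross_eq {a b : ℕ} (x : X.H a) (y : Y.H b) :
    cross x y = incl X Y a b (tm x y) := rfl

theorem incl_degree {a b m : ℕ} (h : a + b = m) (t : Tens X Y a b) :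
    HasDegree X Y m (incl X Y a b t) := by
  intro a' b' h1
  refine incl_ne ?_ t
  rintro ⟨rfl, rfl⟩
  exact h1 h

theorem sum_apply {ι : Type} (s : Finset ι) (f : ι → PairH X Y) (a b : ℕ) :
    (∑ i ∈ s, f i) a b = ∑ i ∈ s, f i a b := by
  have h1 : (∑ i ∈ s, f i) a = ∑ i ∈ s, f i a :=
    Finset.sum_apply (M := fun a => ∀ b, Tens X Y a b) a s f
  rw [h1]
  exact Finset.sum_apply b s fun i => f i a

theorem eq_sum_incl {m : ℕ} {w : PairH X Y} (hw : HasDegree X Y m w) :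
    w = ∑ ab ∈ Finset.HasAntidiagonal.antidiagonal m, incl X Y ab.1 ab.2 (w ab.1 ab.2) := by
  funext a b
  rw [sum_apply]
  by_cases h : a + b = m
  · rw [Finset.sum_eq_single (a, b)]
    · exact (incl_same a b _).symm
    · rintro ⟨a', b'⟩ _ hne
      refine incl_ne ?_ _
      rintro ⟨rfl, rfl⟩
      exact hne rfl
    · intro hn
      exact absurd (Finset.HasAntidiagonal.mem_antidiagonal.2 h) hn
  · rw [hw a b h]
    refine (Finset.sum_eq_zero ?_).symm
    rintro ⟨a', b'⟩ hm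
    refine incl_ne ?_ _
    rintro ⟨rfl, rfl⟩
    exact h (Finset.HasAntidiagonal.mem_antidiagonal.1 hm)

/-- `F - Q ^ n` on `H^a(X) ⊗ H^b(Y)`. -/
noncomputable def difT (Q n a b : ℕ) : Tens X Y a b →ₗ[ℂ] Tens X Y a b :=
  frobT X Y a b - (Q : ℂ) ^ n • LinearMap.id

theorem difT_eq (n a b : ℕ) (t : Tens X Y a b) :
    difT Q n a b t = dif (X.frob a) (Y.frob b) ((Q : ℂ) ^ n) t := rfl

theorem devP_apply (n a b : ℕ) (w : PairH X Y) : devP X Y Q n w a b = difT Q n a b (w a b) := rfl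

theorem devP_incl (n a b : ℕ) (t : Tens X Y a b) :
    devP X Y Q n (incl X Y a b t) = incl X Y a b (difT Q n a b t) := by
  funext a' b'
  rw [devP_apply]
  by_cases h : a' = a ∧ b' = b
  · obtain ⟨rfl, rfl⟩ := h
    rw [incl_same, incl_same]
  · rw [incl_ne h, incl_ne h]
    exact map_zero _

theorem incl_inj {a b : ℕ} {s t : Tens X Y a b} (h : incl X Y a b s = incl X Y a b t) :
    s = t := by
  have h1 := congrFun (congrFun h a) b
  rwa [incl_same, incl_same] at h1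

end incl

section

variable (hQ : 1 < Q) (hX : IsSmooth X Q) (hY : IsSmooth Y Q)
  (hno : ∀ (a b : ℕ) (α β : ℂ) (n : ℕ), a + b = 2 * n → IsEigenvalue X a α →
    IsEigenvalue Y b β → α * β = (Q : ℂ) ^ n → ∃ k : ℕ, α = (Q : ℂ) ^ k)

include hQ in
/-- The weight of a power of `Q`. -/
theorem weight_eq {k a : ℕ} (h : ‖((Q : ℂ) ^ k)‖ ^ 2 = (Q : ℝ) ^ a) : a = 2 * k := by
  rw [norm_pow, Complex.norm_natCast, ← pow_mul] at h
  have hQ' : (1 : ℝ) < Q := by exact_mod_cast hQ
  have h1 := (pow_right_injective₀ (by linarith) hQ'.ne') h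
  omega

include hQ hX hY in
/-- The weights of a pair of eigenvalues with the product `Q ^ n`. -/
theorem pure_of_mul {a b n : ℕ} (hab : a + b = 2 * n) {α β : ℂ} (hα : IsEigenvalue X a α)
    (hβ : IsEigenvalue Y b β) (h : α * β = (Q : ℂ) ^ n) : IsPure X Q a α ∧ IsPure Y Q b β := by
  have hQ' : (0 : ℝ) < Q := by
    have : 0 < Q := by omega
    exact_mod_cast this
  have h1 := hX.weights a α hα
  have h2 := hY.weights b β hβ
  have h3 : ‖α‖ ^ 2 * ‖β‖ ^ 2 = (Q : ℝ) ^ a * (Q : ℝ) ^ b := by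
    rw [← mul_pow, ← norm_mul, h, norm_pow, Complex.norm_natCast, ← pow_mul, ← pow_add, hab,
      mul_comm n 2]
  have ha : (0 : ℝ) < (Q : ℝ) ^ a := pow_pos hQ' a
  have hb : (0 : ℝ) < (Q : ℝ) ^ b := pow_pos hQ' b
  refine ⟨⟨hα, le_antisymm ?_ h1⟩, ⟨hβ, le_antisymm ?_ h2⟩⟩
  · by_contra hlt
    push Not at hlt
    have := mul_lt_mul hlt h2 hb (sq_nonneg _)
    linarith
  · by_contra hlt
    push Not at hlt
    have := mul_lt_mul' h1 hlt hb.le (ha.trans_le h1)
    linarith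

include hQ hX hY hno in
/-- The eigenvalues of `X` and `Y` with a product `Q ^ n`. -/
theorem cases_pair {a b n : ℕ} (hab : a + b = 2 * n) :
    (∀ α β, Module.End.HasEigenvalue (X.frob a) α → Module.End.HasEigenvalue (Y.frob b) β →
      α * β ≠ (Q : ℂ) ^ n) ∨
    ∃ i j : ℕ, a = 2 * i ∧ b = 2 * j ∧ i + j = n ∧
      OnlyPair (X.frob a) (Y.frob b) ((Q : ℂ) ^ n) ((Q : ℂ) ^ i) ((Q : ℂ) ^ j) := by
  have hQ0 : (Q : ℂ) ≠ 0 := by
    have : Q ≠ 0 := by omega
    exact_mod_cast this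
  by_cases h : ∃ i, a = 2 * i
  · obtain ⟨i, rfl⟩ := h
    refine Or.inr ⟨i, n - i, rfl, by omega, by omega, fun α β hα hβ hαβ => ?_⟩
    have hp := (pure_of_mul hQ hX hY hab hα hβ hαβ).1
    obtain ⟨k, rfl⟩ := hno _ _ α β n hab hα hβ hαβ
    have h1 := weight_eq hQ hp.2
    have h2 : k = i := by omega
    subst h2
    refine ⟨rfl, ?_⟩
    have h3 : (Q : ℂ) ^ n = (Q : ℂ) ^ k * (Q : ℂ) ^ (n - k) := by
      rw [← pow_add]
      congr 1
      omega
    rw [h3] at hαβ
    exact mul_left_cancel₀ (pow_ne_zero k hQ0) hαβ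
  · refine Or.inl fun α β hα hβ hαβ => h ?_
    have hp := (pure_of_mul hQ hX hY hab hα hβ hαβ).1
    obtain ⟨k, rfl⟩ := hno _ _ α β n hab hα hβ hαβ
    exact ⟨k, weight_eq hQ hp.2⟩

include hQ hX hY hno in
/-- The Künneth formula for Tate classes. -/
theorem tateKunneth {m : ℕ}
    (hss : (∀ n ≤ m, Semisimple X Q n) ∨ ∀ n ≤ m, Semisimple Y Q n) :
    ∀ n ≤ m, TateKunneth X Y Q n := by
  have hfX := hX.finite
  have hfY := hY.finite
  have hQ0 : (Q : ℂ) ≠ 0 := by
    have : Q ≠ 0 := by omega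
    exact_mod_cast this
  rintro n hn w ⟨hw, hF⟩
  rw [eq_sum_incl hw]
  refine Submodule.sum_mem _ ?_
  rintro ⟨a, b⟩ hab
  have hab' : a + b = 2 * n := Finset.HasAntidiagonal.mem_antidiagonal.1 hab
  have hFw : dif (X.frob a) (Y.frob b) ((Q : ℂ) ^ n) (w a b) = 0 :=
    congrFun (congrFun hF a) b
  have hFw' : TensorProduct.map (X.frob a) (Y.frob b) (w a b) = (Q : ℂ) ^ n • w a b :=
    sub_eq_zero.1 hFw
  change incl X Y a b (w a b) ∈ _
  rcases cases_pair hQ hX hY hno hab' with h | ⟨i, j, rfl, rfl, hij, h⟩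
  · have h1 : w a b = 0 := by
      refine gen_none (X.frob a) (Y.frob b) ((Q : ℂ) ^ n) h ?_
      rw [hFw]
      exact map_zero _
    rw [h1, map_zero]
    exact Submodule.zero_mem _
  · have hc : (Q : ℂ) ^ i * (Q : ℂ) ^ j = (Q : ℂ) ^ n := by rw [← pow_add, hij]
    have h1 : w (2 * i) (2 * j) ∈ Submodule.span ℂ
        (products (X.frob (2 * i)) (Y.frob (2 * j)) ((Q : ℂ) ^ i) ((Q : ℂ) ^ j)) := by
      rcases hss with hss | hss
      · exact mem_span_left _ _ (pow_ne_zero i hQ0) hc h (semisimpleAt (hss i (by omega))) hFw'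
      · exact mem_span_right _ _ (pow_ne_zero j hQ0) hc h (semisimpleAt (hss j (by omega))) hFw'
    let S : Submodule ℂ (Tens X Y (2 * i) (2 * j)) :=
      (Submodule.span ℂ (crossClasses X Y Q n)).comap (incl X Y (2 * i) (2 * j))
    have h2 : Submodule.span ℂ (products (X.frob (2 * i)) (Y.frob (2 * j)) ((Q : ℂ) ^ i)
        ((Q : ℂ) ^ j)) ≤ (show Submodule ℂ (X.H (2 * i) ⊗[ℂ] Y.H (2 * j)) from S) := by
      refine Submodule.span_le.2 ?_
      rintro _ ⟨x, y, hx, hy, rfl⟩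
      have h3 : cross x y ∈ Submodule.span ℂ (crossClasses X Y Q n) :=
        Submodule.subset_span ⟨i, j, hij, x, mem_invariants.2 hx, y, mem_invariants.2 hy, rfl⟩
      exact h3
    exact h2 h1

include hX in
theorem frob_one : X.frob 0 X.one = X.one := by
  have h : X.one ∈ invariants X Q 0 := hX.cyc_le 0 hX.one_mem
  have h2 := mem_invariants.1 h
  rw [pow_zero, one_smul] at h2
  exact h2

include hQ hX hY hno in
/-- Semisimplicity. -/
theorem semisimpleP_of {m : ℕ} (h : ∀ n ≤ m, Semisimple X Q n ∧ Semisimple Y Q n) :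
    ∀ n ≤ m, SemisimpleP X Y Q n := by
  have hfX := hX.finite
  have hfY := hY.finite
  have hQ0 : (Q : ℂ) ≠ 0 := by
    have : Q ≠ 0 := by omega
    exact_mod_cast this
  intro n hn w hw hF
  funext a b
  rw [devP_apply]
  change _ = 0
  by_cases hab : a + b = 2 * n
  · have hF' : dif (X.frob a) (Y.frob b) ((Q : ℂ) ^ n)
        (dif (X.frob a) (Y.frob b) ((Q : ℂ) ^ n) (w a b)) = 0 :=
      congrFun (congrFun hF a) b
    rcases cases_pair hQ hX hY hno hab with h1 | ⟨i, j, rfl, rfl, hij, h1⟩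
    · rw [gen_none _ _ _ h1 hF']
      exact map_zero _
    · have hc : (Q : ℂ) ^ i * (Q : ℂ) ^ j = (Q : ℂ) ^ n := by rw [← pow_add, hij]
      exact semisimple_tensor _ _ (pow_ne_zero i hQ0) hc h1 (semisimpleAt (h i (by omega)).1)
        (semisimpleAt (h j (by omega)).2) hF'
  · rw [hw a b hab]
    exact map_zero _

theorem resRight_zero (a : ℕ) : resRight a (0 : PairH X Y) = 0 := by
  change TensorProduct.rid ℂ (X.H a) (LinearMap.lTensor (X.H a) Y.res 0) = _
  rw [map_zero, map_zero]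

theorem resLeft_zero (b : ℕ) : resLeft b (0 : PairH X Y) = 0 := by
  change TensorProduct.lid ℂ (Y.H b) (LinearMap.rTensor (Y.H b) X.res 0) = _
  rw [map_zero, map_zero]

theorem resRight_incl (a : ℕ) (x : X.H a) (y : Y.H 0) :
    resRight a (incl X Y a 0 (tm x y)) = Y.res y • x := by
  have h : TensorProduct.rid ℂ (X.H a) (LinearMap.lTensor (X.H a) Y.res (x ⊗ₜ[ℂ] y)) =
      Y.res y • x := by simp
  exact (congrArg (fun t : X.H a ⊗[ℂ] Y.H 0 => TensorProduct.rid ℂ (X.H a)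
    (LinearMap.lTensor (X.H a) Y.res t)) (incl_same a 0 (tm x y))).trans h

theorem resLeft_incl (b : ℕ) (x : X.H 0) (y : Y.H b) :
    resLeft b (incl X Y 0 b (tm x y)) = X.res x • y := by
  have h : TensorProduct.lid ℂ (Y.H b) (LinearMap.rTensor (Y.H b) X.res (x ⊗ₜ[ℂ] y)) =
      X.res x • y := by simp
  exact (congrArg (fun t : X.H 0 ⊗[ℂ] Y.H b => TensorProduct.lid ℂ (Y.H b)
    (LinearMap.rTensor (Y.H b) X.res t)) (incl_same 0 b (tm x y))).trans h

include hY in
theorem dif_one_right (n : ℕ) (x : X.H (2 * n)) :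
    devP X Y Q n (incl X Y (2 * n) 0 (tm x Y.one)) =
      incl X Y (2 * n) 0 (tm (dev X Q n x) Y.one) := by
  rw [devP_incl]
  refine congrArg (incl X Y (2 * n) 0) ?_
  change TensorProduct.map (X.frob (2 * n)) (Y.frob 0) (x ⊗ₜ[ℂ] Y.one) -
    (Q : ℂ) ^ n • (x ⊗ₜ[ℂ] Y.one) = dev X Q n x ⊗ₜ[ℂ] Y.one
  rw [TensorProduct.map_tmul, frob_one hY, dev_apply, TensorProduct.sub_tmul,
    TensorProduct.smul_tmul']

include hX in
theorem dif_one_left (n : ℕ) (y : Y.H (2 * n)) :
    devP X Y Q n (incl X Y 0 (2 * n) (tm X.one y)) =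
      incl X Y 0 (2 * n) (tm X.one (dev Y Q n y)) := by
  rw [devP_incl]
  refine congrArg (incl X Y 0 (2 * n)) ?_
  change TensorProduct.map (X.frob 0) (Y.frob (2 * n)) (X.one ⊗ₜ[ℂ] y) -
    (Q : ℂ) ^ n • (X.one ⊗ₜ[ℂ] y) = X.one ⊗ₜ[ℂ] dev Y Q n y
  rw [TensorProduct.map_tmul, frob_one hX, dev_apply, TensorProduct.tmul_sub,
    TensorProduct.tmul_smul]

theorem tm_zero_left {a b : ℕ} (y : Y.H b) : tm (0 : X.H a) y = 0 := TensorProduct.zero_tmul _ _

theorem tm_zero_right {a b : ℕ} (x : X.H a) : tm x (0 : Y.H b) = 0 := TensorProduct.tmul_zero _ _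

include hY in
theorem semisimple_left {n : ℕ} (h : SemisimpleP X Y Q n) : Semisimple X Q n := by
  intro x hx
  have h1 := h (incl X Y (2 * n) 0 (tm x Y.one)) (incl_degree (by omega) _) (by
    rw [dif_one_right hY, dif_one_right hY, hx, tm_zero_left, map_zero])
  rw [dif_one_right hY] at h1
  have h2 := resRight_incl (2 * n) (dev X Q n x) Y.one
  rw [h1, hY.res_one, one_smul, resRight_zero] at h2
  exact h2.symm

include hX in
theorem semisimple_right {n : ℕ} (h : SemisimpleP X Y Q n) : Semisimple Y Q n := by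
  intro y hy
  have h1 := h (incl X Y 0 (2 * n) (tm X.one y)) (incl_degree (by omega) _) (by
    rw [dif_one_left hX, dif_one_left hX, hy, tm_zero_right, map_zero])
  rw [dif_one_left hX] at h1
  have h2 := resLeft_incl (2 * n) X.one (dev Y Q n y)
  rw [h1, hX.res_one, one_smul, resLeft_zero] at h2
  exact h2.symm

variable {Z : ProductData X Y} (hZ : IsProduct Q Z)

include hY hZ in
theorem tate_left {n : ℕ} (h : TateP Q Z n) : Tate X Q n := by
  intro x hx
  have hx' : dev X Q n x = 0 := hx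
  have h1 := h (incl X Y (2 * n) 0 (tm x Y.one)) ⟨incl_degree (by omega) _, by
    rw [dif_one_right hY, hx', tm_zero_left, map_zero]⟩
  have h2 := (hZ.restrictions n _ h1).2
  rwa [resRight_incl, hY.res_one, one_smul] at h2

include hX hZ in
theorem tate_right {n : ℕ} (h : TateP Q Z n) : Tate Y Q n := by
  intro y hy
  have hy' : dev Y Q n y = 0 := hy
  have h1 := h (incl X Y 0 (2 * n) (tm X.one y)) ⟨incl_degree (by omega) _, by
    rw [dif_one_left hX, hy', tm_zero_right, map_zero]⟩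
  have h2 := (hZ.restrictions n _ h1).1
  rwa [resLeft_incl, hX.res_one, one_smul] at h2

include hZ in
theorem tateP_of {n : ℕ} (hK : TateKunneth X Y Q n) (h : ∀ i ≤ n, Tate X Q i ∧ Tate Y Q i) :
    TateP Q Z n := by
  intro w hw
  have h1 := hK w hw
  have h2 : Submodule.span ℂ (crossClasses X Y Q n) ≤ Z.cyc n := by
    rw [Submodule.span_le]
    rintro _ ⟨i, j, rfl, x, hx, y, hy, rfl⟩
    exact hZ.products i j x ((h i (by omega)).1 hx) y ((h j (by omega)).2 hy)
  exact h2 h1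

include hQ hX hY hno hZ in
/-- **The decoupling of `X` and `Y`.** -/
theorem decoupled (m : ℕ) : Decoupled Q Z m := by
  refine ⟨⟨fun h n hn => ⟨semisimple_left hY (h n hn), semisimple_right hX (h n hn)⟩,
    fun h => semisimpleP_of hQ hX hY hno h⟩, ⟨fun h n hn => ?_, fun h n hn => ?_⟩, fun hss => ?_⟩
  · exact ⟨⟨tate_left hY hZ (h n hn).1, semisimple_left hY (h n hn).2⟩,
      ⟨tate_right hX hZ (h n hn).1, semisimple_right hX (h n hn).2⟩⟩
  · refine ⟨tateP_of hZ (tateKunneth hQ hX hY hno (Or.inl fun i hi => (h i hi).1.2) n hn)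
      fun i hi => ⟨(h i (hi.trans hn)).1.1, (h i (hi.trans hn)).2.1⟩, ?_⟩
    exact semisimpleP_of hQ hX hY hno (fun i hi => ⟨(h i hi).1.2, (h i hi).2.2⟩) n hn
  · have hK := tateKunneth hQ hX hY hno hss
    refine ⟨hK, fun h n hn => ⟨tate_left hY hZ (h n hn), tate_right hX hZ (h n hn)⟩,
      fun h n hn => tateP_of hZ (hK n hn) fun i hi => h i (hi.trans hn)⟩

end

end Pool.Agent.H855.DP
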