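import Mathlib
import Pool.Agent.H855.DP.ArithDefs
import Pool.Agent.H855.DP.Main
import Pool.Agent.H855.CM.Split

/-!
# Decoupled varieties: the arithmetic part
-/

set_option autoImplicit false
set_option linter.unusedSectionVars false

namespace Pool.Agent.H855.DP

open NumberField Finset Module Polynomial Pool.Agent.Y1.CT Pool.Agent.V1168.EV Pool.Agent.V1168.EF
  Pool.Agent.H855.CM

variable {p : ℕ} [Fact p.Prime] {ν : PadicAlgCl p ≃+* ℂ} {a : ℕ} {I : Type} [Fintype I]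
  {K : I → Type} [∀ i, Field (K i)] [∀ i, NumberField (K i)] [∀ i, IsCMField (K i)]
  {π : ∀ i, K i}

/-- The function of the automorphisms of a number generated by the Weil numbers. -/
theorem relMap_generated
    (hw : ∀ i, π i * IsCMField.complexConj (K i) (π i) = (p : K i) ^ a) {α : ℂ} {N : ℕ}
    {m : Emb K → ℤ} {k : ℤ} (h : α ^ N = (∏ y, (y.2 (π y.1)) ^ m y) * (p : ℂ) ^ k) :
    relMap (slopes ν a π) (fun y => (m y : ℚ) - (m (Pool.Agent.V1168.EV.bar y) : ℚ)) =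
      (-(2 * N) : ℚ) • oddLog ν α := by
  have hx := odd_slopes (ν := ν) hw
  have hπ0 := weil_ne hw
  have hp0 : (p : ℂ) ≠ 0 := Nat.cast_ne_zero.2 (Fact.out : p.Prime).ne_zero
  have h1 : ∀ σ : ℂ ≃+* ℂ, (N : ℝ) * lg ν (σ α) = ∑ y, (m y : ℝ) * lg ν (σ (y.2 (π y.1))) - k := by
    intro σ
    have hne : ∀ y : Emb K, σ (y.2 (π y.1)) ^ m y ≠ 0 := fun y =>
      zpow_ne_zero _ ((_root_.map_ne_zero _).2 ((_root_.map_ne_zero _).2 (hπ0 _)))
    rw [← lg_pow, ← map_pow, h, map_mul, map_zpow₀, map_natCast, map_prod]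
    simp only [map_zpow₀]
    rw [lg_mul (Finset.prod_ne_zero_iff.2 fun y _ => hne y) (zpow_ne_zero _ hp0),
      lg_prod _ _ fun y _ => hne y, lg_zpow, lg_p]
    simp only [lg_zpow]
    ring
  have h2 : ∀ σ : ℂ ≃+* ℂ, ∑ y, (m y : ℝ) * slopes ν a π (act σ y) =
      (-(2 * N)) * lg ν (σ α) + (-(2 * k) - a * ∑ y, (m y : ℝ)) := by
    intro σ
    have h3 : ∀ y : Emb K, slopes ν a π (act σ y) = -(2 * lg ν (σ (y.2 (π y.1)))) - a := by
      intro y
      have := two_lg (ν := ν) (a := a) (π := π) y σ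
      linarith
    simp only [h3]
    have h4 := h1 σ
    have h5 : ∑ y, (m y : ℝ) * (-(2 * lg ν (σ (y.2 (π y.1)))) - a) =
        -(2 * ∑ y, (m y : ℝ) * lg ν (σ (y.2 (π y.1)))) - a * ∑ y, (m y : ℝ) := by
      rw [Finset.mul_sum, Finset.mul_sum, ← Finset.sum_neg_distrib, ← Finset.sum_sub_distrib]
      refine Finset.sum_congr rfl fun y _ => ?_
      ring
    rw [h5]
    linarith
  funext σ
  have h6 := sum_odd (m := fun y => (m y : ℝ)) hx σ
  have h7 := odd_part (g := fun σ => lg ν (σ α)) hx h2 σ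
  rw [relMap_apply, Pi.smul_apply, Rat.smul_def]
  push_cast
  rw [h6, h7]
  change 2 * (-(2 * (N : ℝ)) * ((lg ν (σ α) - lg ν ((σ.trans starRingAut) α)) / 2)) =
    -(2 * (N : ℝ)) * (lg ν (σ α) - lg ν ((σ.trans starRingAut) α))
  ring

/-- Two numbers with a rational product. -/
theorem oddLog_add {α β : ℂ} (hα : α ≠ 0) (hβ : β ≠ 0) {Q n : ℕ} (h : α * β = (Q : ℂ) ^ n) :
    oddLog ν α = -oddLog ν β := by
  funext σ
  have h1 : ∀ τ : ℂ ≃+* ℂ, lg ν (τ α) + lg ν (τ β) = lg ν ((Q : ℂ) ^ n) := by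
    intro τ
    rw [← lg_mul ((_root_.map_ne_zero τ).2 hα) ((_root_.map_ne_zero τ).2 hβ), ← map_mul, h,
      map_pow, map_natCast]
  have h2 := h1 σ
  have h3 := h1 (σ.trans starRingAut)
  change lg ν (σ α) - lg ν ((σ.trans starRingAut) α) =
    -(lg ν (σ β) - lg ν ((σ.trans starRingAut) β))
  linarith

/-- Supersingular numbers. -/
theorem supersingular_of {α : ℂ} (hα : α ≠ 0) (h : oddLog ν α = 0) : IsSupersingular ν α := by
  intro σ
  have h1 : lg ν (σ α) - lg ν ((σ.trans starRingAut) α) = 0 := congrFun h σ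
  have hp : (1 : ℝ) < p := by exact_mod_cast (Fact.out : p.Prime).one_lt
  have h2 : Real.logb p ‖ν.symm (σ α)‖ = Real.logb p ‖ν.symm ((σ.trans starRingAut) α)‖ :=
    sub_eq_zero.1 h1
  have h3 : ∀ z : ℂ, z ≠ 0 → 0 < ‖ν.symm z‖ := fun z hz =>
    norm_pos_iff.2 ((_root_.map_ne_zero ν.symm).2 hz)
  have h4 : σ α ≠ 0 := (_root_.map_ne_zero σ).2 hα
  exact Real.logb_injOn_pos hp (h3 _ h4) (h3 _ ((_root_.map_ne_zero (starRingEnd ℂ)).2 h4)) h2

/-- Outside of the exceptional vectors there are no common eigenvalues. -/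
theorem no_common {I : Type} {ν : PadicAlgCl p ≃+* ℂ} {K : I → Type}
    [∀ i, Field (K i)] [∀ i, NumberField (K i)] [∀ i, IsCMField (K i)] {Ω : Finset ℂ}
    {E : Finset (Σ i, ((K i →+* ℂ) → ℝ))} (h : Core ν K Ω E) {J : Type} [Fintype J] {b : J → I}
    {a : ℕ} {π : ∀ j, K (b j)}
    (hπ : ∀ j, π j * IsCMField.complexConj (K (b j)) (π j) = (p : K (b j)) ^ a)
    (hcomb : ∀ e ∈ E, ¬ IsCombination ν a π e.2) {r : ℕ} (hr : 0 < r) {X Y : VarietyData}
    (hX : IsSmooth X (p ^ r)) (hY : IsSmooth Y (p ^ r)) (hgen : PureGenerated X (p ^ r) p π)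
    (hfrom : PureFrom Y (p ^ r) p Ω) (htight : TightPure ν X (p ^ r) ∨ TightPure ν Y (p ^ r))
    (c d : ℕ) (α β : ℂ) (n : ℕ) (hcd : c + d = 2 * n) (hα : IsEigenvalue X c α)
    (hβ : IsEigenvalue Y d β) (hαβ : α * β = ((p ^ r : ℕ) : ℂ) ^ n) :
    ∃ k : ℕ, α = ((p ^ r : ℕ) : ℂ) ^ k := by
  have hp1 := (Fact.out : p.Prime).one_lt
  have hQ : 1 < p ^ r := Nat.one_lt_pow hr.ne' hp1
  have hne : ∀ (V : VarietyData), IsSmooth V (p ^ r) → ∀ c α, IsEigenvalue V c α → α ≠ 0 := by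
    intro V hV c α hα h0
    have h1 := hV.weights c α hα
    rw [h0, norm_zero, zero_pow two_ne_zero] at h1
    have h2 : (0 : ℝ) < ((p ^ r : ℕ) : ℝ) ^ c := by positivity
    exact absurd h1 (not_le.2 h2)
  have hα0 := hne X hX c α hα
  have hβ0 := hne Y hY d β hβ
  obtain ⟨hα', hβ'⟩ := pure_of_mul hQ hX hY hcd hα hβ hαβ
  obtain ⟨N, e, k, hN, hrel⟩ := hgen c α hα'
  have h1 := relMap_generated (ν := ν) hπ hrel
  have h2 := oddLog_add (ν := ν) hα0 hβ0 hαβ
  have h3 : relMap (slopes ν a π)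
      (fun y => (e y : ℚ) - (e (Pool.Agent.V1168.EV.bar y) : ℚ)) = (2 * N : ℚ) • oddLog ν β := by
    rw [h1, h2, smul_neg, neg_smul, neg_neg]
  have h4 := h J b a π hcomb β (hfrom d β hβ') _ _ (fun y => by
    simp only [bar_bar]
    ring) h3
  have hN' : (2 * N : ℚ) ≠ 0 := by
    have : (N : ℚ) ≠ 0 := Nat.cast_ne_zero.2 hN.ne'
    positivity
  have h5 : oddLog ν β = 0 := by
    rw [h3] at h4
    exact (smul_eq_zero.1 h4).resolve_left hN'
  have h6 : oddLog ν α = 0 := by rw [h2, h5, neg_zero]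
  rcases htight with ht | ht
  · exact ht c α hα' (supersingular_of hα0 h6)
  · obtain ⟨k', hk'⟩ := ht d β hβ' (supersingular_of hβ0 h5)
    have h7 := hβ'.2
    rw [hk'] at h7
    have h8 := weight_eq hQ h7
    refine ⟨n - k', ?_⟩
    have h9 : (((p ^ r : ℕ) : ℂ)) ^ n = ((p ^ r : ℕ) : ℂ) ^ (n - k') * ((p ^ r : ℕ) : ℂ) ^ k' := by
      rw [← pow_add]
      congr 1
      omega
    rw [hk', h9] at hαβ
    exact mul_right_cancel₀ (by rw [hk'] at hβ0; exact hβ0) hαβ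

/-- **The decoupling theorem for smooth varieties.** -/
theorem smooth_of_core {I : Type} {ν : PadicAlgCl p ≃+* ℂ} {K : I → Type}
    [∀ i, Field (K i)] [∀ i, NumberField (K i)] [∀ i, IsCMField (K i)] {Ω : Finset ℂ}
    {E : Finset (Σ i, ((K i →+* ℂ) → ℝ))} (h : Core ν K Ω E) : SmoothDecoupled ν K Ω E := by
  intro J _ b a π ha hπ hcomb r X Y Z hr hX hY hZ hgen hfrom htight
  exact decoupled (Nat.one_lt_pow hr.ne' (Fact.out : p.Prime).one_lt) hX hY
    (no_common h hπ hcomb hr hX hY hgen hfrom htight) hZ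

theorem IsVariety.isSmooth {X : VarietyData} {Q : ℕ} (h : IsVariety X Q) : IsSmooth X Q :=
  ⟨h.finite, fun a α hα => (h.weights a α hα).ge, h.cyc_le, h.one_mem, h.res_one⟩

theorem SmoothDecoupled.outside {I : Type} {K : I → Type} [∀ i, Field (K i)]
    [∀ i, NumberField (K i)] [∀ i, IsCMField (K i)] {Ω : Finset ℂ}
    {E : Finset (Σ i, ((K i →+* ℂ) → ℝ))} (h : SmoothDecoupled ν K Ω E) :
    DecoupledOutside ν K Ω E := by
  intro J _ b a π ha hπ hcomb r X Y Z hr hX hY hZ hgen hfrom htight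
  refine h J b a π ha hπ hcomb r X Y Z hr hX.isSmooth hY.isSmooth hZ
    (fun a α hα => hgen a α hα.1) (fun a α hα => hfrom a α hα.1) ?_
  exact htight.imp (fun ht a α hα => ht a α hα.1) fun ht a α hα => ht a α hα.1

/-- **The decoupling theorem.** -/
theorem exists_decoupled {I : Type} (ν : PadicAlgCl p ≃+* ℂ) (K : I → Type) [∀ i, Field (K i)]
    [∀ i, NumberField (K i)] [∀ i, IsCMField (K i)] (w : I → ℕ) (hw : ∀ i, IsWeight (K i) (w i))
    (Ω : Finset ℂ) :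
    ∃ E : Finset (Σ i, ((K i →+* ℂ) → ℝ)), IsSmall w Ω E ∧ DecoupledOutside ν K Ω E := by
  obtain ⟨E, hE, h⟩ := exists_core ν K w hw Ω
  exact ⟨E, hE, (smooth_of_core h).outside⟩

/-- **The decoupling theorem for varieties over finite fields, and the splitting of the Tate classes for
one Frobenius element.** -/
theorem exists_decoupled_split {I : Type} (ν : PadicAlgCl p ≃+* ℂ) (K : I → Type)
    [∀ i, Field (K i)] [∀ i, NumberField (K i)] [∀ i, IsCMField (K i)] (w : I → ℕ)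
    (hw : ∀ i, IsWeight (K i) (w i)) (Ω : Finset ℂ) :
    ∃ E : Finset (Σ i, ((K i →+* ℂ) → ℝ)), IsSmall w Ω E ∧ DecoupledOutside ν K Ω E ∧
      SplitOutside ν K Ω E := by
  obtain ⟨E, hE, h⟩ := exists_core ν K w hw Ω
  exact ⟨E, hE, (smooth_of_core h).outside, h.split⟩

/-- **The same for smooth varieties, proper or not.** -/
theorem exists_smooth_split {I : Type} (ν : PadicAlgCl p ≃+* ℂ) (K : I → Type)
    [∀ i, Field (K i)] [∀ i, NumberField (K i)] [∀ i, IsCMField (K i)] (w : I → ℕ)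
    (hw : ∀ i, IsWeight (K i) (w i)) (Ω : Finset ℂ) :
    ∃ E : Finset (Σ i, ((K i →+* ℂ) → ℝ)), IsSmall w Ω E ∧ SmoothDecoupled ν K Ω E ∧
      SplitOutside ν K Ω E := by
  obtain ⟨E, hE, h⟩ := exists_core ν K w hw Ω
  exact ⟨E, hE, smooth_of_core h, h.split⟩

end Pool.Agent.H855.DP
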