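import Mathlib
import Pool.Agent.H855.DP.ArithDefs

/-!
# Numerical equivalence on products of two varieties: definitions
-/

set_option autoImplicit false

namespace Pool.Agent.H855.DP

open NumberField Module TensorProduct Pool.Agent.V1168.EV Pool.Agent.H855.CM

/-- The cohomology of a smooth projective variety with the classes of cycles with rational coefficients
and the intersection pairing. -/
structure CycleData extends VarietyData where
  /-- the dimension -/
  dim : ℕ
  /-- the classes of the cycles of codimension `i` with rational coefficients -/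
  cl : ∀ i, AddSubgroup (H (2 * i))
  /-- the intersection pairing of `H^a(X)` and `H^b(X)`, for `a + b = 2 dim X` -/
  pair : ∀ a b, H a →ₗ[ℂ] H b →ₗ[ℂ] ℂ

section

variable (X : CycleData) (Q : ℕ)

variable {X} in
/-- The intersection number of `x` and `y`. -/
noncomputable def dot {a b : ℕ} (x : X.H a) (y : X.H b) : ℂ := X.pair a b x y

/-- The space `A^i(X)` is spanned by the classes of cycles with rational coefficients. -/
def Spanned : Prop := ∀ i, X.cyc i = Submodule.span ℂ (X.cl i)

/-- Rational multiples of classes of cycles with rational coefficients are of the same kind. -/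
def Divisible : Prop := ∀ i, ∀ x ∈ X.cl i, ∀ c : ℚ, (c : ℂ) • x ∈ X.cl i

/-- The cohomology vanishes in the degrees larger than `2 dim X`. -/
def Vanishes : Prop := ∀ a, 2 * X.dim < a → ∀ x : X.H a, x = 0

/-- The intersection pairing is graded commutative. -/
def GradedCommutative : Prop :=
  ∀ (a b : ℕ) (x : X.H a) (y : X.H b), dot x y = (-1) ^ (a * b) * dot y x

/-- The intersection numbers of classes of cycles with rational coefficients are rational. -/
def RationalNumbers : Prop :=
  ∀ i j, i + j = X.dim → ∀ x ∈ X.cl i, ∀ y ∈ X.cl j, ∃ c : ℚ, dot x y = c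

/-- The formal properties of the classes of cycles: `A^i(X)` is spanned by the classes with rational
coefficients, and the intersection numbers are rational. -/
structure HasCycles : Prop where
  variety : IsVariety X.toVarietyData Q
  span : Spanned X
  rat : Divisible X
  one_mem : X.one ∈ X.cl 0
  vanish : Vanishes X
  symm : GradedCommutative X
  number : RationalNumbers X

/-- Poincaré duality, and its compatibility with Frobenius. -/
structure HasDuality : Prop where
  frob : ∀ a b, a + b = 2 * X.dim → ∀ (x : X.H a) (y : X.H b),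
    dot (X.frob a x) (X.frob b y) = (Q : ℂ) ^ X.dim * dot x y
  nondegenerate : ∀ a b, a + b = 2 * X.dim → ∀ x : X.H a, (∀ y : X.H b, dot x y = 0) → x = 0

/-- The strong form of the conjecture of Tate for `X`: for all `i` the elements of `H^(2 i)(X)` which
Frobenius multiplies by `Q ^ i` are linear combinations of classes of cycles, and Frobenius is
semisimple at `Q ^ i`. -/
def StrongTate : Prop := ∀ i, Tate X.toVarietyData Q i ∧ Semisimple X.toVarietyData Q i

/-- Homological and numerical equivalence agree for the cycles of codimension `i` on `X`. -/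
def HomIsNum (i : ℕ) : Prop :=
  ∀ j, i + j = X.dim → ∀ x ∈ X.cl i, (∀ y ∈ X.cl j, dot x y = 0) → x = 0

end

section

/-- The contraction of an element of `U ⊗ V` with functionals on `U`. -/
noncomputable def contract {U V : Type} [AddCommGroup U] [AddCommGroup V] [Module ℂ U]
    [Module ℂ V] (z : U ⊗[ℂ] V) : (U →ₗ[ℂ] ℂ) →ₗ[ℂ] V :=
  (TensorProduct.lid ℂ V).toLinearMap ∘ₗ LinearMap.flip (LinearMap.rTensorHom V) z

/-- The pairing of `U ⊗ V` and `U' ⊗ V'` defined by a pairing `B` of `U` and `U'` and a pairing `C` of
`V` and `V'`: the pairing of `x ⊗ y` and `w` is `C y w'`, where `w'` is the contraction of `w` with the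
functional `B x`. -/
noncomputable def tensorPairing {U V U' V' : Type} [AddCommGroup U] [AddCommGroup V]
    [AddCommGroup U'] [AddCommGroup V'] [Module ℂ U] [Module ℂ V] [Module ℂ U'] [Module ℂ V']
    (B : U →ₗ[ℂ] U' →ₗ[ℂ] ℂ) (C : V →ₗ[ℂ] V' →ₗ[ℂ] ℂ) (z : U ⊗[ℂ] V) (w : U' ⊗[ℂ] V') : ℂ :=
  TensorProduct.lift (LinearMap.compl₁₂ C.flip (contract w ∘ₗ B) LinearMap.id) z

variable (X Y : CycleData)

/-- The cohomology of `X × Y`. -/
abbrev PairC : Type := PairH X.toVarietyData Y.toVarietyData

/-- The pairing of `H^a(X) ⊗ H^b(Y)` and `H^c(X) ⊗ H^e(Y)`. -/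
noncomputable def pairT (a b c e : ℕ) (z : Tens X.toVarietyData Y.toVarietyData a b)
    (w : Tens X.toVarietyData Y.toVarietyData c e) : ℂ :=
  tensorPairing (X.pair a c) (Y.pair b e) z w

/-- The intersection number of two elements of the cohomology of `X × Y`. -/
noncomputable def inter (z w : PairC X Y) : ℂ :=
  ∑ s ∈ Finset.HasAntidiagonal.antidiagonal (2 * X.dim),
    ∑ t ∈ Finset.HasAntidiagonal.antidiagonal (2 * Y.dim),
      (-1) ^ (t.1 * s.2) * pairT X Y s.1 t.1 s.2 t.2 (z s.1 t.1) (w s.2 t.2)

variable {X Y}

/-- The push-forward to `Y` of the product of an element `w` of the cohomology of `X × Y` with the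
element `x` of `H^c(X)`: its part in `H^b(Y)`. -/
noncomputable def push (a b : ℕ) {c : ℕ} (x : X.H c) (w : PairC X Y) : Y.H b :=
  contract (w a b) ((X.pair a c).flip x)

variable (X Y)

/-- The classes of the cycles with rational coefficients on `X × Y`, of all codimensions. -/
structure ProductCycles where
  /-- the classes of codimension `n` -/
  cl : ℕ → AddSubgroup (PairC X Y)

variable {X Y}
variable (Q : ℕ) (Z : ProductCycles X Y)

/-- The formal properties of the classes of cycles on `X × Y`: they are Frobenius invariant, closed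
under products of cycles on `X` and `Y` and, for a cycle `x` on `X`, under `w ↦ pr_* (w * (x × Y))`. -/
structure IsProductCycles : Prop where
  invariant : ∀ n, ∀ w ∈ Z.cl n, IsInvariant X.toVarietyData Y.toVarietyData Q n w
  products : ∀ i j, ∀ x ∈ X.cl i, ∀ y ∈ Y.cl j,
    cross (X := X.toVarietyData) (Y := Y.toVarietyData) x y ∈ Z.cl (i + j)
  push_mem : ∀ i j k, i + k = X.dim → ∀ x ∈ X.cl k, ∀ w ∈ Z.cl (i + j),
    push (2 * i) (2 * j) x w ∈ Y.cl j

/-- Homological and numerical equivalence agree for the cycles of codimension `n` on `X × Y`. -/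
def HomIsNumP (n : ℕ) : Prop :=
  ∀ k, n + k = X.dim + Y.dim → ∀ z ∈ Z.cl n, (∀ w ∈ Z.cl k, inter X Y z w = 0) → z = 0

/-- The classes of the products `x × y` of cycles on `X` and `Y` of codimension `n` together. -/
def productClasses (n : ℕ) : Set (PairC X Y) :=
  {t | ∃ i j, i + j = n ∧ ∃ x ∈ X.cl i, ∃ y ∈ Y.cl j,
    t = cross (X := X.toVarietyData) (Y := Y.toVarietyData) x y}

/-- The conclusion about `X` and `Y`: all classes of cycles on `X × Y` are sums of classes of products
of cycles, and homological and numerical equivalence agree on `X × Y` in the codimensions up to `m`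
if and only if they agree on `Y` in the codimensions up to `m`. -/
def CyclesDecoupled : Prop :=
  (∀ n, ∀ w ∈ Z.cl n, w ∈ AddSubgroup.closure (productClasses (X := X) (Y := Y) n)) ∧
    ∀ m, (∀ n ≤ m, HomIsNumP Z n) ↔ ∀ n ≤ m, HomIsNum Y n

end

/-- For all finite families of Weil numbers `π j` for `p ^ a` (any `a > 0`), each in one of the
fields `K i`, such that no vector in `E` is a combination of the slope vectors of the `π j`, for all
finite fields with `Q = p ^ r` elements and all smooth projective varieties `X` and `Y` over this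
field, where the Frobenius eigenvalues of `X` are generated by the `π j`, those of `Y` come from `Ω`,
one of `X` and `Y` is tight, and `X` satisfies the strong form of the conjecture of Tate: the cycles
on `X` and `Y` are decoupled. -/
def CyclesDecoupledOutside {p : ℕ} [Fact p.Prime] (ν : PadicAlgCl p ≃+* ℂ) {I : Type}
    (K : I → Type) [∀ i, Field (K i)] [∀ i, NumberField (K i)] [∀ i, IsCMField (K i)]
    (Ω : Finset ℂ) (E : Finset (Σ i, ((K i →+* ℂ) → ℝ))) : Prop :=
  ∀ (J : Type) [Fintype J] (b : J → I) (a : ℕ) (π : ∀ j, K (b j)), 0 < a →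
    (∀ j, π j * IsCMField.complexConj (K (b j)) (π j) = (p : K (b j)) ^ a) →
    (∀ e ∈ E, ¬ IsCombination ν a π e.2) →
    ∀ (r : ℕ) (X Y : CycleData) (Z : ProductCycles X Y), 0 < r → HasCycles X (p ^ r) →
      HasDuality X (p ^ r) → HasCycles Y (p ^ r) → IsProductCycles (p ^ r) Z →
      GeneratedBy X.toVarietyData p π → EigenvaluesFrom Y.toVarietyData p Ω →
      (IsTight ν X.toVarietyData (p ^ r) ∨ IsTight ν Y.toVarietyData (p ^ r)) →
      StrongTate X (p ^ r) → CyclesDecoupled Z

end Pool.Agent.H855.DP
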