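import Mathlib
import Pool.Agent.H855.DP.NumDefs
import Pool.Agent.H855.DP.Main

/-!
# Numerical equivalence on products of two varieties
-/

set_option autoImplicit false
set_option linter.unusedSectionVars false

namespace Pool.Agent.H855.DP

open Module TensorProduct Polynomial

section lin

variable {U U' : Type} [AddCommGroup U] [Module ℂ U] [Module.Finite ℂ U]
  [AddCommGroup U'] [Module ℂ U'] [Module.Finite ℂ U']

theorem functional_aeval (F : Module.End ℂ U) (φ : U →ₗ[ℂ] ℂ) (c : ℂ)
    (h : ∀ u, φ (F u) = c * φ u) (P : ℂ[X]) (u : U) : φ (aeval F P u) = P.eval c * φ u := by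
  have hpow : ∀ (n : ℕ) (u : U), φ ((F ^ n) u) = c ^ n * φ u := by
    intro n
    induction n with
    | zero => intro u; simp
    | succ n ih =>
      intro u
      rw [pow_succ, Module.End.mul_apply, ih, h]
      ring
  induction P using Polynomial.induction_on' with
  | add p q hp hq => rw [map_add, LinearMap.add_apply, map_add, hp, hq, eval_add, add_mul]
  | monomial n a =>
    rw [aeval_monomial, Module.End.mul_apply, Module.algebraMap_end_apply, map_smul, hpow,
      eval_monomial, smul_eq_mul]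
    ring

variable (F : Module.End ℂ U) (G : Module.End ℂ U') (B : U →ₗ[ℂ] U' →ₗ[ℂ] ℂ) {α β c : ℂ}

/-- Nondegeneracy on the eigenspaces. -/
theorem exists_pair_ne (hα : α ≠ 0) (hc : α * β = c) (hF : ∀ x y, B (F x) (G y) = c * B x y)
    (hnd : ∀ x, (∀ y, B x y = 0) → x = 0) (hss : SemisimpleAt G β) {x : U} (hx : F x = α • x)
    (h : ∀ y, G y = β • y → B x y = 0) : x = 0 := by
  refine hnd x fun y => ?_
  obtain ⟨P, hP, hGP⟩ := exists_projector G β hss
  have h1 : ∀ y, B x (G y) = β * B x y := by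
    intro y
    have h2 := hF x y
    rw [hx, map_smul, LinearMap.smul_apply, smul_eq_mul, ← hc, mul_assoc] at h2
    exact mul_left_cancel₀ hα h2
  have h3 := functional_aeval G (B x) β h1 P y
  rw [hP, one_mul] at h3
  rw [← h3]
  exact h _ (hGP y)

/-- Dual vectors. -/
theorem exists_dual (hα : α ≠ 0) (hc : α * β = c) (hF : ∀ x y, B (F x) (G y) = c * B x y)
    (hnd : ∀ x, (∀ y, B x y = 0) → x = 0) (hss : SemisimpleAt G β) {ι : Type} [Fintype ι]
    [DecidableEq ι] {x : ι → U} (hx : ∀ i, F (x i) = α • x i) (hli : LinearIndependent ℂ x)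
    (k : ι) : ∃ a, G a = β • a ∧ ∀ j, B (x j) a = if j = k then 1 else 0 := by
  let E : Submodule ℂ U' := Module.End.eigenspace G β
  let T : E →ₗ[ℂ] (ι → ℂ) := LinearMap.pi fun j => (B (x j)).domRestrict E
  have hT : LinearMap.range T = ⊤ := by
    by_contra hne
    obtain ⟨f, hf0, hf⟩ := Submodule.exists_le_ker_of_lt_top _ (lt_top_iff_ne_top.2 hne)
    have hfs : ∀ v : ι → ℂ, f v = ∑ j, f (Pi.single j 1) * v j := by
      intro v
      have h1 : v = ∑ j, v j • (Pi.single j (1 : ℂ) : ι → ℂ) := by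
        funext l
        simp [Finset.sum_apply, Pi.single_apply]
      conv_lhs => rw [h1]
      rw [map_sum]
      refine Finset.sum_congr rfl fun j _ => ?_
      rw [map_smul, smul_eq_mul, mul_comm]
    have h2 : ∑ j, f (Pi.single j 1) • x j = 0 := by
      refine exists_pair_ne F G B hα hc hF hnd hss (x := ∑ j, f (Pi.single j 1) • x j) ?_ ?_
      · rw [map_sum, Finset.smul_sum]
        refine Finset.sum_congr rfl fun j _ => ?_
        rw [map_smul, hx, smul_comm]
      · intro y hy
        rw [map_sum, LinearMap.sum_apply]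
        have h3 : f (T ⟨y, Module.End.mem_eigenspace_iff.2 hy⟩) = 0 := hf ⟨_, rfl⟩
        rw [hfs] at h3
        rw [← h3]
        refine Finset.sum_congr rfl fun j _ => ?_
        rw [map_smul, LinearMap.smul_apply, smul_eq_mul]
        rfl
    have h4 := Fintype.linearIndependent_iff.1 hli _ h2
    refine hf0 (LinearMap.ext fun v => ?_)
    rw [hfs]
    simp [h4]
  obtain ⟨a, ha⟩ := LinearMap.range_eq_top.1 hT (Pi.single k 1)
  refine ⟨a, Module.End.mem_eigenspace_iff.1 a.2, fun j => ?_⟩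
  have h1 := congrFun ha j
  rw [Pi.single_apply] at h1
  exact h1

/-- Dual vectors with rational coordinates. -/
theorem exists_rational (S : AddSubgroup U') (hS : ∀ x ∈ S, ∀ c : ℚ, (c : ℂ) • x ∈ S)
    {ι : Type} [Fintype ι] {x : ι → U} (hx : ∀ j, ∀ y ∈ S, ∃ c : ℚ, B (x j) y = c)
    {a : U'} (ha : a ∈ Submodule.span ℂ (S : Set U')) {d : ι → ℚ} (hd : ∀ j, B (x j) a = d j) :
    ∃ a' ∈ S, ∀ j, B (x j) a' = d j := by
  obtain ⟨π, hπ⟩ := LinearMap.exists_leftInverse_of_injective
    (Algebra.linearMap ℚ ℂ) (LinearMap.ker_eq_bot.2 (algebraMap ℚ ℂ).injective)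
  have hπ' : ∀ q : ℚ, π (q : ℂ) = q := fun q => by
    have h1 := congrArg (fun f : ℚ →ₗ[ℚ] ℚ => f q) hπ
    simpa using h1
  obtain ⟨n, c, g, hg⟩ := Submodule.mem_span_set'.1 ha
  choose q hq using fun j l => hx j (g l) (g l).2
  refine ⟨∑ l, ((π (c l) : ℚ) : ℂ) • (g l : U'), S.sum_mem fun l _ => hS _ (g l).2 _, fun j => ?_⟩
  have h1 : ∑ l, c l * (q j l : ℂ) = (d j : ℂ) := by
    rw [← hd j, ← hg, map_sum]
    refine Finset.sum_congr rfl fun l _ => ?_
    rw [map_smul, hq, smul_eq_mul]
  have h2 : ∑ l, π (c l) * q j l = d j := by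
    have h3 := congrArg π h1
    rw [map_sum, hπ'] at h3
    rw [← h3]
    refine Finset.sum_congr rfl fun l _ => ?_
    have h4 : c l * (q j l : ℂ) = q j l • c l := by
      rw [Rat.smul_def, mul_comm]
    rw [h4, map_smul, smul_eq_mul, mul_comm]
  rw [map_sum, ← h2]
  push_cast
  refine Finset.sum_congr rfl fun l _ => ?_
  rw [map_smul, hq, smul_eq_mul]

/-- A system of vectors with rational coordinates and a dual system. -/
theorem exists_system (hα : α ≠ 0) (hc : α * β = c) (hF : ∀ x y, B (F x) (G y) = c * B x y)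
    (hnd : ∀ x, (∀ y, B x y = 0) → x = 0) (hss : SemisimpleAt G β)
    (R : AddSubgroup U) (hR : ∀ x ∈ R, F x = α • x)
    (hRs : ∀ x, F x = α • x → x ∈ Submodule.span ℂ (R : Set U))
    (S : AddSubgroup U') (hS : ∀ x ∈ S, ∀ c : ℚ, (c : ℂ) • x ∈ S)
    (hSs : ∀ y, G y = β • y → y ∈ Submodule.span ℂ (S : Set U'))
    (hrat : ∀ x ∈ R, ∀ y ∈ S, ∃ q : ℚ, B x y = q) :
    ∃ (ι : Type) (_ : Fintype ι) (x : ι → U) (a : ι → U'), (∀ j, x j ∈ R) ∧ (∀ j, a j ∈ S) ∧
      (∀ u, F u = α • u → u = ∑ j, B u (a j) • x j) ∧ LinearIndependent ℂ x := by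
  classical
  obtain ⟨b, hbR, hbs, hbli⟩ := exists_linearIndependent ℂ (R : Set U)
  have : Finite b := hbli.finite
  let _ : Fintype b := Fintype.ofFinite b
  have hdual : ∀ k : b, ∃ a ∈ S, ∀ j : b, B (j : U) a = ((if j = k then 1 else 0 : ℚ) : ℂ) := by
    intro k
    obtain ⟨a, ha, hak⟩ := exists_dual F G B hα hc hF hnd hss (x := fun j : b => (j : U))
      (fun j => hR _ (hbR j.2)) hbli k
    refine exists_rational B S hS (x := fun j : b => (j : U)) (fun j y hy => hrat _ (hbR j.2) y hy)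
      (hSs a ha) (d := fun j => if j = k then 1 else 0) fun j => ?_
    rw [hak j]
    split_ifs <;> simp
  choose a haS hak using hdual
  refine ⟨b, inferInstance, fun j => (j : U), a, fun j => hbR j.2, haS, fun u hu => ?_, hbli⟩
  have h1 : u ∈ Submodule.span ℂ (Set.range fun j : b => (j : U)) := by
    rw [Subtype.range_coe_subtype, Set.ofPred_mem_eq, hbs]
    exact hRs u hu
  obtain ⟨ξ, hξ⟩ := (Submodule.mem_span_range_iff_exists_fun ℂ).1 h1
  have h2 : ∀ k, B u (a k) = ξ k := by
    intro k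
    rw [← hξ, map_sum, LinearMap.sum_apply, Finset.sum_eq_single k]
    · rw [map_smul, LinearMap.smul_apply, hak]
      simp
    · intro j _ hjk
      rw [map_smul, LinearMap.smul_apply, hak, if_neg hjk]
      simp
    · intro h
      exact absurd (Finset.mem_univ k) h
  conv_lhs => rw [← hξ]
  exact Finset.sum_congr rfl fun j _ => by rw [h2]

end lin

section pairing

variable {X Y : CycleData}

theorem contract_tmul {U V : Type} [AddCommGroup U] [AddCommGroup V] [Module ℂ U]
    [Module ℂ V] (x : U) (y : V) (φ : U →ₗ[ℂ] ℂ) : contract (x ⊗ₜ[ℂ] y) φ = φ x • y := by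
  rw [contract, LinearMap.comp_apply, LinearMap.flip_apply]
  exact TensorProduct.lid_tmul _ _

theorem contract_zero {U V : Type} [AddCommGroup U] [AddCommGroup V] [Module ℂ U]
    [Module ℂ V] (φ : U →ₗ[ℂ] ℂ) : contract (0 : U ⊗[ℂ] V) φ = 0 := by
  simp [contract]

theorem contract_add {U V : Type} [AddCommGroup U] [AddCommGroup V] [Module ℂ U]
    [Module ℂ V] (z z' : U ⊗[ℂ] V) (φ : U →ₗ[ℂ] ℂ) :
    contract (z + z') φ = contract z φ + contract z' φ := by
  simp [contract]

theorem contract_smul {U V : Type} [AddCommGroup U] [AddCommGroup V] [Module ℂ U]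
    [Module ℂ V] (c : ℂ) (z : U ⊗[ℂ] V) (φ : U →ₗ[ℂ] ℂ) :
    contract (c • z) φ = c • contract z φ := by
  simp [contract]

theorem pairT_left (a b c e : ℕ) (x : X.H a) (y : Y.H b) (w : X.H c ⊗[ℂ] Y.H e) :
    pairT X Y a b c e (x ⊗ₜ[ℂ] y : X.H a ⊗[ℂ] Y.H b) w =
      Y.pair b e y (contract w (X.pair a c x)) := by
  unfold pairT tensorPairing
  rw [TensorProduct.lift.tmul]
  rfl

theorem pairT_right (a b c e : ℕ) (z : X.H a ⊗[ℂ] Y.H b) (x' : X.H c) (y' : Y.H e) :
    pairT X Y a b c e z (x' ⊗ₜ[ℂ] y' : X.H c ⊗[ℂ] Y.H e) =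
      Y.pair b e (contract z ((X.pair a c).flip x')) y' := by
  induction z with
  | zero =>
    rw [contract_zero, map_zero, LinearMap.zero_apply]
    exact map_zero (TensorProduct.lift _)
  | add z z' h h' =>
    rw [contract_add, map_add, LinearMap.add_apply, ← h, ← h']
    exact map_add (TensorProduct.lift _) _ _
  | tmul x y =>
    rw [pairT_left, contract_tmul, contract_tmul, map_smul, map_smul, LinearMap.smul_apply,
      LinearMap.flip_apply]

theorem pairT_zero_right (a b c e : ℕ) (z : X.H a ⊗[ℂ] Y.H b) : pairT X Y a b c e z 0 = 0 := by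
  induction z with
  | zero => exact map_zero (TensorProduct.lift _)
  | add z z' h h' =>
    refine (map_add (TensorProduct.lift _) _ _).trans ?_
    have h1 : pairT X Y a b c e z 0 + pairT X Y a b c e z' 0 = 0 := by rw [h, h', add_zero]
    exact h1
  | tmul x y =>
    refine (pairT_left a b c e x y 0).trans ?_
    rw [contract_zero, map_zero]

theorem pairT_zero_left (a b c e : ℕ) (w : X.H c ⊗[ℂ] Y.H e) : pairT X Y a b c e 0 w = 0 :=
  map_zero (TensorProduct.lift _)

/-- The intersection number with an element of one bidegree. -/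
theorem inter_incl_right {a b c e : ℕ} (hac : a + c = 2 * X.dim) (hbe : b + e = 2 * Y.dim)
    (z : PairC X Y) (t : Tens X.toVarietyData Y.toVarietyData c e) :
    inter X Y z (incl X.toVarietyData Y.toVarietyData c e t) =
      (-1) ^ (b * c) * pairT X Y a b c e (z a b) t := by
  unfold inter
  rw [Finset.sum_eq_single (a, c)]
  · rw [Finset.sum_eq_single (b, e)]
    · change _ * pairT X Y a b c e (z a b) (incl X.toVarietyData Y.toVarietyData c e t c e) = _
      rw [incl_same]
    · rintro ⟨b', e'⟩ h1 h2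
      have h3 : e' ≠ e := by
        rintro rfl
        have h4 := Finset.HasAntidiagonal.mem_antidiagonal.1 h1
        apply h2
        rw [Prod.mk.injEq]
        exact ⟨by simp only at h4; omega, rfl⟩
      change _ * pairT X Y a b' c e' (z a b') (incl X.toVarietyData Y.toVarietyData c e t c e') = _
      rw [incl_ne (fun h => h3 h.2)]
      exact mul_eq_zero_of_right _ (pairT_zero_right _ _ _ _ _)
    · intro h
      exact absurd (Finset.HasAntidiagonal.mem_antidiagonal.2 hbe) h
  · rintro ⟨a', c'⟩ h1 h2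
    have h3 : c' ≠ c := by
      rintro rfl
      have h4 := Finset.HasAntidiagonal.mem_antidiagonal.1 h1
      apply h2
      rw [Prod.mk.injEq]
      exact ⟨by simp only at h4; omega, rfl⟩
    refine Finset.sum_eq_zero fun t' _ => ?_
    change _ * pairT X Y a' t'.1 c' t'.2 (z a' t'.1)
      (incl X.toVarietyData Y.toVarietyData c e t c' t'.2) = _
    rw [incl_ne (fun h => h3 h.1)]
    exact mul_eq_zero_of_right _ (pairT_zero_right _ _ _ _ _)
  · intro h
    exact absurd (Finset.HasAntidiagonal.mem_antidiagonal.2 hac) h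

theorem inter_incl_left {a b c e : ℕ} (hac : a + c = 2 * X.dim) (hbe : b + e = 2 * Y.dim)
    (t : Tens X.toVarietyData Y.toVarietyData a b) (w : PairC X Y) :
    inter X Y (incl X.toVarietyData Y.toVarietyData a b t) w =
      (-1) ^ (b * c) * pairT X Y a b c e t (w c e) := by
  unfold inter
  rw [Finset.sum_eq_single (a, c)]
  · rw [Finset.sum_eq_single (b, e)]
    · change _ * pairT X Y a b c e (incl X.toVarietyData Y.toVarietyData a b t a b) (w c e) = _
      rw [incl_same]
    · rintro ⟨b', e'⟩ h1 h2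
      have h3 : b' ≠ b := by
        rintro rfl
        have h4 := Finset.HasAntidiagonal.mem_antidiagonal.1 h1
        apply h2
        rw [Prod.mk.injEq]
        exact ⟨rfl, by simp only at h4; omega⟩
      change _ * pairT X Y a b' c e' (incl X.toVarietyData Y.toVarietyData a b t a b') (w c e') = _
      rw [incl_ne (fun h => h3 h.2)]
      exact mul_eq_zero_of_right _ (pairT_zero_left _ _ _ _ _)
    · intro h
      exact absurd (Finset.HasAntidiagonal.mem_antidiagonal.2 hbe) h
  · rintro ⟨a', c'⟩ h1 h2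
    have h3 : a' ≠ a := by
      rintro rfl
      have h4 := Finset.HasAntidiagonal.mem_antidiagonal.1 h1
      apply h2
      rw [Prod.mk.injEq]
      exact ⟨rfl, by simp only at h4; omega⟩
    refine Finset.sum_eq_zero fun t' _ => ?_
    change _ * pairT X Y a' t'.1 c' t'.2
      (incl X.toVarietyData Y.toVarietyData a b t a' t'.1) (w c' t'.2) = _
    rw [incl_ne (fun h => h3 h.1)]
    exact mul_eq_zero_of_right _ (pairT_zero_left _ _ _ _ _)
  · intro h
    exact absurd (Finset.HasAntidiagonal.mem_antidiagonal.2 hac) h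

end pairing

section comp

variable {X Y : VarietyData} {Q : ℕ} (hQ : 1 < Q) (hX : IsSmooth X Q) (hY : IsSmooth Y Q)
  (hno : ∀ (a b : ℕ) (α β : ℂ) (n : ℕ), a + b = 2 * n → IsEigenvalue X a α →
    IsEigenvalue Y b β → α * β = (Q : ℂ) ^ n → ∃ k : ℕ, α = (Q : ℂ) ^ k)

include hQ hX hY hno in
/-- The bidegrees of an invariant element. -/
theorem comp_even {n : ℕ} {w : PairH X Y} (hw : IsInvariant X Y Q n w) {a b : ℕ}
    (h : w a b ≠ 0) : ∃ i j, a = 2 * i ∧ b = 2 * j ∧ i + j = n := by
  have hfX := hX.finite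
  have hfY := hY.finite
  by_cases hab : a + b = 2 * n
  · rcases cases_pair hQ hX hY hno hab with h1 | ⟨i, j, ha, hb, hij, -⟩
    · exfalso
      apply h
      have hFw : dif (X.frob a) (Y.frob b) ((Q : ℂ) ^ n) (w a b) = 0 :=
        congrFun (congrFun hw.2 a) b
      refine gen_none (X.frob a) (Y.frob b) ((Q : ℂ) ^ n) h1 ?_
      rw [hFw]
      exact map_zero _
    · exact ⟨i, j, ha, hb, hij⟩
  · exact absurd (hw.1 a b hab) h

include hQ hX hY hno in
/-- The components of an invariant element. -/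
theorem comp_mem {n : ℕ} {w : PairH X Y} (hw : IsInvariant X Y Q n w) {i j : ℕ}
    (hij : i + j = n) (hss : Semisimple X Q i) :
    w (2 * i) (2 * j) ∈ Submodule.span ℂ
      (products (X.frob (2 * i)) (Y.frob (2 * j)) ((Q : ℂ) ^ i) ((Q : ℂ) ^ j)) := by
  have hfX := hX.finite
  have hfY := hY.finite
  have hQ0 : (Q : ℂ) ≠ 0 := by
    have : Q ≠ 0 := by omega
    exact_mod_cast this
  have hab : 2 * i + 2 * j = 2 * n := by omega
  have hFw : dif (X.frob (2 * i)) (Y.frob (2 * j)) ((Q : ℂ) ^ n) (w (2 * i) (2 * j)) = 0 :=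
    congrFun (congrFun hw.2 (2 * i)) (2 * j)
  have hc : (Q : ℂ) ^ i * (Q : ℂ) ^ j = (Q : ℂ) ^ n := by rw [← pow_add, hij]
  have hFw' : TensorProduct.map (X.frob (2 * i)) (Y.frob (2 * j)) (w (2 * i) (2 * j)) =
      (Q : ℂ) ^ n • w (2 * i) (2 * j) := sub_eq_zero.1 hFw
  rcases cases_pair hQ hX hY hno hab with h | ⟨i', j', hi, hj, -, h⟩
  · have h1 : w (2 * i) (2 * j) = 0 := by
      refine gen_none (X.frob (2 * i)) (Y.frob (2 * j)) ((Q : ℂ) ^ n) h ?_
      rw [hFw]
      exact map_zero _
    rw [h1]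
    exact Submodule.zero_mem _
  · obtain rfl : i = i' := by omega
    obtain rfl : j = j' := by omega
    exact mem_span_left _ _ (pow_ne_zero i hQ0) hc h (semisimpleAt hss) hFw'

end comp

section main

variable {X Y : CycleData} {Q : ℕ} (hQ : 1 < Q) (hX : HasCycles X Q) (hXd : HasDuality X Q)
  (hY : HasCycles Y Q)
  (hno : ∀ (a b : ℕ) (α β : ℂ) (n : ℕ), a + b = 2 * n → IsEigenvalue X.toVarietyData a α →
    IsEigenvalue Y.toVarietyData b β → α * β = (Q : ℂ) ^ n → ∃ k : ℕ, α = (Q : ℂ) ^ k)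
  (hT : StrongTate X Q) {Z : ProductCycles X Y} (hZ : IsProductCycles Q Z)

theorem smooth_of {V : VarietyData} (h : IsVariety V Q) : IsSmooth V Q :=
  ⟨h.finite, fun a α hα => (h.weights a α hα).ge, h.cyc_le, h.one_mem, h.res_one⟩

include hQ hX hXd hT in
/-- The dual systems of cycles on `X`. -/
theorem exists_cycles {i k : ℕ} (hik : i + k = X.dim) :
    ∃ (ι : Type) (_ : Fintype ι) (x : ι → X.H (2 * i)) (a : ι → X.H (2 * k)),
      (∀ j, x j ∈ X.cl i) ∧ (∀ j, a j ∈ X.cl k) ∧
      (∀ u, X.frob (2 * i) u = (Q : ℂ) ^ i • u → u = ∑ j, X.pair _ _ u (a j) • x j) ∧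
      LinearIndependent ℂ x := by
  have hf := hX.variety.finite
  have hQ0 : (Q : ℂ) ≠ 0 := by
    have : Q ≠ 0 := by omega
    exact_mod_cast this
  have hab : 2 * i + 2 * k = 2 * X.dim := by omega
  have hcl : ∀ i, ∀ x ∈ X.cl i, X.frob (2 * i) x = (Q : ℂ) ^ i • x := by
    intro i x hx
    refine mem_invariants.1 (hX.variety.cyc_le i ?_)
    rw [hX.span]
    exact Submodule.subset_span hx
  have hsp : ∀ i, ∀ x, X.frob (2 * i) x = (Q : ℂ) ^ i • x →
      x ∈ Submodule.span ℂ (X.cl i : Set (X.H (2 * i))) := by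
    intro i x hx
    rw [← hX.span]
    exact (hT i).1 (mem_invariants.2 hx)
  exact exists_system (X.frob (2 * i)) (X.frob (2 * k)) (X.pair (2 * i) (2 * k))
    (pow_ne_zero i hQ0) (by rw [← pow_add, hik]) (hXd.frob _ _ hab) (hXd.nondegenerate _ _ hab)
    (semisimpleAt (hT k).2) (X.cl i) (hcl i) (hsp i) (X.cl k) (hX.rat k) (hsp k)
    (hX.number i k hik)

include hQ hX hXd hY hno hT hZ in
/-- The components of the class of a cycle. -/
theorem component_eq {i j k : ℕ} (hik : i + k = X.dim) :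
    ∃ (ι : Type) (_ : Fintype ι) (x : ι → X.H (2 * i)) (a : ι → X.H (2 * k)),
      (∀ l, x l ∈ X.cl i) ∧ (∀ l, a l ∈ X.cl k) ∧ ∀ w ∈ Z.cl (i + j),
        (w (2 * i) (2 * j) : X.H (2 * i) ⊗[ℂ] Y.H (2 * j)) =
          ∑ l, x l ⊗ₜ[ℂ] push (2 * i) (2 * j) (a l) w := by
  obtain ⟨ι, hι, x, a, hx, ha, h, -⟩ := exists_cycles hQ hX hXd hT hik
  refine ⟨ι, hι, x, a, hx, ha, fun w hw => ?_⟩
  have h1 := comp_mem hQ (smooth_of hX.variety) (smooth_of hY.variety) hno
    (hZ.invariant _ w hw) (i := i) (j := j) rfl (hT i).2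
  have h2 : ∀ t : X.H (2 * i) ⊗[ℂ] Y.H (2 * j), t ∈ Submodule.span ℂ
      (products (X.frob (2 * i)) (Y.frob (2 * j)) ((Q : ℂ) ^ i) ((Q : ℂ) ^ j)) →
      t = ∑ l, x l ⊗ₜ[ℂ] contract t ((X.pair (2 * i) (2 * k)).flip (a l)) := by
    intro t ht
    induction ht using Submodule.span_induction with
    | mem t ht =>
      obtain ⟨u, v, hu, hv, rfl⟩ := ht
      simp only [contract_tmul, LinearMap.flip_apply]
      simp only [TensorProduct.tmul_smul]
      conv_lhs => rw [h u hu, TensorProduct.sum_tmul]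
      rfl
    | zero => simp [contract_zero]
    | add t t' _ _ ht ht' =>
      conv_lhs => rw [ht, ht']
      rw [← Finset.sum_add_distrib]
      refine Finset.sum_congr rfl fun l _ => ?_
      rw [contract_add, TensorProduct.tmul_add]
    | smul c t _ ht =>
      conv_lhs => rw [ht]
      rw [Finset.smul_sum]
      refine Finset.sum_congr rfl fun l _ => ?_
      rw [contract_smul, TensorProduct.tmul_smul]
  exact h2 _ h1

include hX in
theorem tensor_zero {a b : ℕ} (ha : 2 * X.dim < a) (t : X.H a ⊗[ℂ] Y.H b) : t = 0 := by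
  induction t with
  | zero => rfl
  | add t t' h h' => rw [h, h', add_zero]
  | tmul x y => rw [hX.vanish a ha x, TensorProduct.zero_tmul]

include hQ hX hXd hY hno hT hZ in
/-- All classes of cycles are sums of products. -/
theorem mem_closure {n : ℕ} {w : PairC X Y} (hw : w ∈ Z.cl n) :
    w ∈ AddSubgroup.closure (productClasses (X := X) (Y := Y) n) := by
  rw [eq_sum_incl (hZ.invariant n w hw).1]
  refine AddSubgroup.sum_mem _ ?_
  rintro ⟨a, b⟩ hab
  change incl X.toVarietyData Y.toVarietyData a b (w a b) ∈ _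
  by_cases h : w a b = 0
  · rw [h, map_zero]
    exact AddSubgroup.zero_mem _
  obtain ⟨i, j, rfl, rfl, rfl⟩ := comp_even hQ (smooth_of hX.variety) (smooth_of hY.variety) hno
    (hZ.invariant _ w hw) h
  have hi : i ≤ X.dim := by
    by_contra hlt
    exact h (tensor_zero hX (by omega) _)
  obtain ⟨k, hk⟩ := Nat.exists_eq_add_of_le hi
  obtain ⟨ι, _, x, a, hx, ha, h1⟩ := component_eq (j := j) hQ hX hXd hY hno hT hZ hk.symm
  have h2 : incl X.toVarietyData Y.toVarietyData (2 * i) (2 * j) (w (2 * i) (2 * j)) =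
      ∑ l, cross (X := X.toVarietyData) (Y := Y.toVarietyData) (x l)
        (push (2 * i) (2 * j) (a l) w) := by
    refine (congrArg (incl X.toVarietyData Y.toVarietyData (2 * i) (2 * j)) (h1 w hw)).trans ?_
    exact map_sum (incl X.toVarietyData Y.toVarietyData (2 * i) (2 * j)) _ _
  rw [h2]
  refine AddSubgroup.sum_mem _ fun l _ => AddSubgroup.subset_closure ?_
  exact ⟨i, j, rfl, x l, hx l, _, hZ.push_mem i j k hk.symm _ (ha l) w hw, rfl⟩

include hQ hX hXd hY hno hT hZ in
/-- Numerical equivalence: from `Y` to `X × Y`. -/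
theorem homIsNumP_of {n : ℕ} (h : ∀ j ≤ n, HomIsNum Y j) : HomIsNumP Z n := by
  intro m hm z hz hnum
  funext a b
  change z a b = 0
  by_contra hne
  obtain ⟨i, j, rfl, rfl, rfl⟩ := comp_even hQ (smooth_of hX.variety) (smooth_of hY.variety) hno
    (hZ.invariant _ z hz) hne
  have hi : i ≤ X.dim := by
    by_contra hlt
    exact hne (tensor_zero hX (by omega) _)
  obtain ⟨k, hk⟩ := Nat.exists_eq_add_of_le hi
  obtain ⟨ι, _, x, a, hx, ha, h1⟩ := component_eq (j := j) hQ hX hXd hY hno hT hZ hk.symm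
  refine hne ((h1 z hz).trans (Finset.sum_eq_zero fun l _ => ?_))
  have h2 := hZ.push_mem i j k hk.symm _ (ha l) z hz
  have h3 : push (2 * i) (2 * j) (a l) z = 0 := by
    by_cases hj : j ≤ Y.dim
    · obtain ⟨k', hk'⟩ := Nat.exists_eq_add_of_le hj
      refine h j (by omega) k' hk'.symm _ h2 fun y hy => ?_
      have h4 := hnum (cross (X := X.toVarietyData) (Y := Y.toVarietyData) (a l) y) (by
        have h5 := hZ.products k k' _ (ha l) y hy
        rwa [show k + k' = m by omega] at h5)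
      rw [cross_eq, inter_incl_right (a := 2 * i) (b := 2 * j) (by omega) (by omega),
        Even.neg_one_pow ⟨j * (2 * k), by ring⟩, one_mul] at h4
      have h5 := pairT_right (2 * i) (2 * j) (2 * k) (2 * k') (z (2 * i) (2 * j)) (a l) y
      exact h5.symm.trans h4
    · exact hY.vanish _ (by omega) _
  exact (congrArg (fun t => x l ⊗ₜ[ℂ] t) h3).trans (TensorProduct.tmul_zero _ _)

include hX hY hZ in
/-- Numerical equivalence: from `X × Y` to `Y`. -/
theorem homIsNum_of {n : ℕ} (h : HomIsNumP Z n) : HomIsNum Y n := by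
  intro k hk y hy hnum
  have h1 := hZ.products 0 n X.one hX.one_mem y hy
  rw [zero_add] at h1
  have h2 := h (X.dim + k) (by omega) _ h1 fun w hw => by
    have h3 := inter_incl_left (X := X) (Y := Y) (a := 2 * 0) (c := 2 * X.dim) (b := 2 * n)
      (e := 2 * k) (by omega) (by omega) (tm X.one y) w
    have h4 := pairT_left (X := X) (Y := Y) (2 * 0) (2 * n) (2 * X.dim) (2 * k) X.one y
      (w (2 * X.dim) (2 * k))
    have h5 : X.pair (2 * 0) (2 * X.dim) X.one = (X.pair (2 * X.dim) (2 * 0)).flip X.one := by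
      refine LinearMap.ext fun x => ?_
      have h6 := hX.symm (2 * 0) (2 * X.dim) X.one x
      rw [Even.neg_one_pow ⟨0, by ring⟩, one_mul] at h6
      exact h6
    rw [h5] at h4
    have h6 := hnum _ (hZ.push_mem X.dim k 0 (by omega) _ hX.one_mem w hw)
    refine h3.trans (mul_eq_zero_of_right _ (h4.trans h6))
  have h7 := resLeft_incl (X := X.toVarietyData) (Y := Y.toVarietyData) (2 * n) X.one y
  have h8 : incl X.toVarietyData Y.toVarietyData 0 (2 * n) (tm X.one y) = 0 := h2
  rw [h8, resLeft_zero, hX.variety.res_one, one_smul] at h7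
  exact h7.symm

include hQ hX hXd hY hno hT hZ in
/-- **The decoupling of the cycles.** -/
theorem cyclesDecoupled : CyclesDecoupled Z :=
  ⟨fun _ _ hw => mem_closure hQ hX hXd hY hno hT hZ hw, fun _ =>
    ⟨fun h n hn => homIsNum_of hX hY hZ (h n hn), fun h _ hn =>
      homIsNumP_of hQ hX hXd hY hno hT hZ fun j hj => h j (hj.trans hn)⟩⟩

end main

end Pool.Agent.H855.DP
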