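import Mathlib
import Pool.Agent.H855.DP.NumDefs

/-!
# Ranks and pole orders for products of two varieties: definitions
-/

set_option autoImplicit false

namespace Pool.Agent.H855.DP

open NumberField Module TensorProduct Pool.Agent.V1168.EV Pool.Agent.H855.CM

section

variable (X Y : VarietyData) (Q : ℕ)

/-- The elements of `H^(2 i)(X)` annihilated by a power of `F - Q ^ i`: the dimension of this space is the
multiplicity of the eigenvalue `Q ^ i` of Frobenius. -/
noncomputable def generalized (i : ℕ) : Submodule ℂ (X.H (2 * i)) :=
  Module.End.maxGenEigenspace (X.frob (2 * i)) ((Q : ℂ) ^ i)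

/-- The Frobenius endomorphism of the cohomology of `X × Y`. -/
noncomputable def frobP : PairH X Y →ₗ[ℂ] PairH X Y where
  toFun w := fun a b => frobT X Y a b (w a b)
  map_add' w w' := by
    funext a b
    exact map_add (frobT X Y a b) (w a b) (w' a b)
  map_smul' c w := by
    funext a b
    exact map_smul (frobT X Y a b) c (w a b)

/-- The part of degree `m` of the cohomology of `X × Y`. -/
def degreePart (m : ℕ) : Submodule ℂ (PairH X Y) where
  carrier := {w | HasDegree X Y m w}
  zero_mem' := fun _ _ _ => rfl
  add_mem' {w w'} hw hw' := by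
    intro a b h
    change w a b + w' a b = 0
    rw [hw a b h, hw' a b h, add_zero]
  smul_mem' c w hw := by
    intro a b h
    change c • w a b = 0
    rw [hw a b h, smul_zero]

/-- The elements of degree `2 n` which Frobenius multiplies by `Q ^ n`. -/
noncomputable def invariantsP (n : ℕ) : Submodule ℂ (PairH X Y) :=
  degreePart X Y (2 * n) ⊓ Module.End.eigenspace (frobP X Y) ((Q : ℂ) ^ n)

/-- The elements of degree `2 n` annihilated by a power of `F - Q ^ n`: the dimension of this space is
the multiplicity of the eigenvalue `Q ^ n` of Frobenius on `H^(2 n)(X × Y)`. -/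
noncomputable def generalizedP (n : ℕ) : Submodule ℂ (PairH X Y) :=
  degreePart X Y (2 * n) ⊓ Module.End.maxGenEigenspace (frobP X Y) ((Q : ℂ) ^ n)

end

section

variable (Y : CycleData) (Q : ℕ)

/-- The rank of the group of classes of cycles of codimension `j` is the dimension of the space of
Frobenius invariants. -/
def RankIsDim (j : ℕ) : Prop :=
  Module.rank ℤ (Y.cl j) = (Module.finrank ℂ (invariants Y.toVarietyData Q j) : Cardinal)

/-- The rank of the group of classes of cycles of codimension `j` is the multiplicity of the eigenvalue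
`Q ^ j` of Frobenius on `H^(2 j)(Y)`. -/
def RankIsPole (j : ℕ) : Prop :=
  Module.rank ℤ (Y.cl j) = (Module.finrank ℂ (generalized Y.toVarietyData Q j) : Cardinal)

variable {X Y : CycleData} (Q : ℕ) (Z : ProductCycles X Y)

/-- The same for `X × Y`. -/
def RankIsDimP (n : ℕ) : Prop :=
  Module.rank ℤ (Z.cl n) =
    (Module.finrank ℂ (invariantsP X.toVarietyData Y.toVarietyData Q n) : Cardinal)

/-- The same for `X × Y`. -/
def RankIsPoleP (n : ℕ) : Prop :=
  Module.rank ℤ (Z.cl n) =
    (Module.finrank ℂ (generalizedP X.toVarietyData Y.toVarietyData Q n) : Cardinal)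

/-- The conclusion about `X` and `Y`:

1. the rank of the group of classes of cycles of codimension `n` on `X × Y` is the sum over `i + j = n` of
  the products of the dimension of `E^i(X)` and the rank of the group of classes of cycles of
  codimension `j` on `Y`;
2. the ranks for `X × Y` are the dimensions of the spaces of invariants in the codimensions up to `m` if
  and only if this is true for `Y`;
3. the ranks for `X × Y` are the multiplicities of the eigenvalues in the codimensions up to `m` if and
  only if this is true for `Y`. -/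
def RanksDecoupled : Prop :=
  (∀ n, Module.rank ℤ (Z.cl n) = ∑ s ∈ Finset.HasAntidiagonal.antidiagonal n,
    (Module.finrank ℂ (invariants X.toVarietyData Q s.1) : Cardinal) * Module.rank ℤ (Y.cl s.2)) ∧
  (∀ m, (∀ n ≤ m, RankIsDimP Q Z n) ↔ ∀ n ≤ m, RankIsDim Y Q n) ∧
  ∀ m, (∀ n ≤ m, RankIsPoleP Q Z n) ↔ ∀ n ≤ m, RankIsPole Y Q n

end

/-- For all finite families of Weil numbers `π j` for `p ^ a` (any `a > 0`), each in one of the
fields `K i`, such that no vector in `E` is a combination of the slope vectors of the `π j`, for all
finite fields with `Q = p ^ r` elements and all smooth projective varieties `X` and `Y` over this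
field, where the Frobenius eigenvalues of `X` are generated by the `π j`, those of `Y` come from `Ω`,
one of `X` and `Y` is tight, and `X` satisfies the strong form of the conjecture of Tate: the ranks
and pole orders for `X` and `Y` are decoupled. -/
def RanksDecoupledOutside {p : ℕ} [Fact p.Prime] (ν : PadicAlgCl p ≃+* ℂ) {I : Type}
    (K : I → Type) [∀ i, Field (K i)] [∀ i, NumberField (K i)] [∀ i, IsCMField (K i)]
    (Ω : Finset ℂ) (E : Finset (Σ i, ((K i →+* ℂ) → ℝ))) : Prop :=
  ∀ (J : Type) [Fintype J] (b : J → I) (a : ℕ) (π : ∀ j, K (b j)), 0 < a →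
    (∀ j, π j * IsCMField.complexConj (K (b j)) (π j) = (p : K (b j)) ^ a) →
    (∀ e ∈ E, ¬ IsCombination ν a π e.2) →
    ∀ (r : ℕ) (X Y : CycleData) (Z : ProductCycles X Y), 0 < r → HasCycles X (p ^ r) →
      HasDuality X (p ^ r) → HasCycles Y (p ^ r) → IsProductCycles (p ^ r) Z →
      GeneratedBy X.toVarietyData p π → EigenvaluesFrom Y.toVarietyData p Ω →
      (IsTight ν X.toVarietyData (p ^ r) ∨ IsTight ν Y.toVarietyData (p ^ r)) →
      StrongTate X (p ^ r) → RanksDecoupled (p ^ r) Z

end Pool.Agent.H855.DP
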