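import Mathlib
import Pool.Agent.H855.DP.RankDefs
import Pool.Agent.H855.DP.Num

/-!
# Ranks and pole orders for products of two varieties
-/

set_option autoImplicit false
set_option linter.unusedSectionVars false

namespace Pool.Agent.H855.DP

open Module TensorProduct Polynomial

section card

/-- Sigma types over `Option`. -/
def sigmaOption {α : Type} (M : Option α → Type) :
    (Σ i : Option α, M i) ≃ M none ⊕ (Σ a : α, M (some a)) where
  toFun x := match x with
    | ⟨none, x⟩ => Sum.inl x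
    | ⟨some a, x⟩ => Sum.inr ⟨a, x⟩
  invFun x := match x with
    | Sum.inl x => ⟨none, x⟩
    | Sum.inr ⟨a, x⟩ => ⟨some a, x⟩
  left_inv := by rintro ⟨_ | _, _⟩ <;> rfl
  right_inv := by rintro (_ | ⟨_, _⟩) <;> rfl

theorem card_sum_option {α : Type} (f : Option α → Cardinal.{0}) :
    Cardinal.sum f = f none + Cardinal.sum fun a => f (some a) := by
  have h1 : Cardinal.sum f = Cardinal.mk (Σ i, (f i).out) := rfl
  have h2 : (Cardinal.sum fun a => f (some a)) = Cardinal.mk (Σ a, (f (some a)).out) := rfl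
  rw [h1, h2, Cardinal.mk_congr (sigmaOption fun i => (f i).out), Cardinal.mk_sum]
  simp

theorem card_sum_fintype (ι : Type) [Fintype ι] (f : ι → Cardinal.{0}) :
    Cardinal.sum f = ∑ i, f i := by
  revert f
  refine Fintype.induction_empty_option
    (P := fun (ι : Type) _ => ∀ f : ι → Cardinal.{0}, Cardinal.sum f = ∑ i, f i) ?_ ?_ ?_ ι
  · intro α β _ e h f
    let _ : Fintype α := Fintype.ofEquiv β e.symm
    have h1 : (Cardinal.sum fun a => f (e a)) = ∑ a, f (e a) := h fun a => f (e a)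
    have h2 : Cardinal.sum f = Cardinal.sum fun a => f (e a) := by
      have h3 : Cardinal.sum f = Cardinal.mk (Σ i, (f i).out) := rfl
      have h4 : (Cardinal.sum fun a => f (e a)) = Cardinal.mk (Σ i, (f (e i)).out) := rfl
      rw [h3, h4]
      exact Cardinal.mk_congr (Equiv.sigmaCongrLeft (β := fun i => (f i).out) e).symm
    rw [h2, h1]
    exact Fintype.sum_equiv e _ _ fun _ => rfl
  · intro f
    have h3 : Cardinal.sum f = Cardinal.mk (Σ i, (f i).out) := rfl
    rw [h3]
    simp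
  · intro α _ h f
    rw [card_sum_option, h, Fintype.sum_option]

/-- Comparison of sums. -/
theorem iff_of_sums (e : ℕ → ℕ) (he : 0 < e 0) (r R : ℕ → Cardinal.{0}) (f g : ℕ → ℕ)
    (hR : ∀ n, R n = ∑ s ∈ Finset.HasAntidiagonal.antidiagonal n, (e s.1 : Cardinal) * r s.2)
    (hg : ∀ n, g n = ∑ s ∈ Finset.HasAntidiagonal.antidiagonal n, e s.1 * f s.2) (m : ℕ) :
    (∀ n ≤ m, R n = g n) ↔ ∀ n ≤ m, r n = f n := by
  constructor
  · intro h n
    induction n using Nat.strong_induction_on with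
    | _ n ih =>
      intro hn
      have h1 := h n hn
      rw [hR, hg] at h1
      have hmem : ((0, n) : ℕ × ℕ) ∈ Finset.HasAntidiagonal.antidiagonal n := by
        rw [Finset.HasAntidiagonal.mem_antidiagonal]
        simp
      rw [← Finset.add_sum_erase _ _ hmem, ← Finset.add_sum_erase _ _ hmem] at h1
      have h2 : ∑ s ∈ (Finset.HasAntidiagonal.antidiagonal n).erase (0, n),
          (e s.1 : Cardinal) * r s.2 =
          ((∑ s ∈ (Finset.HasAntidiagonal.antidiagonal n).erase (0, n), e s.1 * f s.2 : ℕ) :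
            Cardinal) := by
        rw [Nat.cast_sum]
        refine Finset.sum_congr rfl fun s hs => ?_
        obtain ⟨hne, hs'⟩ := Finset.mem_erase.1 hs
        have h3 := Finset.HasAntidiagonal.mem_antidiagonal.1 hs'
        have h4 : s.2 < n := by
          by_contra hge
          apply hne
          have : s.1 = 0 := by omega
          have : s.2 = n := by omega
          exact Prod.ext (by assumption) (by assumption)
        rw [ih s.2 h4 (h4.le.trans hn), Nat.cast_mul]
      rw [h2, Nat.cast_add, Cardinal.add_nat_inj] at h1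
      have h1' : (e 0 : Cardinal) * r n = ((e 0 * f n : ℕ) : Cardinal) := h1
      have h5 : r n < Cardinal.aleph0 := by
        refine lt_of_le_of_lt ?_ (Cardinal.natCast_lt_aleph0 (n := e 0 * f n))
        rw [← h1']
        refine le_mul_of_one_le_left' ?_
        exact_mod_cast he
      obtain ⟨k, hk⟩ := Cardinal.lt_aleph0.1 h5
      rw [hk] at h1' ⊢
      have h6 : e 0 * k = e 0 * f n := by exact_mod_cast h1'
      exact_mod_cast Nat.eq_of_mul_eq_mul_left he h6
  · intro h n hn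
    rw [hR, hg, Nat.cast_sum]
    refine Finset.sum_congr rfl fun s hs => ?_
    have h3 := Finset.HasAntidiagonal.mem_antidiagonal.1 hs
    rw [h s.2 (by omega), Nat.cast_mul]

end card

section gen

variable {U V : Type} [AddCommGroup U] [Module ℂ U] [Module.Finite ℂ U]
  [AddCommGroup V] [Module ℂ V] [Module.Finite ℂ V]

/-- No generalised eigenvectors, if there are no pairs of eigenvalues. -/
theorem gen_none_pow (F : Module.End ℂ U) (G : Module.End ℂ V) (c : ℂ)
    (h : ∀ α β, Module.End.HasEigenvalue F α → Module.End.HasEigenvalue G β → α * β ≠ c) (N : ℕ)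
    {w : U ⊗[ℂ] V} (hw : ((dif F G c : Module.End ℂ (U ⊗[ℂ] V)) ^ N) w = 0) : w = 0 := by
  induction N generalizing w with
  | zero => simpa using hw
  | succ N ih =>
    rw [pow_succ, Module.End.mul_apply] at hw
    have h1 := ih hw
    refine gen_none F G c h ?_
    rw [h1, map_zero]

/-- Generalised eigenvectors are fixed by the projector. -/
theorem gen_fixed_pow (F : Module.End ℂ U) (G : Module.End ℂ V) (c α₀ : ℂ)
    (h : ∀ α β, Module.End.HasEigenvalue F α → Module.End.HasEigenvalue G β → α * β = c → α = α₀)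
    (P : ℂ[X]) (hP : P.eval α₀ = 1) (hFP : ∀ u, F (aeval F P u) = α₀ • aeval F P u) (N : ℕ)
    {w : U ⊗[ℂ] V} (hw : ((dif F G c : Module.End ℂ (U ⊗[ℂ] V)) ^ N) w = 0) :
    LinearMap.rTensor V (aeval F P) w = w := by
  have hEE : ∀ u, aeval F P (aeval F P u) = aeval F P u := fun u => by
    have h1 := aeval_eigen F P (hFP u)
    rwa [hP, one_smul] at h1
  have hFE : ∀ u, F (aeval F P u) = aeval F P (F u) := fun u => aeval_comm F P u
  induction N generalizing w with
  | zero =>
    have h1 : w = 0 := by simpa using hw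
    rw [h1, map_zero]
  | succ N ih =>
    rw [pow_succ, Module.End.mul_apply] at hw
    have h1 := ih hw
    have h2 : dif F G c (LinearMap.rTensor V (aeval F P) w - w) = 0 := by
      rw [map_sub, dif_r F (aeval F P) hFE, h1, sub_self]
    have h3 := gen_fixed F G c α₀ h P hP hFP
      (w := LinearMap.rTensor V (aeval F P) w - w) (by rw [h2, map_zero])
    have h4 : LinearMap.rTensor V (aeval F P) (LinearMap.rTensor V (aeval F P) w) =
        LinearMap.rTensor V (aeval F P) w := by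
      have h5 : (aeval F P : U →ₗ[ℂ] U) ∘ₗ aeval F P = aeval F P := LinearMap.ext hEE
      rw [← LinearMap.comp_apply, ← LinearMap.rTensor_comp, h5]
    rw [map_sub, h4, sub_self] at h3
    exact (sub_eq_zero.1 h3.symm)

end gen

section pairs

variable {X Y : VarietyData} {Q : ℕ}

/-- The endomorphism `F - Q ^ n` of the cohomology of `X × Y`. -/
noncomputable def devEnd (X Y : VarietyData) (Q n : ℕ) : Module.End ℂ (PairH X Y) :=
  frobP X Y - (Q : ℂ) ^ n • 1

theorem devEnd_apply (n : ℕ) (w : PairH X Y) (a b : ℕ) :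
    devEnd X Y Q n w a b = dif (X.frob a) (Y.frob b) ((Q : ℂ) ^ n) (w a b) := rfl

theorem devEnd_pow_apply (n N : ℕ) (w : PairH X Y) (a b : ℕ) :
    (devEnd X Y Q n ^ N) w a b =
      ((dif (X.frob a) (Y.frob b) ((Q : ℂ) ^ n) :
        Module.End ℂ (X.H a ⊗[ℂ] Y.H b)) ^ N) (w a b) := by
  induction N generalizing w with
  | zero => rfl
  | succ N ih =>
    rw [pow_succ, Module.End.mul_apply, ih, devEnd_apply, pow_succ]
    rfl

theorem mem_invariantsP {n : ℕ} {w : PairH X Y} :
    w ∈ invariantsP X Y Q n ↔ IsInvariant X Y Q n w := by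
  unfold invariantsP IsInvariant
  rw [Submodule.mem_inf, Module.End.mem_eigenspace_iff]
  refine and_congr Iff.rfl ?_
  constructor
  · intro h
    have h1 : frobP X Y w - (Q : ℂ) ^ n • w = 0 := by rw [h, sub_self]
    exact h1
  · intro h
    have h1 : frobP X Y w - (Q : ℂ) ^ n • w = 0 := h
    exact sub_eq_zero.1 h1

theorem mem_generalizedP {n : ℕ} {w : PairH X Y} :
    w ∈ generalizedP X Y Q n ↔ HasDegree X Y (2 * n) w ∧ ∃ N, (devEnd X Y Q n ^ N) w = 0 := by
  unfold generalizedP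
  rw [Submodule.mem_inf, Module.End.mem_maxGenEigenspace]
  rfl

variable (hQ : 1 < Q) (hX : IsSmooth X Q) (hY : IsSmooth Y Q)
  (hno : ∀ (a b : ℕ) (α β : ℂ) (n : ℕ), a + b = 2 * n → IsEigenvalue X a α →
    IsEigenvalue Y b β → α * β = (Q : ℂ) ^ n → ∃ k : ℕ, α = (Q : ℂ) ^ k)

include hQ hX hY hno in
/-- The bidegrees of a generalised invariant element. -/
theorem gen_even {n N : ℕ} {w : PairH X Y} (hd : HasDegree X Y (2 * n) w)
    (hw : (devEnd X Y Q n ^ N) w = 0) {a b : ℕ} (h : w a b ≠ 0) :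
    ∃ i j, a = 2 * i ∧ b = 2 * j ∧ i + j = n := by
  have hfX := hX.finite
  have hfY := hY.finite
  by_cases hab : a + b = 2 * n
  · rcases cases_pair hQ hX hY hno hab with h1 | ⟨i, j, ha, hb, hij, -⟩
    · exfalso
      apply h
      refine gen_none_pow (X.frob a) (Y.frob b) ((Q : ℂ) ^ n) h1 N ?_
      have h2 := congrFun (congrFun hw a) b
      rw [devEnd_pow_apply] at h2
      exact h2
    · exact ⟨i, j, ha, hb, hij⟩
  · exact absurd (hd a b hab) h

include hQ hX hY hno in
/-- The components of a generalised invariant element: they are fixed by a projector to the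
eigenspace. -/
theorem gen_comp {n N : ℕ} {w : PairH X Y} (hw : (devEnd X Y Q n ^ N) w = 0) {i j : ℕ}
    (hij : i + j = n) (hss : Semisimple X Q i) :
    ∃ P : ℂ[X], (∀ u, X.frob (2 * i) (aeval (X.frob (2 * i) : Module.End ℂ (X.H (2 * i))) P u) =
      (Q : ℂ) ^ i • aeval (X.frob (2 * i) : Module.End ℂ (X.H (2 * i))) P u) ∧
      LinearMap.rTensor (Y.H (2 * j)) (aeval (X.frob (2 * i) : Module.End ℂ (X.H (2 * i))) P)
        (w (2 * i) (2 * j)) = w (2 * i) (2 * j) := by
  have hfX := hX.finite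
  have hfY := hY.finite
  obtain ⟨P, hP, hFP⟩ := exists_projector (X.frob (2 * i)) ((Q : ℂ) ^ i) (semisimpleAt hss)
  refine ⟨P, hFP, ?_⟩
  have hab : 2 * i + 2 * j = 2 * n := by omega
  have h2 := congrFun (congrFun hw (2 * i)) (2 * j)
  rw [devEnd_pow_apply] at h2
  rcases cases_pair hQ hX hY hno hab with h | ⟨i', j', hi, hj, -, h⟩
  · have h1 : w (2 * i) (2 * j) = 0 :=
      gen_none_pow (X.frob (2 * i)) (Y.frob (2 * j)) ((Q : ℂ) ^ n) h N h2
    rw [h1]
    exact map_zero _
  · obtain rfl : i = i' := by omega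
    obtain rfl : j = j' := by omega
    exact gen_fixed_pow (X.frob (2 * i)) (Y.frob (2 * j)) ((Q : ℂ) ^ n) ((Q : ℂ) ^ i)
      (fun α β hα hβ hαβ => (h α β hα hβ hαβ).1) P hP hFP N h2

end pairs

section system

/-- Dual systems of cycles and functionals on `X`. -/
structure Sys (X : CycleData) (Q : ℕ) where
  /-- the index sets -/
  ι : ℕ → Type
  /-- they are finite -/
  fin : ∀ i, Fintype (ι i)
  /-- the cycles -/
  x : ∀ i, ι i → X.H (2 * i)
  /-- the functionals -/
  φ : ∀ i, ι i → (X.H (2 * i) →ₗ[ℂ] ℂ)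
  mem : ∀ i l, x i l ∈ X.cl i
  eig : ∀ i l, X.frob (2 * i) (x i l) = (Q : ℂ) ^ i • x i l
  expand : ∀ i u, X.frob (2 * i) u = (Q : ℂ) ^ i • u → u = ∑ l, φ i l u • x i l
  li : ∀ i, LinearIndependent ℂ (x i)

attribute [instance] Sys.fin

variable {X Y : CycleData} {Q : ℕ}

theorem Sys.dual (S : Sys X Q) (i : ℕ) (l l' : S.ι i) [DecidableEq (S.ι i)] :
    S.φ i l' (S.x i l) = if l' = l then 1 else 0 := by
  have h1 := S.expand i (S.x i l) (S.eig i l)
  have h2 : ∑ l', (S.φ i l' (S.x i l) - if l' = l then 1 else 0) • S.x i l' = 0 := by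
    simp only [sub_smul, Finset.sum_sub_distrib]
    rw [← h1]
    simp
  have h3 := Fintype.linearIndependent_iff.1 (S.li i) _ h2 l'
  exact sub_eq_zero.1 h3

/-- The number of elements of the system is the dimension of the space of invariants. -/
theorem Sys.card (S : Sys X Q) (i : ℕ) :
    Fintype.card (S.ι i) = Module.finrank ℂ (invariants X.toVarietyData Q i) := by
  have h1 : Submodule.span ℂ (Set.range (S.x i)) = invariants X.toVarietyData Q i := by
    refine le_antisymm ?_ ?_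
    · rw [Submodule.span_le]
      rintro _ ⟨l, rfl⟩
      exact mem_invariants.2 (S.eig i l)
    · intro u hu
      rw [S.expand i u (mem_invariants.1 hu)]
      exact Submodule.sum_mem _ fun l _ => Submodule.smul_mem _ _
        (Submodule.subset_span ⟨l, rfl⟩)
  rw [← h1, finrank_span_eq_card (S.li i)]

/-- The sum of the products. -/
noncomputable def psi (S : Sys X Q) (Y : CycleData) (n : ℕ) :
    (∀ s : {s // s ∈ Finset.HasAntidiagonal.antidiagonal n}, S.ι s.1.1 → Y.H (2 * s.1.2)) →ₗ[ℂ]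
      PairC X Y where
  toFun y := ∑ s, ∑ l, incl X.toVarietyData Y.toVarietyData (2 * s.1.1) (2 * s.1.2)
    (tm (S.x s.1.1 l) (y s l))
  map_add' y y' := by
    rw [← Finset.sum_add_distrib]
    refine Finset.sum_congr rfl fun s _ => ?_
    rw [← Finset.sum_add_distrib]
    refine Finset.sum_congr rfl fun l _ => ?_
    rw [← map_add]
    exact congrArg _ (TensorProduct.tmul_add _ _ _)
  map_smul' c y := by
    rw [RingHom.id_apply, Finset.smul_sum]
    refine Finset.sum_congr rfl fun s _ => ?_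
    rw [Finset.smul_sum]
    refine Finset.sum_congr rfl fun l _ => ?_
    rw [← map_smul]
    exact congrArg _ (TensorProduct.tmul_smul _ _ _)

variable (S : Sys X Q)

theorem psi_comp {n : ℕ}
    (y : ∀ s : {s // s ∈ Finset.HasAntidiagonal.antidiagonal n}, S.ι s.1.1 → Y.H (2 * s.1.2))
    (s : {s // s ∈ Finset.HasAntidiagonal.antidiagonal n}) :
    psi S Y n y (2 * s.1.1) (2 * s.1.2) = ∑ l, tm (S.x s.1.1 l) (y s l) := by
  change (∑ s, ∑ l, incl X.toVarietyData Y.toVarietyData (2 * s.1.1) (2 * s.1.2)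
    (tm (S.x s.1.1 l) (y s l)) : PairC X Y) _ _ = _
  rw [sum_apply, Finset.sum_eq_single s]
  · rw [sum_apply]
    exact Finset.sum_congr rfl fun l _ => incl_same _ _ _
  · intro s' _ hne
    rw [sum_apply]
    refine Finset.sum_eq_zero fun l _ => incl_ne ?_ _
    rintro ⟨h1, h2⟩
    apply hne
    refine Subtype.ext (Prod.ext ?_ ?_)
    · omega
    · omega
  · intro h
    exact absurd (Finset.mem_univ s) h

theorem psi_degree {n : ℕ}
    (y : ∀ s : {s // s ∈ Finset.HasAntidiagonal.antidiagonal n}, S.ι s.1.1 → Y.H (2 * s.1.2)) :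
    HasDegree X.toVarietyData Y.toVarietyData (2 * n) (psi S Y n y) := by
  intro a b hab
  change (∑ s, ∑ l, incl X.toVarietyData Y.toVarietyData (2 * s.1.1) (2 * s.1.2)
    (tm (S.x s.1.1 l) (y s l)) : PairC X Y) _ _ = _
  rw [sum_apply]
  refine Finset.sum_eq_zero fun s _ => ?_
  rw [sum_apply]
  refine Finset.sum_eq_zero fun l _ => incl_ne ?_ _
  rintro ⟨h1, h2⟩
  have h3 := Finset.HasAntidiagonal.mem_antidiagonal.1 s.2
  exact hab (by omega)

theorem psi_injective (n : ℕ) : Function.Injective (psi S Y n) := by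
  classical
  intro y y' h
  funext s l
  have h1 : (∑ l, S.x s.1.1 l ⊗ₜ[ℂ] y s l : X.H (2 * s.1.1) ⊗[ℂ] Y.H (2 * s.1.2)) =
      ∑ l, S.x s.1.1 l ⊗ₜ[ℂ] y' s l :=
    (psi_comp S y s).symm.trans ((congrFun (congrFun h (2 * s.1.1)) (2 * s.1.2)).trans
      (psi_comp S y' s))
  have h2 : ∀ z : S.ι s.1.1 → Y.H (2 * s.1.2),
      contract (∑ l, S.x s.1.1 l ⊗ₜ[ℂ] z l) (S.φ s.1.1 l) = z l := by
    intro z
    have h3 : ∀ t : Finset (S.ι s.1.1), contract (∑ l ∈ t, S.x s.1.1 l ⊗ₜ[ℂ] z l) (S.φ s.1.1 l) =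
        ∑ l' ∈ t, (S.φ s.1.1 l (S.x s.1.1 l')) • z l' := by
      intro t
      induction t using Finset.induction_on with
      | empty => simp [contract_zero]
      | insert l' t hl ih =>
        rw [Finset.sum_insert hl, Finset.sum_insert hl, contract_add, contract_tmul, ih]
    rw [h3, Finset.sum_eq_single l]
    · rw [S.dual, if_pos rfl, one_smul]
    · intro l' _ hne
      rw [S.dual, if_neg (fun h => hne h.symm), zero_smul]
    · intro h
      exact absurd (Finset.mem_univ l) h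
  rw [← h2 (y s), h1, h2]

theorem psi_zero {n : ℕ}
    (y : ∀ s : {s // s ∈ Finset.HasAntidiagonal.antidiagonal n}, S.ι s.1.1 → Y.H (2 * s.1.2))
    {a b : ℕ} (h : ¬ ∃ i j, a = 2 * i ∧ b = 2 * j ∧ i + j = n) : psi S Y n y a b = 0 := by
  change (∑ s, ∑ l, incl X.toVarietyData Y.toVarietyData (2 * s.1.1) (2 * s.1.2)
    (tm (S.x s.1.1 l) (y s l)) : PairC X Y) _ _ = _
  rw [sum_apply]
  refine Finset.sum_eq_zero fun s _ => ?_
  rw [sum_apply]
  refine Finset.sum_eq_zero fun l _ => incl_ne ?_ _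
  rintro ⟨h1, h2⟩
  exact h ⟨s.1.1, s.1.2, h1, h2, Finset.HasAntidiagonal.mem_antidiagonal.1 s.2⟩

/-- Elements in the image. -/
theorem eq_psi {n : ℕ} {w : PairC X Y}
    (he : ∀ a b, w a b ≠ 0 → ∃ i j, a = 2 * i ∧ b = 2 * j ∧ i + j = n)
    (hc : ∀ i j, i + j = n → (w (2 * i) (2 * j) : X.H (2 * i) ⊗[ℂ] Y.H (2 * j)) =
      ∑ l, S.x i l ⊗ₜ[ℂ] contract (w (2 * i) (2 * j)) (S.φ i l)) :
    w = psi S Y n fun s l => contract (w (2 * s.1.1) (2 * s.1.2)) (S.φ s.1.1 l) := by
  funext a b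
  by_cases h : ∃ i j, a = 2 * i ∧ b = 2 * j ∧ i + j = n
  · obtain ⟨i, j, rfl, rfl, hij⟩ := h
    have h1 := psi_comp S (Y := Y)
      (fun s l => contract (w (2 * s.1.1) (2 * s.1.2)) (S.φ s.1.1 l))
      (⟨(i, j), Finset.HasAntidiagonal.mem_antidiagonal.2 hij⟩ :
        {s // s ∈ Finset.HasAntidiagonal.antidiagonal n})
    exact (hc i j hij).trans h1.symm
  · have h1 : w a b = 0 := by
      by_contra hne
      exact h (he a b hne)
    rw [h1]
    exact (psi_zero S _ h).symm

theorem devEnd_term {n i j : ℕ} (hij : i + j = n) (l : S.ι i) (y : Y.H (2 * j)) :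
    devEnd X.toVarietyData Y.toVarietyData Q n
      (incl X.toVarietyData Y.toVarietyData (2 * i) (2 * j) (tm (S.x i l) y)) =
    incl X.toVarietyData Y.toVarietyData (2 * i) (2 * j)
      (tm (S.x i l) ((Q : ℂ) ^ i • (Y.frob (2 * j) y - (Q : ℂ) ^ j • y))) := by
  refine (devP_incl n (2 * i) (2 * j) _).trans ?_
  refine congrArg _ ?_
  change TensorProduct.map (X.frob (2 * i)) (Y.frob (2 * j)) (S.x i l ⊗ₜ[ℂ] y) -
    (Q : ℂ) ^ n • (S.x i l ⊗ₜ[ℂ] y) =
      S.x i l ⊗ₜ[ℂ] ((Q : ℂ) ^ i • (Y.frob (2 * j) y - (Q : ℂ) ^ j • y))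
  rw [TensorProduct.map_tmul, S.eig, ← hij, pow_add, smul_sub, TensorProduct.tmul_sub, smul_smul,
    TensorProduct.tmul_smul, TensorProduct.tmul_smul, ← TensorProduct.smul_tmul',
    TensorProduct.smul_tmul']

theorem devEnd_psi {n : ℕ}
    (y : ∀ s : {s // s ∈ Finset.HasAntidiagonal.antidiagonal n}, S.ι s.1.1 → Y.H (2 * s.1.2)) :
    devEnd X.toVarietyData Y.toVarietyData Q n (psi S Y n y) =
      psi S Y n fun s l => (Q : ℂ) ^ s.1.1 •
        (Y.frob (2 * s.1.2) (y s l) - (Q : ℂ) ^ s.1.2 • y s l) := by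
  change devEnd X.toVarietyData Y.toVarietyData Q n
    (∑ s, ∑ l, incl X.toVarietyData Y.toVarietyData (2 * s.1.1) (2 * s.1.2)
      (tm (S.x s.1.1 l) (y s l))) = ∑ s, ∑ l, incl X.toVarietyData Y.toVarietyData
        (2 * s.1.1) (2 * s.1.2) (tm (S.x s.1.1 l) ((Q : ℂ) ^ s.1.1 •
        (Y.frob (2 * s.1.2) (y s l) - (Q : ℂ) ^ s.1.2 • y s l)))
  rw [map_sum]
  refine Finset.sum_congr rfl fun s _ => ?_
  rw [map_sum]
  exact Finset.sum_congr rfl fun l _ =>
    devEnd_term S (Finset.HasAntidiagonal.mem_antidiagonal.1 s.2) l (y s l)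

theorem devEnd_pow_psi {n : ℕ} (N : ℕ)
    (y : ∀ s : {s // s ∈ Finset.HasAntidiagonal.antidiagonal n}, S.ι s.1.1 → Y.H (2 * s.1.2)) :
    (devEnd X.toVarietyData Y.toVarietyData Q n ^ N) (psi S Y n y) =
      psi S Y n fun s l => ((Q : ℂ) ^ s.1.1) ^ N •
        (((Y.frob (2 * s.1.2) - (Q : ℂ) ^ s.1.2 • 1 :
          Module.End ℂ (Y.H (2 * s.1.2))) ^ N) (y s l)) := by
  induction N generalizing y with
  | zero =>
    simp only [pow_zero, one_smul, Module.End.one_apply]
  | succ N ih =>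
    rw [pow_succ, Module.End.mul_apply, devEnd_psi, ih]
    congr 1
    funext s l
    rw [pow_succ ((Y.frob (2 * s.1.2) - (Q : ℂ) ^ s.1.2 • 1 : Module.End ℂ (Y.H (2 * s.1.2)))),
      Module.End.mul_apply, map_smul, smul_smul, pow_succ]
    rfl

theorem pow_psi_eq_zero (hQ : 1 < Q) {n N : ℕ}
    (y : ∀ s : {s // s ∈ Finset.HasAntidiagonal.antidiagonal n}, S.ι s.1.1 → Y.H (2 * s.1.2)) :
    (devEnd X.toVarietyData Y.toVarietyData Q n ^ N) (psi S Y n y) = 0 ↔
      ∀ s l, ((Y.frob (2 * s.1.2) - (Q : ℂ) ^ s.1.2 • 1 :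
          Module.End ℂ (Y.H (2 * s.1.2))) ^ N) (y s l) = 0 := by
  have hQ0 : (Q : ℂ) ≠ 0 := by
    have : Q ≠ 0 := by omega
    exact_mod_cast this
  rw [devEnd_pow_psi]
  constructor
  · intro h s l
    have h1 := psi_injective S n (h.trans (map_zero (psi S Y n)).symm)
    have h2 := congrFun (congrFun h1 s) l
    exact (smul_eq_zero.1 h2).resolve_left (pow_ne_zero _ (pow_ne_zero _ hQ0))
  · intro h
    have h1 : (fun (s : {s // s ∈ Finset.HasAntidiagonal.antidiagonal n}) (l : S.ι s.1.1) =>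
        ((Q : ℂ) ^ s.1.1) ^ N • (((Y.frob (2 * s.1.2) - (Q : ℂ) ^ s.1.2 • 1 :
          Module.End ℂ (Y.H (2 * s.1.2))) ^ N) (y s l))) = 0 := by
      funext s l
      rw [h s l, smul_zero]
      rfl
    rw [h1, map_zero]

/-- The dimension of the image of a product of spaces. -/
theorem finrank_psi {n : ℕ} [∀ j, Module.Finite ℂ (Y.H j)] (M : ∀ j, Submodule ℂ (Y.H (2 * j)))
    (T : Submodule ℂ (PairC X Y)) (hT : ∀ w, w ∈ T ↔ ∃ y, (∀ s l, y s l ∈ M s.1.2) ∧
      psi S Y n y = w) : Module.finrank ℂ T =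
    ∑ s ∈ Finset.HasAntidiagonal.antidiagonal n, Fintype.card (S.ι s.1) *
      Module.finrank ℂ (M s.2) := by
  let A : (∀ s : {s // s ∈ Finset.HasAntidiagonal.antidiagonal n}, S.ι s.1.1 → M s.1.2) →ₗ[ℂ]
      (∀ s : {s // s ∈ Finset.HasAntidiagonal.antidiagonal n}, S.ι s.1.1 → Y.H (2 * s.1.2)) :=
    { toFun := fun y s l => (y s l : Y.H (2 * s.1.2))
      map_add' := fun _ _ => rfl
      map_smul' := fun _ _ => rfl }
  let B := LinearMap.codRestrict T ((psi S Y n).comp A) fun y =>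
    (hT _).2 ⟨A y, fun s l => (y s l).2, rfl⟩
  have hB : Function.Bijective B := by
    constructor
    · intro y y' h
      have h1 := psi_injective S n (congrArg Subtype.val h)
      funext s l
      exact Subtype.ext (congrFun (congrFun h1 s) l)
    · rintro ⟨w, hw⟩
      obtain ⟨y, hy, rfl⟩ := (hT w).1 hw
      exact ⟨fun s l => ⟨y s l, hy s l⟩, Subtype.ext rfl⟩
  have key := Finset.sum_coe_sort (Finset.HasAntidiagonal.antidiagonal n)
    (fun s : ℕ × ℕ => Fintype.card (S.ι s.1) * Module.finrank ℂ (M s.2))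
  rw [← (LinearEquiv.ofBijective B hB).finrank_eq, Module.finrank_pi_fintype ℂ, ← key]
  refine Finset.sum_congr rfl fun s _ => ?_
  rw [Module.finrank_pi_fintype ℂ]
  simp

/-- The rank over the integers of a rational vector space. -/
theorem rank_int (M : Type) [AddCommGroup M] [Module ℚ M] : Module.rank ℤ M = Module.rank ℚ M :=
  (IsLocalization.rank_eq ℚ (nonZeroDivisors ℤ) le_rfl).symm

/-- The rational vector space structure. -/
@[reducible] noncomputable def ratModule {V : Type} [AddCommGroup V] [Module ℂ V] (G : AddSubgroup V)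
    (hG : ∀ x ∈ G, ∀ c : ℚ, (c : ℂ) • x ∈ G) : Module ℚ G where
  smul c x := ⟨(c : ℂ) • (x : V), hG x x.2 c⟩
  one_smul x := Subtype.ext (by
    change ((1 : ℚ) : ℂ) • (x : V) = x
    rw [Rat.cast_one, one_smul])
  mul_smul c d x := Subtype.ext (by
    change ((c * d : ℚ) : ℂ) • (x : V) = (c : ℂ) • (d : ℂ) • (x : V)
    rw [Rat.cast_mul, mul_smul])
  smul_zero c := Subtype.ext (by
    change (c : ℂ) • (0 : V) = 0
    rw [smul_zero])
  smul_add c x y := Subtype.ext (by
    change (c : ℂ) • ((x : V) + y) = (c : ℂ) • (x : V) + (c : ℂ) • (y : V)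
    rw [smul_add])
  add_smul c d x := Subtype.ext (by
    change ((c + d : ℚ) : ℂ) • (x : V) = (c : ℂ) • (x : V) + (d : ℂ) • (x : V)
    rw [Rat.cast_add, add_smul])
  zero_smul x := Subtype.ext (by
    change ((0 : ℚ) : ℂ) • (x : V) = 0
    rw [Rat.cast_zero, zero_smul])

/-- The rank of the image of a product of groups. -/
theorem rank_psi {n : ℕ} (M : ∀ j, AddSubgroup (Y.H (2 * j)))
    (hM : ∀ j, ∀ x ∈ M j, ∀ c : ℚ, (c : ℂ) • x ∈ M j)
    (T : AddSubgroup (PairC X Y)) (hT : ∀ w, w ∈ T ↔ ∃ y, (∀ s l, y s l ∈ M s.1.2) ∧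
      psi S Y n y = w) : Module.rank ℤ T =
    ∑ s ∈ Finset.HasAntidiagonal.antidiagonal n, (Fintype.card (S.ι s.1) : Cardinal) *
      Module.rank ℤ (M s.2) := by
  let _ : ∀ j, Module ℚ (M j) := fun j => ratModule (M j) (hM j)
  let A : (∀ s : {s // s ∈ Finset.HasAntidiagonal.antidiagonal n}, S.ι s.1.1 → M s.1.2) →+ T :=
    { toFun := fun y => ⟨psi S Y n fun s l => (y s l : Y.H (2 * s.1.2)),
        (hT _).2 ⟨_, fun s l => (y s l).2, rfl⟩⟩
      map_zero' := Subtype.ext (map_zero (psi S Y n))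
      map_add' := fun y y' => Subtype.ext (map_add (psi S Y n) _ _) }
  have hA : Function.Bijective A := by
    constructor
    · intro y y' h
      have h1 := psi_injective S n (congrArg Subtype.val h)
      funext s l
      exact Subtype.ext (congrFun (congrFun h1 s) l)
    · rintro ⟨w, hw⟩
      obtain ⟨y, hy, rfl⟩ := (hT w).1 hw
      exact ⟨fun s l => ⟨y s l, hy s l⟩, Subtype.ext rfl⟩
  have key := Finset.sum_coe_sort (Finset.HasAntidiagonal.antidiagonal n)
    (fun s : ℕ × ℕ => (Fintype.card (S.ι s.1) : Cardinal.{0}) * Module.rank ℤ (M s.2))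
  rw [← (AddEquiv.ofBijective A hA).toIntLinearEquiv.rank_eq, rank_int, rank_pi,
    card_sum_fintype, ← key]
  refine Finset.sum_congr rfl fun s _ => ?_
  rw [rank_fun_eq_lift_mul, rank_int]
  simp

end system

section ranks

variable {X Y : CycleData} {Q : ℕ} (hQ : 1 < Q) (hX : HasCycles X Q) (hXd : HasDuality X Q)
  (hY : HasCycles Y Q)
  (hno : ∀ (a b : ℕ) (α β : ℂ) (n : ℕ), a + b = 2 * n → IsEigenvalue X.toVarietyData a α →
    IsEigenvalue Y.toVarietyData b β → α * β = (Q : ℂ) ^ n → ∃ k : ℕ, α = (Q : ℂ) ^ k)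
  (hT : StrongTate X Q) {Z : ProductCycles X Y} (hZ : IsProductCycles Q Z)

/-- The functionals of the system are intersection numbers with cycles. -/
def Sys.Good (S : Sys X Q) : Prop :=
  ∀ i (l : S.ι i), ∃ k, i + k = X.dim ∧ ∃ a ∈ X.cl k, S.φ i l = (X.pair (2 * i) (2 * k)).flip a

include hQ hX hXd hT in
theorem exists_sys : ∃ S : Sys X Q, S.Good := by
  have key : ∀ i, ∃ (ι : Type) (_ : Fintype ι) (x : ι → X.H (2 * i))
      (φ : ι → (X.H (2 * i) →ₗ[ℂ] ℂ)), (∀ l, x l ∈ X.cl i) ∧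
      (∀ u, X.frob (2 * i) u = (Q : ℂ) ^ i • u → u = ∑ l, φ l u • x l) ∧
      LinearIndependent ℂ x ∧ ∀ l, ∃ k, i + k = X.dim ∧ ∃ a ∈ X.cl k,
        φ l = (X.pair (2 * i) (2 * k)).flip a := by
    intro i
    by_cases hi : i ≤ X.dim
    · obtain ⟨k, hk⟩ := Nat.exists_eq_add_of_le hi
      obtain ⟨ι, hι, x, a, hx, ha, h, hli⟩ := exists_cycles hQ hX hXd hT hk.symm
      exact ⟨ι, hι, x, fun l => (X.pair (2 * i) (2 * k)).flip (a l), hx, h, hli, fun l =>
        ⟨k, hk.symm, a l, ha l, rfl⟩⟩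
    · refine ⟨Fin 0, inferInstance, Fin.elim0, Fin.elim0, fun l => l.elim0, fun u _ => ?_,
        linearIndependent_empty_type, fun l => l.elim0⟩
      rw [hX.vanish (2 * i) (by omega) u]
      simp
  choose ι hι x φ h1 h2 h3 h4 using key
  refine ⟨⟨ι, hι, x, φ, h1, fun i l => ?_, h2, h3⟩, h4⟩
  refine mem_invariants.1 (hX.variety.cyc_le i ?_)
  rw [hX.span]
  exact Submodule.subset_span (h1 i l)

/-- Expansion in a component. -/
theorem expand_comp (S : Sys X Q) {i b : ℕ} (P : Module.End ℂ (X.H (2 * i)))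
    (hP : ∀ u, X.frob (2 * i) (P u) = (Q : ℂ) ^ i • P u) (t : X.H (2 * i) ⊗[ℂ] Y.H b)
    (ht : LinearMap.rTensor (Y.H b) P t = t) :
    t = ∑ l, S.x i l ⊗ₜ[ℂ] contract t (S.φ i l) := by
  have h1 : ∀ t : X.H (2 * i) ⊗[ℂ] Y.H b, LinearMap.rTensor (Y.H b) P t =
      ∑ l, S.x i l ⊗ₜ[ℂ] contract (LinearMap.rTensor (Y.H b) P t) (S.φ i l) := by
    intro t
    induction t with
    | zero => simp [contract_zero]
    | add t t' h h' =>
      rw [map_add]
      conv_lhs => rw [h, h']
      rw [← Finset.sum_add_distrib]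
      refine Finset.sum_congr rfl fun l _ => ?_
      rw [contract_add, TensorProduct.tmul_add]
    | tmul u v =>
      rw [LinearMap.rTensor_tmul]
      simp only [contract_tmul, TensorProduct.tmul_smul]
      conv_lhs => rw [S.expand i (P u) (hP u), TensorProduct.sum_tmul]
      rfl
  have h2 := h1 t
  rw [ht] at h2
  exact h2

include hQ hX hY hno hT in
/-- Generalised invariant elements are in the image of `psi`. -/
theorem gen_eq_psi (S : Sys X Q) {n N : ℕ} {w : PairC X Y}
    (hd : HasDegree X.toVarietyData Y.toVarietyData (2 * n) w)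
    (hw : (devEnd X.toVarietyData Y.toVarietyData Q n ^ N) w = 0) :
    w = psi S Y n fun s l => contract (w (2 * s.1.1) (2 * s.1.2)) (S.φ s.1.1 l) := by
  refine eq_psi S (fun a b h => gen_even hQ (smooth_of hX.variety) (smooth_of hY.variety) hno
    hd hw h) fun i j hij => ?_
  obtain ⟨P, hP, h⟩ := gen_comp hQ (smooth_of hX.variety) (smooth_of hY.variety) hno hw hij
    (hT i).2
  exact expand_comp S _ hP _ h

include hQ hX hY hno hT in
theorem mem_generalizedP_iff (S : Sys X Q) {n : ℕ} (w : PairC X Y) :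
    w ∈ generalizedP X.toVarietyData Y.toVarietyData Q n ↔
      ∃ y : (∀ s : {s // s ∈ Finset.HasAntidiagonal.antidiagonal n}, S.ι s.1.1 →
        Y.H (2 * s.1.2)),
      (∀ s l, y s l ∈ generalized Y.toVarietyData Q s.1.2) ∧ psi S Y n y = w := by
  rw [mem_generalizedP]
  constructor
  · rintro ⟨hd, N, hw⟩
    have h1 := gen_eq_psi hQ hX hY hno hT S hd hw
    refine ⟨_, fun s l => ?_, h1.symm⟩
    rw [h1] at hw
    have h2 := (pow_psi_eq_zero S hQ _).1 hw s l
    exact (Module.End.mem_maxGenEigenspace _ _ _).2 ⟨N, h2⟩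
  · rintro ⟨y, hy, rfl⟩
    refine ⟨psi_degree S y, ?_⟩
    choose N hN using fun s l => (Module.End.mem_maxGenEigenspace _ _ _).1 (hy s l)
    refine ⟨∑ s, ∑ l, N s l, (pow_psi_eq_zero S hQ _).2 fun s l => ?_⟩
    have h1 : N s l ≤ ∑ s, ∑ l, N s l :=
      (Finset.single_le_sum (f := fun l => N s l) (fun _ _ => Nat.zero_le _)
        (Finset.mem_univ l)).trans (Finset.single_le_sum (f := fun s => ∑ l, N s l)
        (fun _ _ => Nat.zero_le _) (Finset.mem_univ s))
    obtain ⟨m, hm⟩ := Nat.exists_eq_add_of_le' h1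
    rw [hm, pow_add, Module.End.mul_apply, hN, map_zero]

include hQ hX hY hno hT in
theorem mem_invariantsP_iff (S : Sys X Q) {n : ℕ} (w : PairC X Y) :
    w ∈ invariantsP X.toVarietyData Y.toVarietyData Q n ↔
      ∃ y : (∀ s : {s // s ∈ Finset.HasAntidiagonal.antidiagonal n}, S.ι s.1.1 →
        Y.H (2 * s.1.2)),
      (∀ s l, y s l ∈ invariants Y.toVarietyData Q s.1.2) ∧ psi S Y n y = w := by
  rw [mem_invariantsP]
  have h0 : ∀ (j : ℕ) (y : Y.H (2 * j)), y ∈ invariants Y.toVarietyData Q j ↔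
      ((Y.frob (2 * j) - (Q : ℂ) ^ j • 1 : Module.End ℂ (Y.H (2 * j))) ^ 1) y = 0 := by
    intro j y
    rw [pow_one]
    exact Iff.rfl
  constructor
  · rintro ⟨hd, hw⟩
    have hw' : (devEnd X.toVarietyData Y.toVarietyData Q n ^ 1) w = 0 := by
      rw [pow_one]
      exact hw
    have h1 := gen_eq_psi hQ hX hY hno hT S hd hw'
    refine ⟨_, fun s l => ?_, h1.symm⟩
    rw [h1] at hw'
    exact (h0 _ _).2 ((pow_psi_eq_zero S hQ _).1 hw' s l)
  · rintro ⟨y, hy, rfl⟩
    refine ⟨psi_degree S y, ?_⟩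
    have h1 := (pow_psi_eq_zero S (N := 1) hQ y).2 fun s l => (h0 _ _).1 (hy s l)
    rw [pow_one] at h1
    exact h1

include hQ hX hY hno hT hZ in
theorem mem_cl_iff (S : Sys X Q) (hS : S.Good) {n : ℕ} (w : PairC X Y) :
    w ∈ Z.cl n ↔
      ∃ y : (∀ s : {s // s ∈ Finset.HasAntidiagonal.antidiagonal n}, S.ι s.1.1 →
        Y.H (2 * s.1.2)),
      (∀ s l, y s l ∈ Y.cl s.1.2) ∧ psi S Y n y = w := by
  constructor
  · intro hw
    have hi := hZ.invariant n w hw
    have hw' : (devEnd X.toVarietyData Y.toVarietyData Q n ^ 1) w = 0 := by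
      rw [pow_one]
      exact hi.2
    have h1 := gen_eq_psi hQ hX hY hno hT S hi.1 hw'
    refine ⟨_, fun s l => ?_, h1.symm⟩
    obtain ⟨k, hk, a, ha, hφ⟩ := hS s.1.1 l
    have h2 := Finset.HasAntidiagonal.mem_antidiagonal.1 s.2
    have h3 := hZ.push_mem s.1.1 s.1.2 k hk a ha w (by rw [h2]; exact hw)
    rw [hφ]
    exact h3
  · rintro ⟨y, hy, rfl⟩
    have h0 : psi S Y n y = ∑ s, ∑ l, incl X.toVarietyData Y.toVarietyData (2 * s.1.1)
        (2 * s.1.2) (tm (S.x s.1.1 l) (y s l)) := rfl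
    rw [h0]
    refine AddSubgroup.sum_mem (Z.cl n) fun s _ => AddSubgroup.sum_mem (Z.cl n) fun l _ => ?_
    have h2 := Finset.HasAntidiagonal.mem_antidiagonal.1 s.2
    have h3 := hZ.products s.1.1 s.1.2 _ (S.mem s.1.1 l) _ (hy s l)
    rw [h2] at h3
    exact h3

include hQ hX hXd hY hno hT hZ in
/-- **The decoupling of ranks and pole orders.** -/
theorem ranksDecoupled : RanksDecoupled Q Z := by
  have hf : ∀ j, Module.Finite ℂ (Y.H j) := hY.variety.finite
  have hfX : ∀ j, Module.Finite ℂ (X.H j) := hX.variety.finite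
  obtain ⟨S, hS⟩ := exists_sys hQ hX hXd hT
  have hr : ∀ n, Module.rank ℤ (Z.cl n) = ∑ s ∈ Finset.HasAntidiagonal.antidiagonal n,
      (Module.finrank ℂ (invariants X.toVarietyData Q s.1) : Cardinal) *
        Module.rank ℤ (Y.cl s.2) := by
    intro n
    rw [rank_psi S (fun j => Y.cl j) (fun j => hY.rat j) (Z.cl n)
      (mem_cl_iff hQ hX hY hno hT hZ S hS)]
    exact Finset.sum_congr rfl fun s _ => by rw [S.card]
  have hd : ∀ n, Module.finrank ℂ (invariantsP X.toVarietyData Y.toVarietyData Q n) =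
      ∑ s ∈ Finset.HasAntidiagonal.antidiagonal n,
        Module.finrank ℂ (invariants X.toVarietyData Q s.1) *
          Module.finrank ℂ (invariants Y.toVarietyData Q s.2) := by
    intro n
    rw [finrank_psi S (fun j => invariants Y.toVarietyData Q j) _
      (mem_invariantsP_iff hQ hX hY hno hT S)]
    exact Finset.sum_congr rfl fun s _ => by rw [S.card]
  have hg : ∀ n, Module.finrank ℂ (generalizedP X.toVarietyData Y.toVarietyData Q n) =
      ∑ s ∈ Finset.HasAntidiagonal.antidiagonal n,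
        Module.finrank ℂ (invariants X.toVarietyData Q s.1) *
          Module.finrank ℂ (generalized Y.toVarietyData Q s.2) := by
    intro n
    rw [finrank_psi S (fun j => generalized Y.toVarietyData Q j) _
      (mem_generalizedP_iff hQ hX hY hno hT S)]
    exact Finset.sum_congr rfl fun s _ => by rw [S.card]
  have h0 : 0 < Module.finrank ℂ (invariants X.toVarietyData Q 0) := by
    have h1 : X.one ∈ invariants X.toVarietyData Q 0 :=
      hX.variety.cyc_le 0 hX.variety.one_mem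
    have h2 : X.one ≠ 0 := by
      intro h
      have h3 := hX.variety.res_one
      rw [h, map_zero] at h3
      exact zero_ne_one h3
    have h3 : Nontrivial (invariants X.toVarietyData Q 0) :=
      ⟨⟨⟨X.one, h1⟩, 0, fun h => h2 (congrArg Subtype.val h)⟩⟩
    have h4 : Module.Finite ℂ (invariants X.toVarietyData Q 0) :=
      FiniteDimensional.finiteDimensional_submodule _
    exact Module.finrank_pos
  exact ⟨hr, fun m => iff_of_sums (fun i => Module.finrank ℂ (invariants X.toVarietyData Q i)) h0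
      _ _ _ _ hr hd m, fun m => iff_of_sums
      (fun i => Module.finrank ℂ (invariants X.toVarietyData Q i)) h0 _ _ _ _ hr hg m⟩

end ranks

end Pool.Agent.H855.DP
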