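import Mathlib
import Pool.Agent.H855.DP.Arith
import Pool.Agent.H855.DP.Rank

/-!
# Ranks and pole orders for products of two varieties: the arithmetic part
-/

set_option autoImplicit false

namespace Pool.Agent.H855.DP

open NumberField Module Pool.Agent.Y1.CT Pool.Agent.V1168.EV Pool.Agent.V1168.EF
  Pool.Agent.H855.CM

variable {p : ℕ} [Fact p.Prime]

theorem ranks_of_core {I : Type} {ν : PadicAlgCl p ≃+* ℂ} {K : I → Type}
    [∀ i, Field (K i)] [∀ i, NumberField (K i)] [∀ i, IsCMField (K i)] {Ω : Finset ℂ}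
    {E : Finset (Σ i, ((K i →+* ℂ) → ℝ))} (h : Core ν K Ω E) :
    RanksDecoupledOutside ν K Ω E := by
  intro J _ b a π ha hπ hcomb r X Y Z hr hX hXd hY hZ hgen hfrom htight hT
  refine ranksDecoupled (Nat.one_lt_pow hr.ne' (Fact.out : p.Prime).one_lt) hX hXd hY ?_ hT hZ
  refine no_common h hπ hcomb hr hX.variety.isSmooth hY.variety.isSmooth
    (fun a α hα => hgen a α hα.1) (fun a α hα => hfrom a α hα.1) ?_
  exact htight.imp (fun ht a α hα => ht a α hα.1) fun ht a α hα => ht a α hα.1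

/-- **The theorem on ranks and pole orders for products of two varieties.** -/
theorem exists_ranks_decoupled {I : Type} (ν : PadicAlgCl p ≃+* ℂ) (K : I → Type)
    [∀ i, Field (K i)] [∀ i, NumberField (K i)] [∀ i, IsCMField (K i)] (w : I → ℕ)
    (hw : ∀ i, IsWeight (K i) (w i)) (Ω : Finset ℂ) :
    ∃ E : Finset (Σ i, ((K i →+* ℂ) → ℝ)), IsSmall w Ω E ∧ RanksDecoupledOutside ν K Ω E := by
  obtain ⟨E, hE, h⟩ := exists_core ν K w hw Ω
  exact ⟨E, hE, ranks_of_core h⟩

end Pool.Agent.H855.DP
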