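import Mathlib
import Pool.Agent.H855.DP.SmoothDefs
import Pool.Graph.R_pool_sql_team_seeded_843ab51a.V1168.EF.Defs

/-!
# Exceptional spaces: definitions
-/

set_option autoImplicit false

namespace Pool.Agent.H855.DP

open NumberField Module Pool.Agent.V1168.EV Pool.Agent.V1168.EF Pool.Agent.H855.CM
  Pool.Agent.Y137.MV

/-- The rational space generated by the functions `σ ↦ v (conj (σ β)) - v (σ β)` on the automorphisms
of `ℂ`, for `β` in `Ω`, where `v` is the `p`-adic valuation of `ℂ` given by `ν`, with `v p = 1`. -/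
noncomputable def slopeSpan {p : ℕ} [Fact p.Prime] (ν : PadicAlgCl p ≃+* ℂ) (Ω : Finset ℂ) :
    Submodule ℚ ((ℂ ≃+* ℂ) → ℝ) :=
  Submodule.span ℚ ((fun β (σ : ℂ ≃+* ℂ) => Real.logb p ‖ν.symm (σ β)‖ -
    Real.logb p ‖ν.symm (starRingEnd ℂ (σ β))‖) '' (Ω : Set ℂ))

/-- **The exceptional space** of the field `E` for the space `V` of functions on the automorphisms
of `ℂ`: the odd functions `v` on the complex embeddings of `E` such that for all embeddings `φ` the
function `σ ↦ v (σ φ)` is in `V`. -/
def excSpace (V : Submodule ℚ ((ℂ ≃+* ℂ) → ℝ)) (E : Type) [Field E] :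
    Submodule ℚ ((E →+* ℂ) → ℝ) where
  carrier := {v | (∀ φ, v (ComplexEmbedding.conjugate φ) = - v φ) ∧
    ∀ φ, (fun σ : ℂ ≃+* ℂ => v ((σ : ℂ →+* ℂ).comp φ)) ∈ V}
  zero_mem' := ⟨fun _ => by simp, fun _ => V.zero_mem⟩
  add_mem' := fun {v w} hv hw => ⟨fun φ => by
    rw [Pi.add_apply, Pi.add_apply, hv.1, hw.1]
    ring, fun φ => V.add_mem (hv.2 φ) (hw.2 φ)⟩
  smul_mem' := fun c v hv => ⟨fun φ => by
    rw [Pi.smul_apply, Pi.smul_apply, hv.1, smul_neg], fun φ => V.smul_mem c (hv.2 φ)⟩

/-- The sizes of the exceptional spaces. Let `d` be the dimension of `V`. Then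

* `2 d ≤ n`;
* for all CM fields `E` the dimension of the exceptional space of `E` is at most `d`;
* for all finite families of pairwise unrelated CM fields `E i` whose exceptional spaces are not zero
  `∑ m i ≤ d`, where `m i` is a lower bound for the dimensions of the nonzero stable spaces of odd
  rational functions on the embeddings of `E i` (`IsLowerBound`; `m i = 1` is possible); so there are
  at most `d` such fields. -/
def SpacesAreSmall (n : ℕ) (V : Submodule ℚ ((ℂ ≃+* ℂ) → ℝ)) : Prop :=
  2 * finrank ℚ V ≤ n ∧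
    (∀ (E : Type) [Field E] [NumberField E] [IsCMField E],
      FiniteDimensional ℚ (excSpace V E) ∧ finrank ℚ (excSpace V E) ≤ finrank ℚ V) ∧
    ∀ (I : Type) [Fintype I] (E : I → Type) [∀ i, Field (E i)] [∀ i, NumberField (E i)]
      [∀ i, IsCMField (E i)] (m : I → ℕ), (∀ i k, i ≠ k → Unrelated (E i) (E k)) →
      (∀ i, IsLowerBound (E i) (m i)) → (∀ i, excSpace V (E i) ≠ ⊥) → ∑ i, m i ≤ finrank ℚ V

/-- The eigenvalues of weight `b` on `H^b(Y)`, for all `b`, are in the group generated by `Ω` and `p`, up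
to powers. -/
def PureInGroup (Y : VarietyData) (Q p : ℕ) (Ω : Finset ℂ) : Prop :=
  ∀ b β, IsPure Y Q b β → Generated p Ω β

/-- For all finite families of Weil numbers `π j` for `p ^ a` (any `a > 0`) in CM fields `L j` such that
no nonzero element of the exceptional spaces of the fields `L j` is a combination of the slope vectors
of the `π j`, for all finite fields with `Q = p ^ r` elements and all smooth varieties `X` and `Y` over
this field, where the eigenvalues of weight `a` on `H^a(X)` are generated by the `π j`, those of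
weight `b` on `H^b(Y)` are in the group generated by `Ω` and `p` (both up to powers), and one of `X`
and `Y` is tight: `X` and `Y` are decoupled. -/
def DecoupledOutsideSpaces {p : ℕ} [Fact p.Prime] (ν : PadicAlgCl p ≃+* ℂ) (Ω : Finset ℂ) : Prop :=
  ∀ (J : Type) [Fintype J] (L : J → Type) [∀ j, Field (L j)] [∀ j, NumberField (L j)]
    [∀ j, IsCMField (L j)] (a : ℕ) (π : ∀ j, L j), 0 < a →
    (∀ j, π j * IsCMField.complexConj (L j) (π j) = (p : L j) ^ a) →
    (∀ j, ∀ v ∈ excSpace (slopeSpan ν Ω) (L j), IsCombination ν a π v → v = 0) →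
    ∀ (r : ℕ) (X Y : VarietyData) (Z : ProductData X Y), 0 < r → IsSmooth X (p ^ r) →
      IsSmooth Y (p ^ r) → IsProduct (p ^ r) Z → PureGenerated X (p ^ r) p π →
      PureInGroup Y (p ^ r) p Ω → (TightPure ν X (p ^ r) ∨ TightPure ν Y (p ^ r)) →
      ∀ m, Decoupled (p ^ r) Z m

end Pool.Agent.H855.DP
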