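import Mathlib
import Pool.Agent.H855.DP.SpaceDefs
import Pool.Agent.H855.DP.Arith
import Pool.Graph.R_seed8.Y4.Aut

/-!
# Exceptional spaces
-/

set_option autoImplicit false
set_option linter.unusedSectionVars false

namespace Pool.Agent.H855.DP

open NumberField Finset Module Polynomial Pool.Agent.Y1.CT Pool.Agent.V1168.EV Pool.Agent.V1168.EF
  Pool.Agent.H855.CM Pool.Agent.Y137.MV Pool.Agent.TH170

section dim

/-- The dimension of the exceptional space. -/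
theorem finrank_excSpace (V : Submodule ℚ ((ℂ ≃+* ℂ) → ℝ)) [FiniteDimensional ℚ V] (E : Type)
    [Field E] [NumberField E] :
    FiniteDimensional ℚ (excSpace V E) ∧ finrank ℚ (excSpace V E) ≤ finrank ℚ V := by
  obtain ⟨φ₀⟩ : Nonempty (E →+* ℂ) := inferInstance
  let f : excSpace V E →ₗ[ℚ] V :=
    { toFun := fun v => ⟨fun σ => v.1 ((σ : ℂ →+* ℂ).comp φ₀), v.2.2 φ₀⟩
      map_add' := fun v w => Subtype.ext rfl
      map_smul' := fun c v => Subtype.ext rfl }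
  have hf : Function.Injective f := by
    rw [injective_iff_map_eq_zero]
    intro v hv
    refine Subtype.ext (funext fun ψ => ?_)
    obtain ⟨σ, hσ⟩ := Pool.Agent.Y4.exists_aut_emb φ₀ ψ
    have h1 : (fun σ : ℂ ≃+* ℂ => v.1 ((σ : ℂ →+* ℂ).comp φ₀)) = 0 := congrArg Subtype.val hv
    have h2 := congrFun h1 σ
    rw [← hσ]
    exact h2
  exact ⟨Module.Finite.of_injective f hf, LinearMap.finrank_le_finrank_of_injective hf⟩

/-- A complement of the relations of an odd function. -/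
theorem exists_complement {E : Type} [Field E] [NumberField E] [IsCMField E]
    (v : (E →+* ℂ) → ℝ) (hv0 : v ≠ 0)
    (hodd : ∀ φ, v (ComplexEmbedding.conjugate φ) = - v φ) :
    ∃ C : Submodule ℚ ((E →+* ℂ) → ℚ), (∀ n ∈ C, IsOdd n) ∧
      (∀ τ : ℂ ≃+* ℂ, ∀ n ∈ C, (fun φ => n ((τ : ℂ →+* ℂ).comp φ)) ∈ C) ∧ C ≠ ⊥ ∧
      ∀ n ∈ C, oneMap v n = 0 → n = 0 := by
  classical
  let Z : Submodule ℚ ((E →+* ℂ) → ℚ) := oneSpace v ⊥
  have hZst : ∀ τ : ℂ ≃+* ℂ, ∀ n ∈ Z, (fun φ => n ((τ : ℂ →+* ℂ).comp φ)) ∈ Z :=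
    fun τ n hn => oneSpace_stable v translates_bot τ n hn
  let e : (ℂ ≃+* ℂ) → Equiv.Perm (E →+* ℂ) := fun τ =>
    { toFun := fun φ => (τ : ℂ →+* ℂ).comp φ
      invFun := fun φ => (τ.symm : ℂ →+* ℂ).comp φ
      left_inv := fun φ => by ext z; simp
      right_inv := fun φ => by ext z; simp }
  have hP : ∀ (τ : ℂ ≃+* ℂ) (f : (E →+* ℂ) → ℚ),
      oproj Z (fun φ => f ((τ : ℂ →+* ℂ).comp φ)) =
        fun φ => oproj Z f ((τ : ℂ →+* ℂ).comp φ) := by
    intro τ f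
    exact oproj_perm Z (e τ) (hZst τ) (fun f hf => hZst τ.symm f hf) f
  let O : Submodule ℚ ((E →+* ℂ) → ℚ) :=
    { carrier := {n | IsOdd n}
      zero_mem' := fun φ => by simp
      add_mem' := fun {a b} ha hb φ => by
        rw [Pi.add_apply, Pi.add_apply, ha φ, hb φ]
        ring
      smul_mem' := fun c a ha φ => by
        rw [Pi.smul_apply, Pi.smul_apply, ha φ, smul_neg] }
  let C : Submodule ℚ ((E →+* ℂ) → ℚ) := O.map (LinearMap.id - oproj Z)
  have hCodd : ∀ n ∈ C, IsOdd n := by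
    rintro _ ⟨n, hn, rfl⟩
    exact O.sub_mem hn (oproj_mem Z n).1
  have hCst : ∀ τ : ℂ ≃+* ℂ, ∀ n ∈ C, (fun φ => n ((τ : ℂ →+* ℂ).comp φ)) ∈ C := by
    rintro τ _ ⟨n, hn, rfl⟩
    refine ⟨fun φ => n ((τ : ℂ →+* ℂ).comp φ), fun φ => ?_, ?_⟩
    · change n ((τ : ℂ →+* ℂ).comp (ComplexEmbedding.conjugate φ)) = - n ((τ : ℂ →+* ℂ).comp φ)
      rw [QC.comp_conj τ φ]
      exact hn _
    · rw [LinearMap.sub_apply, hP]
      rfl
  refine ⟨C, hCodd, hCst, fun hC => hv0 ?_, ?_⟩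
  · funext φ
    have hn : IsOdd (dd φ) := dd_odd φ
    have h1 : dd φ - oproj Z (dd φ) ∈ C := ⟨dd φ, hn, rfl⟩
    rw [hC, Submodule.mem_bot, sub_eq_zero] at h1
    have h2 : dd φ ∈ Z := by
      rw [h1]
      exact oproj_mem Z _
    have h3 := h2.2
    rw [Submodule.mem_bot] at h3
    have h4 := congrFun h3 (RingEquiv.refl ℂ)
    rw [oneMap_apply] at h4
    have h5 : ∀ ψ : E →+* ℂ, ((RingEquiv.refl ℂ : ℂ ≃+* ℂ) : ℂ →+* ℂ).comp ψ = ψ := by
      intro ψ
      ext z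
      rfl
    simp only [h5] at h4
    rw [sum_dd, hodd] at h4
    change v φ = 0
    have h7 : v φ - -v φ = 0 := h4
    linarith
  · rintro _ ⟨n, hn, rfl⟩ h
    have h1 : oproj Z (n - oproj Z n) = 0 := by
      rw [map_sub, oproj_eq Z (oproj_mem Z n), sub_self]
    have h2 : n - oproj Z n ∈ Z :=
      ⟨hCodd _ ⟨n, hn, rfl⟩, by
        rw [Submodule.mem_bot]
        exact h⟩
    have h3 := oproj_eq Z h2
    change n - oproj Z n = 0
    rw [← h3]
    exact h1

/-- **The number of fields with exceptional spaces.** -/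
theorem sum_le {I : Type} [Fintype I] {E : I → Type} [∀ i, Field (E i)] [∀ i, NumberField (E i)]
    [∀ i, IsCMField (E i)] (m : I → ℕ) (hun : ∀ i k, i ≠ k → Unrelated (E i) (E k))
    (hm : ∀ i, IsLowerBound (E i) (m i)) (V : Submodule ℚ ((ℂ ≃+* ℂ) → ℝ))
    [FiniteDimensional ℚ V] (hV : ∀ i, excSpace V (E i) ≠ ⊥) : ∑ i, m i ≤ finrank ℚ V := by
  classical
  have h0 : ∀ i, ∃ v ∈ excSpace V (E i), v ≠ 0 := fun i =>
    (Submodule.ne_bot_iff _).1 (hV i)
  choose v hv hv0 using h0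
  choose C hCodd hCst hCne hCker using fun i => exists_complement (v i) (hv0 i) (hv i).1
  have hCV : ∀ i, ∀ n ∈ C i, oneMap (v i) n ∈ V := by
    intro i n _
    have h1 : oneMap (v i) n = ∑ φ, n φ • fun σ : ℂ ≃+* ℂ => v i ((σ : ℂ →+* ℂ).comp φ) := by
      funext σ
      rw [oneMap_apply, Finset.sum_apply]
      refine Finset.sum_congr rfl fun φ _ => ?_
      rw [Pi.smul_apply, Rat.smul_def]
    rw [h1]
    exact Submodule.sum_mem _ fun φ _ => Submodule.smul_mem _ _ ((hv i).2 φ)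
  let g : ∀ i, C i →ₗ[ℚ] V := fun i =>
    LinearMap.codRestrict V ((oneMap (v i)).comp (C i).subtype) (fun n => hCV i n.1 n.2)
  let G : (∀ i, C i) →ₗ[ℚ] V := ∑ i, (g i).comp (LinearMap.proj i)
  have hG : ∀ n : ∀ i, C i, (G n : (ℂ ≃+* ℂ) → ℝ) = ∑ i, oneMap (v i) (n i).1 := by
    intro n
    rw [LinearMap.sum_apply, Submodule.coe_sum]
    rfl
  have hinj : Function.Injective G := by
    rw [injective_iff_map_eq_zero]
    intro n hn
    have h1 : ∑ i, oneMap (v i) (n i).1 = 0 := by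
      rw [← hG, hn]
      rfl
    let x : Emb E → ℝ := fun y => v y.1 y.2
    let N : Emb E → ℚ := fun y => (n y.1).1 y.2
    have hNodd : OddQ N := fun y => hCodd y.1 _ (n y.1).2 y.2
    have h2 : relMap x N = 0 := by
      rw [← h1]
      funext σ
      rw [relMap_apply, Fintype.sum_sigma, Finset.sum_apply]
      refine Finset.sum_congr rfl fun i _ => ?_
      rw [oneMap_apply]
      rfl
    have h3 : N ∈ relSpace x ⊥ := ⟨hNodd, by rw [h2]; exact Submodule.zero_mem _⟩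
    funext i
    have h4 := comp_mem hun (relSpace x ⊥) (fun m hm => hm.1)
      (fun τ m hm => relSpace_stable x translates_bot τ m hm) h3 i
    have h5 := h4.2
    rw [relMap_ext, Submodule.mem_bot] at h5
    exact Subtype.ext (hCker i _ (n i).2 h5)
  have h6 := LinearMap.finrank_le_finrank_of_injective hinj
  rw [Module.finrank_pi_fintype] at h6
  exact (Finset.sum_le_sum fun i _ => hm i (C i) (hCodd i) (hCst i) (hCne i)).trans h6

theorem slopeSpan_eq {p : ℕ} [Fact p.Prime] (ν : PadicAlgCl p ≃+* ℂ) (Ω : Finset ℂ) :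
    slopeSpan ν Ω = logSpanQ ν Ω := rfl

theorem spacesAreSmall {p : ℕ} [Fact p.Prime] (ν : PadicAlgCl p ≃+* ℂ) {Ω : Finset ℂ}
    (hΩ : IsStable Ω) : SpacesAreSmall Ω.card (slopeSpan ν Ω) := by
  have hfin : FiniteDimensional ℚ (slopeSpan ν Ω) :=
    inferInstanceAs (FiniteDimensional ℚ (logSpanQ ν Ω))
  refine ⟨finrank_logSpanQ (ν := ν) hΩ, ?_, ?_⟩
  · intro E _ _ _
    exact finrank_excSpace _ E
  · intro I _ E _ _ _ m hun hm hV
    exact sum_le m hun hm _ hV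

end dim

section arith

variable {p : ℕ} [Fact p.Prime]

/-- Outside of the exceptional spaces there are no relations. -/
theorem oddLog_eq_zero {ν : PadicAlgCl p ≃+* ℂ} {Ω : Finset ℂ} (hΩ : IsStable Ω) {J : Type}
    [Fintype J] {L : J → Type} [∀ j, Field (L j)] [∀ j, NumberField (L j)] [∀ j, IsCMField (L j)]
    {a : ℕ} {π : ∀ j, L j}
    (hcomb : ∀ j, ∀ v ∈ excSpace (slopeSpan ν Ω) (L j), IsCombination ν a π v → v = 0)
    {n : Emb L → ℚ} (hn : OddQ n) {c : ℚ} (hc : c ≠ 0) {β : ℂ} (hβ : Generated p Ω β)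
    (h : relMap (slopes ν a π) n = c • oddLog ν β) : oddLog ν β = 0 := by
  by_contra h0
  have h1 : oddLog ν β ∈ logSpanQ ν Ω := generated_memQ hΩ hβ
  have h2 : relMap (slopes ν a π) n ∈ logSpanQ ν Ω := by
    rw [h]
    exact Submodule.smul_mem _ _ h1
  have h3 : relMap (slopes ν a π) n ≠ 0 := by
    rw [h]
    exact smul_ne_zero hc h0
  obtain ⟨j, v, hv0, hodd, hv⟩ := exists_vector (slopes ν a π) n hn h3
  have h4 : v ∈ excSpace (slopeSpan ν Ω) (L j) :=
    ⟨hodd, fun φ => transSpan_le (translates_logSpanQ hΩ) h2 (hv φ)⟩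
  exact hv0 (hcomb j v h4 (isCombination_of v hodd _ hv n hn rfl))

/-- Outside of the exceptional spaces there are no common eigenvalues. -/
theorem no_common_space {ν : PadicAlgCl p ≃+* ℂ} {Ω : Finset ℂ} (hΩ : IsStable Ω) {J : Type}
    [Fintype J] {L : J → Type} [∀ j, Field (L j)] [∀ j, NumberField (L j)] [∀ j, IsCMField (L j)]
    {a : ℕ} {π : ∀ j, L j}
    (hπ : ∀ j, π j * IsCMField.complexConj (L j) (π j) = (p : L j) ^ a)
    (hcomb : ∀ j, ∀ v ∈ excSpace (slopeSpan ν Ω) (L j), IsCombination ν a π v → v = 0)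
    {r : ℕ} (hr : 0 < r) {X Y : VarietyData}
    (hX : IsSmooth X (p ^ r)) (hY : IsSmooth Y (p ^ r)) (hgen : PureGenerated X (p ^ r) p π)
    (hfrom : PureInGroup Y (p ^ r) p Ω) (htight : TightPure ν X (p ^ r) ∨ TightPure ν Y (p ^ r))
    (c d : ℕ) (α β : ℂ) (n : ℕ) (hcd : c + d = 2 * n) (hα : IsEigenvalue X c α)
    (hβ : IsEigenvalue Y d β) (hαβ : α * β = ((p ^ r : ℕ) : ℂ) ^ n) :
    ∃ k : ℕ, α = ((p ^ r : ℕ) : ℂ) ^ k := by
  have hp1 := (Fact.out : p.Prime).one_lt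
  have hQ : 1 < p ^ r := Nat.one_lt_pow hr.ne' hp1
  have hne : ∀ (V : VarietyData), IsSmooth V (p ^ r) → ∀ c α, IsEigenvalue V c α → α ≠ 0 := by
    intro V hV c α hα h0
    have h1 := hV.weights c α hα
    rw [h0, norm_zero, zero_pow two_ne_zero] at h1
    have h2 : (0 : ℝ) < ((p ^ r : ℕ) : ℝ) ^ c := by positivity
    exact absurd h1 (not_le.2 h2)
  have hα0 := hne X hX c α hα
  have hβ0 := hne Y hY d β hβ
  obtain ⟨hα', hβ'⟩ := pure_of_mul hQ hX hY hcd hα hβ hαβ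
  obtain ⟨N, e, k, hN, hrel⟩ := hgen c α hα'
  have h1 := relMap_generated (ν := ν) hπ hrel
  have h2 := oddLog_add (ν := ν) hα0 hβ0 hαβ
  have h3 : relMap (slopes ν a π)
      (fun y => (e y : ℚ) - (e (Pool.Agent.V1168.EV.bar y) : ℚ)) = (2 * N : ℚ) • oddLog ν β := by
    rw [h1, h2, smul_neg, neg_smul, neg_neg]
  have hN' : (2 * N : ℚ) ≠ 0 := by
    have : (N : ℚ) ≠ 0 := Nat.cast_ne_zero.2 hN.ne'
    positivity
  have h5 : oddLog ν β = 0 := oddLog_eq_zero hΩ hcomb (fun y => by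
    simp only [bar_bar]
    ring) hN' (hfrom d β hβ') h3
  have h6 : oddLog ν α = 0 := by rw [h2, h5, neg_zero]
  rcases htight with ht | ht
  · exact ht c α hα' (supersingular_of hα0 h6)
  · obtain ⟨k', hk'⟩ := ht d β hβ' (supersingular_of hβ0 h5)
    have h7 := hβ'.2
    rw [hk'] at h7
    have h8 := weight_eq hQ h7
    refine ⟨n - k', ?_⟩
    have h9 : (((p ^ r : ℕ) : ℂ)) ^ n = ((p ^ r : ℕ) : ℂ) ^ (n - k') * ((p ^ r : ℕ) : ℂ) ^ k' := by
      rw [← pow_add]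
      congr 1
      omega
    rw [hk', h9] at hαβ
    exact mul_right_cancel₀ (by rw [hk'] at hβ0; exact hβ0) hαβ

/-- **The decoupling theorem outside of the exceptional spaces.** -/
theorem decoupledOutsideSpaces (ν : PadicAlgCl p ≃+* ℂ) {Ω : Finset ℂ} (hΩ : IsStable Ω) :
    DecoupledOutsideSpaces ν Ω := by
  intro J _ L _ _ _ a π ha hπ hcomb r X Y Z hr hX hY hZ hgen hfrom htight
  exact decoupled (Nat.one_lt_pow hr.ne' (Fact.out : p.Prime).one_lt) hX hY
    (no_common_space hΩ hπ hcomb hr hX hY hgen hfrom htight) hZ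

end arith

end Pool.Agent.H855.DP
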